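import Pool.Agent.H91DI.Typ

/-!
The diameter from a long cycle and transitivity on tuples.
-/

set_option linter.unusedSectionVars false

namespace H91DI
open RC14 Finset Equiv Equiv.Perm
open scoped InnerProductSpace Nat

noncomputable section

variable {n : ℕ}

/-- the length function on permutations -/
def PL {k : ℕ} (x : Fin k → Alt n) (g : Perm (Fin n)) (ℓ : ℕ) : Prop :=
  ∃ g' : Alt n, (g' : Perm (Fin n)) = g ∧ IsW x g' ℓ

theorem diam_det (k p a L1 L2 j : ℕ) (x : Fin k → Alt n) (hp : p.Prime) (hj : 1 ≤ j)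
    (hjp : 4 * j < p) (hpn : p ≤ n) (h6 : 6 ≤ n) (hpa : ¬ p ∣ a) (han : a ≤ n)
    (hQ : ∃ u ∈ QQ n a p, IsW x u (L1 + 1))
    (hreach : ∀ s t : Tup p n, ∃ g : Alt n, IsW x g L2 ∧ mv (g : Perm (Fin n)) s = t)
    (g : Alt n) : IsW x g (8 * (n * (L1 + 1) + 2 * L2) * (n / (4 * j) + 1)) := by
  classical
  obtain ⟨u, hu, huw⟩ := hQ
  rw [QQ, Finset.mem_filter] at hu
  have hpc := pow_type (u : Perm (Fin n)) a p hp hpa hu.2
  set y : Alt n := u ^ a with hy
  have hyp : IsPC p (y : Perm (Fin n)) := by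
    rw [hy, Subgroup.coe_pow]
    exact hpc
  have hyw : IsW x y (n * (L1 + 1)) :=
    isW_mono (isW_pow huw a) (Nat.mul_le_mul_right _ han)
  -- all `p`-cycles
  have hall : ∀ z : Perm (Fin n), IsPC p z → PL x z (n * (L1 + 1) + 2 * L2) := by
    intro z hz
    have hconj : IsConj (y : Perm (Fin n)) z := by
      rw [isConj_iff_cycleType_eq, hyp.1.cycleType, hz.1.cycleType, hyp.2, hz.2]
    obtain ⟨σ, hσ⟩ := isConj_iff.1 hconj
    -- enumerate the support of `y`
    set e : Tup p n := ((y : Perm (Fin n)).support.orderEmbOfFin hyp.2).toEmbedding with he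
    obtain ⟨w, hw1, hw2⟩ := hreach e (mv σ e)
    have hagree : ∀ i ∈ (y : Perm (Fin n)).support, (w : Perm (Fin n)) i = σ i := by
      intro i hi
      have h1 : i ∈ Set.range ((y : Perm (Fin n)).support.orderEmbOfFin hyp.2) := by
        rw [Finset.range_orderEmbOfFin]
        exact hi
      obtain ⟨l, rfl⟩ := h1
      have h2 := DFunLike.congr_fun hw2 l
      rw [mv_apply, mv_apply] at h2
      exact h2
    refine ⟨w * y * w⁻¹, ?_, ?_⟩
    · rw [Subgroup.coe_mul, Subgroup.coe_mul, Subgroup.coe_inv, conj_agree _ σ _ hagree, hσ]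
    · exact isW_mono (isW_mul (isW_mul hw1 hyw) (isW_inv hw1)) (by omega)
  have hcard : Fintype.card (Fin n) = n := Fintype.card_fin n
  have key := len_even (α := Fin n) (PL x) (by
      rintro g h a b ⟨g', rfl, hg⟩ ⟨h', rfl, hh⟩
      exact ⟨g' * h', by rw [Subgroup.coe_mul], isW_mul hg hh⟩) (by
      rintro g a b ⟨g', rfl, hg⟩ hab
      exact ⟨g', rfl, isW_mono hg hab⟩) ⟨1, by simp, isW_one⟩ p _ j hj hjp (by rw [hcard]; exact hpn)
    (by rw [hcard]; exact h6) hall (g : Perm (Fin n)) (mem_alternatingGroup.1 g.2)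
  rw [hcard] at key
  obtain ⟨g', hg', hw⟩ := key
  have : g' = g := Subtype.ext hg'
  rwa [this] at hw

end

end H91DI
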