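import Pool.Agent.H91DI.Trc
import Pool.Agent.H91DI.Det

/-!
Choice of the parameters.
-/

set_option linter.unusedSectionVars false

namespace H91DI
open RC14 Finset Filter Topology

noncomputable section

/-- a prime in a given range not dividing a given number -/
lemma exists_p (r M : ℕ) (hr : 8 ≤ r) (hM0 : 0 < M) (hM : M < (r / 4) * (2 * (r / 4))) :
    ∃ p : ℕ, p.Prime ∧ r / 4 < p ∧ p ≤ r ∧ ¬ p ∣ M := by
  obtain ⟨p, hp, h1, h2⟩ := Nat.exists_prime_lt_and_le_two_mul (r / 4) (by omega)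
  obtain ⟨q, hq, h3, h4⟩ := Nat.exists_prime_lt_and_le_two_mul (2 * (r / 4)) (by omega)
  by_cases hpM : p ∣ M
  · refine ⟨q, hq, by omega, by omega, fun hqM => ?_⟩
    have hcop : Nat.Coprime p q := (Nat.coprime_primes hp hq).2 (by omega)
    have h5 : p * q ∣ M := hcop.mul_dvd_of_dvd_of_dvd hpM hqM
    have h6 : p * q ≤ M := Nat.le_of_dvd hM0 h5
    have h7 : (r / 4) * (2 * (r / 4)) ≤ p * q := Nat.mul_le_mul (by omega) (by omega)
    omega
  · exact ⟨p, hp, h1, by omega, hpM⟩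

lemma exp_log_pow (n a : ℕ) (hn : 0 < n) : Real.exp (-((a : ℝ) * Real.log n)) = ((n : ℝ) ^ a)⁻¹ := by
  have hn' : (0 : ℝ) < n := by exact_mod_cast hn
  rw [Real.exp_neg, Real.exp_nat_mul, Real.exp_log hn']

/-- the two numerical conditions for the traces -/
lemma trace_num (n k L : ℕ) (c X : ℝ) (hn : 1024 ≤ n) (hk : 1 ≤ k) (hc : 0 < c)
    (hL : 12 * k * Real.log n / c ≤ L) (hX : 4 * Real.log n ≤ X) :
    Real.exp (-(c * L / (4 * k))) ≤ ((n : ℝ) ^ 3)⁻¹ ∧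
    Real.exp (-X) + (1 + Fintype.card (Tup 4 n) *
      Real.exp (-(c * ((2 * L : ℕ) : ℝ) / (4 * k)))) / ((n / 2).descFactorial 4 : ℝ) ≤
        ((n : ℝ) ^ 3)⁻¹ := by
  have hn0 : (0 : ℝ) < n := by
    have : (1024 : ℝ) ≤ n := by exact_mod_cast hn
    linarith
  have hnr : (1024 : ℝ) ≤ n := by exact_mod_cast hn
  have hk0 : (0 : ℝ) < k := by exact_mod_cast hk
  have h1 : 3 * Real.log n ≤ c * L / (4 * k) := by
    rw [le_div_iff₀ (by positivity)]
    rw [div_le_iff₀ hc] at hL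
    linarith
  have e3 : Real.exp (-(3 * Real.log n)) = ((n : ℝ) ^ 3)⁻¹ := by
    have := exp_log_pow n 3 (by omega)
    exact_mod_cast this
  have e4 : Real.exp (-(4 * Real.log n)) = ((n : ℝ) ^ 4)⁻¹ := by
    have := exp_log_pow n 4 (by omega)
    exact_mod_cast this
  have e6 : Real.exp (-(6 * Real.log n)) = ((n : ℝ) ^ 6)⁻¹ := by
    have := exp_log_pow n 6 (by omega)
    exact_mod_cast this
  refine ⟨?_, ?_⟩
  · rw [← e3]
    apply Real.exp_le_exp.mpr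
    linarith
  · have hA : Real.exp (-X) ≤ ((n : ℝ) ^ 4)⁻¹ := by
      rw [← e4]
      apply Real.exp_le_exp.mpr
      linarith
    have hB : Real.exp (-(c * ((2 * L : ℕ) : ℝ) / (4 * k))) ≤ ((n : ℝ) ^ 6)⁻¹ := by
      rw [← e6]
      apply Real.exp_le_exp.mpr
      push_cast
      have : c * (2 * (L : ℝ)) / (4 * k) = 2 * (c * L / (4 * k)) := by ring
      rw [this]
      linarith
    have hC : (Fintype.card (Tup 4 n) : ℝ) ≤ (n : ℝ) ^ 4 := by
      exact_mod_cast card_Tup_le 4 n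
    have hD : 1 + Fintype.card (Tup 4 n) *
        Real.exp (-(c * ((2 * L : ℕ) : ℝ) / (4 * k))) ≤ 2 := by
      have : Fintype.card (Tup 4 n) * Real.exp (-(c * ((2 * L : ℕ) : ℝ) / (4 * k))) ≤
          (n : ℝ) ^ 4 * ((n : ℝ) ^ 6)⁻¹ := by gcongr
      have h2 : (n : ℝ) ^ 4 * ((n : ℝ) ^ 6)⁻¹ ≤ 1 := by
        rw [← div_eq_mul_inv, div_le_one (by positivity)]
        exact pow_le_pow_right₀ (by linarith) (by norm_num)
      linarith
    have hE : ((n : ℝ) / 4) ^ 4 ≤ ((n / 2).descFactorial 4 : ℝ) := by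
      have h3 : (n / 2 + 1 - 4) ^ 4 ≤ (n / 2).descFactorial 4 := Nat.pow_sub_le_descFactorial _ _
      have h4 : (n : ℝ) / 4 ≤ ((n / 2 + 1 - 4 : ℕ) : ℝ) := by
        rw [div_le_iff₀ (by norm_num)]
        have : n ≤ (n / 2 + 1 - 4) * 4 := by omega
        exact_mod_cast this
      calc ((n : ℝ) / 4) ^ 4 ≤ ((n / 2 + 1 - 4 : ℕ) : ℝ) ^ 4 := by gcongr
        _ ≤ _ := by exact_mod_cast h3
    have hF : (1 + Fintype.card (Tup 4 n) *
        Real.exp (-(c * ((2 * L : ℕ) : ℝ) / (4 * k)))) / ((n / 2).descFactorial 4 : ℝ) ≤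
        2 / ((n : ℝ) / 4) ^ 4 := by
      apply div_le_div₀ (by norm_num) hD (by positivity) hE
    have hG : ((n : ℝ) ^ 4)⁻¹ + 2 / ((n : ℝ) / 4) ^ 4 ≤ ((n : ℝ) ^ 3)⁻¹ := by
      have e5 : ((n : ℝ) ^ 4)⁻¹ + 2 / ((n : ℝ) / 4) ^ 4 = 513 / (n : ℝ) ^ 4 := by
        field_simp
        norm_num
      have e7 : ((n : ℝ) ^ 3)⁻¹ = n / (n : ℝ) ^ 4 := by
        field_simp
      rw [e5, e7]
      gcongr
      linarith
    linarith

/-- the numerical condition for the tuples -/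
lemma reach_num (n k p L : ℕ) (c : ℝ) (hn : 1024 ≤ n) (hk : 1 ≤ k) (hp : 1 ≤ p) (hc : 0 < c)
    (hL : 12 * k * p * Real.log n / c ≤ L) :
    4 * (Fintype.card (Tup p n) : ℝ) ^ 2 * Real.exp (-(c * L / (4 * k))) < 1 := by
  have hnr : (1024 : ℝ) ≤ n := by exact_mod_cast hn
  have hn0 : (0 : ℝ) < n := by linarith
  have hk0 : (0 : ℝ) < k := by exact_mod_cast hk
  have h1 : ((3 * p : ℕ) : ℝ) * Real.log n ≤ c * L / (4 * k) := by
    rw [le_div_iff₀ (by positivity)]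
    rw [div_le_iff₀ hc] at hL
    push_cast
    linarith
  have h2 : Real.exp (-(c * L / (4 * k))) ≤ ((n : ℝ) ^ (3 * p))⁻¹ := by
    rw [← exp_log_pow n (3 * p) (by omega)]
    apply Real.exp_le_exp.mpr
    linarith
  have h3 : (Fintype.card (Tup p n) : ℝ) ≤ (n : ℝ) ^ p := by
    exact_mod_cast card_Tup_le p n
  have h4 : 4 * (Fintype.card (Tup p n) : ℝ) ^ 2 * Real.exp (-(c * L / (4 * k))) ≤
      4 * ((n : ℝ) ^ p) ^ 2 * ((n : ℝ) ^ (3 * p))⁻¹ := by gcongr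
  refine h4.trans_lt ?_
  rw [← div_eq_mul_inv, div_lt_one (by positivity)]
  have h5 : (n : ℝ) ^ (3 * p) = (n : ℝ) ^ p * ((n : ℝ) ^ p) ^ 2 := by
    rw [← pow_mul, ← pow_add]
    congr 1
    ring
  rw [h5]
  have h6 : (4 : ℝ) < (n : ℝ) ^ p := by
    calc (4 : ℝ) < n := by linarith
      _ = (n : ℝ) ^ 1 := (pow_one _).symm
      _ ≤ (n : ℝ) ^ p := pow_le_pow_right₀ (by linarith) hp
  gcongr

end

end H91DI
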