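import Pool.Agent.H91DI.Gap3
import Pool.Agent.H91DI.Par
import Pool.Agent.H14R2.RC.R2d

/-!
Random elements and one more element of small support: the parameters.
-/

set_option linter.unusedSectionVars false

namespace H91DI
open RC14 Finset Filter Topology
open scoped InnerProductSpace

noncomputable section

lemma pow_num (n i : ℕ) (hn : 1 ≤ n) (hi : Real.log n ≤ 2 ^ i) :
    ((31 : ℝ) / 40) ^ (4 * 2 ^ i) * n ≤ 1 := by
  have hn0 : (0 : ℝ) < n := by exact_mod_cast hn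
  have h1 : ((31 : ℝ) / 40) ^ 4 ≤ Real.exp (-1) := by
    rw [Real.exp_neg, le_inv_comm₀ (by positivity) (Real.exp_pos _)]
    have := Real.exp_one_lt_d9
    refine this.le.trans ?_
    norm_num
  have h2 : ((31 : ℝ) / 40) ^ (4 * 2 ^ i) ≤ Real.exp (-(2 ^ i : ℝ)) := by
    rw [pow_mul]
    have h3 := pow_le_pow_left₀ (by positivity) h1 (2 ^ i)
    refine h3.trans (le_of_eq ?_)
    rw [← Real.exp_nat_mul]
    congr 1
    push_cast
    ring
  have h3 : Real.exp (-(2 ^ i : ℝ)) ≤ 1 / n := by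
    have : Real.exp (-Real.log n) = 1 / n := by
      rw [Real.exp_neg, Real.exp_log hn0, one_div]
    rw [← this]
    apply Real.exp_le_exp.mpr
    linarith
  calc ((31 : ℝ) / 40) ^ (4 * 2 ^ i) * n ≤ 1 / n * n := by
        gcongr
        exact h2.trans h3
    _ = 1 := by field_simp

lemma mix_num (n k p L : ℕ) (c : ℝ) (hn : 1000 ≤ n) (hp : p ≤ 3) (hk : 1 ≤ k) (hc : 0 < c)
    (hL : 32 * k * Real.log n / c ≤ L) :
    4 * (Fintype.card (Tup p n) : ℝ) ^ 2 * Real.exp (-(c * L / (4 * k))) ≤ (1 / 100) ^ 2 := by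
  have hn0 : (0 : ℝ) < n := by
    have : (1000 : ℝ) ≤ n := by exact_mod_cast hn
    linarith
  have hnr : (1000 : ℝ) ≤ n := by exact_mod_cast hn
  have hk0 : (0 : ℝ) < k := by exact_mod_cast hk
  have h1 : 8 * Real.log n ≤ c * L / (4 * k) := by
    rw [le_div_iff₀ (by positivity)]
    rw [div_le_iff₀ hc] at hL
    linarith
  have e8 : Real.exp (-(8 * Real.log n)) = ((n : ℝ) ^ 8)⁻¹ := by
    have := exp_log_pow n 8 (by omega)
    exact_mod_cast this
  have h2 : Real.exp (-(c * L / (4 * k))) ≤ ((n : ℝ) ^ 8)⁻¹ := by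
    rw [← e8]
    apply Real.exp_le_exp.mpr
    linarith
  have h3 : (Fintype.card (Tup p n) : ℝ) ≤ (n : ℝ) ^ 3 := by
    have h4 : (Fintype.card (Tup p n) : ℝ) ≤ (n : ℝ) ^ p := by exact_mod_cast card_Tup_le p n
    refine h4.trans ?_
    exact pow_le_pow_right₀ (by linarith) hp
  calc 4 * (Fintype.card (Tup p n) : ℝ) ^ 2 * Real.exp (-(c * L / (4 * k))) ≤
      4 * ((n : ℝ) ^ 3) ^ 2 * ((n : ℝ) ^ 8)⁻¹ := by gcongr
    _ = 4 / (n : ℝ) ^ 2 := by
        field_simp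
    _ ≤ (1 / 100) ^ 2 := by
        rw [div_le_iff₀ (by positivity)]
        nlinarith

/-- the length of the words for the 3-cycles -/
lemma len3_num (k i L : ℕ) (c t : ℝ) (hc : 0 < c) (ht : 1 ≤ t)
    (hi : (2 : ℝ) ^ i ≤ 2 * t) (hL : (L : ℝ) ≤ 32 * k * t / c + 1) :
    ((4 ^ (i + 3) * (1 + 2 * L) + 2 * L : ℕ) : ℝ) ≤ (1000 * (32 * k / c + 2)) * t ^ 3 := by
  have hA : (L : ℝ) ≤ (32 * k / c + 1) * t := by
    have : 32 * k * t / c = 32 * k / c * t := by ring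
    rw [this] at hL
    nlinarith
  set A : ℝ := 32 * k / c + 1 with hAd
  have hA1 : 1 ≤ A := by
    rw [hAd]
    have : 0 ≤ 32 * (k : ℝ) / c := by positivity
    linarith
  have h4 : (4 : ℝ) ^ (i + 3) ≤ 256 * t ^ 2 := by
    have e : (4 : ℝ) ^ (i + 3) = 64 * ((2 : ℝ) ^ i) ^ 2 := by
      rw [← pow_mul, pow_add, mul_comm i 2, pow_mul]
      norm_num
      ring
    rw [e]
    have : ((2 : ℝ) ^ i) ^ 2 ≤ (2 * t) ^ 2 := pow_le_pow_left₀ (by positivity) hi 2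
    nlinarith
  have e : (1000 * (32 * (k : ℝ) / c + 2)) = 1000 * (A + 1) := by rw [hAd]; ring
  rw [e]
  push_cast
  have hL0 : (0 : ℝ) ≤ L := Nat.cast_nonneg _
  have h5 : (1 + 2 * (L : ℝ)) ≤ (1 + 2 * A) * t := by nlinarith
  have ht0 : 0 ≤ t := by linarith
  calc (4 : ℝ) ^ (i + 3) * (1 + 2 * (L : ℝ)) + 2 * L ≤
      256 * t ^ 2 * ((1 + 2 * A) * t) + 2 * (A * t) := by gcongr
    _ ≤ 256 * t ^ 2 * ((1 + 2 * A) * t) + 2 * (A * t ^ 3) := by
        have : t ≤ t ^ 3 := by nlinarith [mul_nonneg ht0 ht0]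
        have : A * t ≤ A * t ^ 3 := by gcongr
        linarith
    _ = (256 * (1 + 2 * A) + 2 * A) * t ^ 3 := by ring
    _ ≤ 1000 * (A + 1) * t ^ 3 := by
        have : 0 ≤ t ^ 3 := by positivity
        nlinarith

theorem aug_ev (δ : ℝ) (hδ : 0 < δ) (hδ1 : δ ≤ 1) (k : ℕ) (hk : 1 ≤ k) (c : ℝ) (hc : 0 < c) :
    ∀ᶠ n : ℕ in atTop, ∀ x : Fin k → Alt n, Good1 n (TE852.Rr (1 - δ / 4) n) c x →
      ∀ z : Alt n, z ≠ 1 → 4 * #(z : Equiv.Perm (Fin n)).support ≤ n →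
        Expanding ((n : ℝ) ^ (-(2 * δ))) (cz z x) := by
  set D : ℝ := 1000 * (32 * k / c + 2) with hD
  have hk0 : (0 : ℝ) < k := by exact_mod_cast hk
  have hD1 : 1 ≤ D := by
    rw [hD]
    have : 0 ≤ 32 * (k : ℝ) / c := by positivity
    linarith
  filter_upwards [Pool.Agent.R236.Exc.params δ hδ hδ1, ev_log 0 (δ / 12) D (by positivity),
    ev_const (δ / 2) (14 * (k + 1)) (by positivity), ev_const (2 * δ) (2 * (k + 1) / c)
      (by positivity), ev_loggt 1, ev_const (1 - δ / 4) 3 (by linarith),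
    eventually_ge_atTop 100000] with n hpar hlogD hk2 hkc hlog hr3 hn
  intro x hx z hz hzS
  obtain ⟨N, m, X, hX1, hN, hNn, hn1, hNj, hr, -, -, -, -, -, hXe, hXN⟩ := hpar
  have hn0 : (0 : ℝ) < n := by exact_mod_cast (by omega : 0 < n)
  have hn1' : (1 : ℝ) ≤ n := by exact_mod_cast (by omega : 1 ≤ n)
  set r : ℕ := TE852.Rr (1 - δ / 4) n with hrdef
  have hr3' : 3 ≤ r := by
    rw [hrdef]
    exact Nat.le_floor (by exact_mod_cast hr3)
  set L : ℕ := ⌈32 * k * Real.log n / c⌉₊ with hL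
  have hlog0 : 0 ≤ Real.log n := by linarith
  have hLa : 32 * k * Real.log n / c ≤ L := Nat.le_ceil _
  have hLb : (L : ℝ) ≤ 32 * k * Real.log n / c + 1 :=
    (Nat.ceil_lt_add_one (by positivity)).le
  have hmix : ∀ p : ℕ, p ≤ 3 → Mixed x L p (1 / 100) := by
    intro p hp
    refine mixed_of_gap hk x c (FRV n p k (by omega) x c fun j h1 h2 => hx j h1 (by omega)) L _
      (by norm_num) (mix_num n k p L c (by omega) hp hk hc hLa)
  obtain ⟨i0, hi1, hi2⟩ := exists_nat_pow_near (x := Real.log n) (y := 2) hlog (by norm_num)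
  set i : ℕ := i0 + 1 with hidef
  have hi3 : (2 : ℝ) ^ i ≤ 2 * Real.log n := by
    rw [hidef, pow_succ]
    linarith
  obtain ⟨s, hs⟩ := exists_c3 (hmix 1 (by omega)) (hmix 2 (by omega)) (hmix 3 le_rfl) z hz hn hzS i
    (pow_num n i (by omega) hi2.le)
  set Λ : ℕ := 4 ^ (i + 3) * (1 + 2 * L) + 2 * L with hΛ
  have hall : ∀ t : Tup 3 n, IsW (cz z x) (c3 t) Λ := all_c3 (hmix 3 le_rfl) z s _ hs
  have hΛb := len3_num k i L c (Real.log n) hc hlog hi3 hLb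
  rw [← hΛ, ← hD] at hΛb
  have hΛ1 : (1 : ℝ) ≤ Λ := by
    have : 1 ≤ Λ := by
      rw [hΛ]
      have : 1 ≤ 4 ^ (i + 3) * (1 + 2 * L) := Nat.one_le_iff_ne_zero.2 (by positivity)
      omega
    exact_mod_cast this
  have hN0 : (0 : ℝ) < N := by exact_mod_cast (by omega : 0 < N)
  -- the constant
  have hc' : 0 < min c (1 / (7 * (N : ℝ) * (Λ : ℝ) ^ 2)) := by
    apply lt_min hc
    positivity
  have key := expanding_of_irr (k := k + 1) (by omega) (cz z x) _ hc'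
    (fun V _ _ _ ρ hirr hnt v => irr_gap r c x hx z N hN hn1 hNj hr Λ hall ρ hirr hnt v)
  refine key.mono ?_
  -- numerics
  have hΛ2 : (Λ : ℝ) ^ 2 ≤ (n : ℝ) ^ (δ / 2) := by
    rw [Real.rpow_zero, mul_one] at hlogD
    have h1 : (Λ : ℝ) ^ 2 ≤ (D * Real.log n) ^ 6 := by
      calc (Λ : ℝ) ^ 2 ≤ (D * Real.log n ^ 3) ^ 2 := pow_le_pow_left₀ (by positivity) hΛb 2
        _ = D ^ 2 * Real.log n ^ 6 := by ring
        _ ≤ D ^ 6 * Real.log n ^ 6 :=
            mul_le_mul_of_nonneg_right (pow_le_pow_right₀ hD1 (by norm_num)) (by positivity)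
        _ = _ := by ring
    refine h1.trans ?_
    calc (D * Real.log n) ^ 6 ≤ ((n : ℝ) ^ (δ / 12)) ^ 6 := by
          apply pow_le_pow_left₀ _ hlogD
          positivity
      _ = (n : ℝ) ^ (δ / 2) := by
          rw [← Real.rpow_natCast, ← Real.rpow_mul hn0.le]
          congr 1
          push_cast
          ring
  have hNb : (N : ℝ) ≤ (n : ℝ) ^ δ := by
    have h1 : (n : ℝ) ^ (1 - δ) ≤ X := by
      rw [← Real.exp_add] at hXe
      have := Real.exp_le_exp.mp hXe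
      linarith
    have h2 : (N : ℝ) ^ 2 * X ≤ n := by
      have h3 : X * (2 * 336 * 12096 * (N : ℝ) ^ 2) ≤ n := by
        have h4 := mul_le_mul_of_nonneg_right hXN
          (by positivity : (0 : ℝ) ≤ 2 * 336 * 12096 * (N : ℝ) ^ 2)
        refine h4.trans (le_of_eq ?_)
        field_simp
      nlinarith [sq_nonneg (N : ℝ), mul_nonneg (sq_nonneg (N : ℝ)) (by linarith : 0 ≤ X)]
    have h3 : (N : ℝ) ^ 2 * (n : ℝ) ^ (1 - δ) ≤ n :=
      (mul_le_mul_of_nonneg_left h1 (sq_nonneg _)).trans h2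
    have h4 : (n : ℝ) = (n : ℝ) ^ δ * (n : ℝ) ^ (1 - δ) := by
      rw [← Real.rpow_add hn0]
      norm_num
    have h5 : (0 : ℝ) < (n : ℝ) ^ (1 - δ) := Real.rpow_pos_of_pos hn0 _
    have h6 : (N : ℝ) ^ 2 ≤ (n : ℝ) ^ δ := by
      refine le_of_mul_le_mul_right ?_ h5
      rw [← h4]
      exact h3
    have h7 : (1 : ℝ) ≤ N := by exact_mod_cast (by omega : 1 ≤ N)
    nlinarith
  have hnd : (0 : ℝ) < (n : ℝ) ^ (2 * δ) := Real.rpow_pos_of_pos hn0 _
  rw [Real.rpow_neg hn0.le, inv_eq_one_div, div_le_div_iff₀ hnd (by positivity), one_mul]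
  push_cast
  rcases min_choice c (1 / (7 * (N : ℝ) * (Λ : ℝ) ^ 2)) with hmin | hmin
  · rw [hmin]
    rw [div_le_iff₀ hc] at hkc
    linarith
  · rw [hmin, div_mul_eq_mul_div, one_mul, le_div_iff₀ (by positivity)]
    have e : (n : ℝ) ^ (2 * δ) = (n : ℝ) ^ (δ / 2) * (n : ℝ) ^ δ * (n : ℝ) ^ (δ / 2) := by
      rw [← Real.rpow_add hn0, ← Real.rpow_add hn0]
      congr 1
      ring
    rw [e]
    calc 2 * ((k : ℝ) + 1) * (7 * N * (Λ : ℝ) ^ 2) = (14 * (k + 1)) * N * (Λ : ℝ) ^ 2 := by ring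
      _ ≤ (n : ℝ) ^ (δ / 2) * (n : ℝ) ^ δ * (n : ℝ) ^ (δ / 2) := by gcongr

end

end H91DI
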