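import Pool.Agent.H91DI.Reg

/-!
For most `g` the walk from `g` visits every large union of conjugacy classes.
-/

set_option linter.unusedSectionVars false

namespace H91DI
open RC14 Finset
open scoped InnerProductSpace

noncomputable section

variable {n : ℕ}

lemma TL_const {k : ℕ} (hk : 1 ≤ k) (y : Fin k → Alt n) (a : ℝ) :
    TL (RR n) y (vec fun _ => a) = vec fun _ => a := by
  have hk' : (k : ℂ) ≠ 0 := by
    have : k ≠ 0 := by omega
    exact_mod_cast this
  have h1 : ∀ g : Alt n, RR n g (vec fun _ => a) = vec fun _ => a := by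
    intro g
    ext h
    rw [RR_apply, vec_apply, vec_apply]
  rw [WORDS.TL_apply]
  simp only [h1]
  rw [Finset.sum_const, Finset.card_univ, Fintype.card_fin, ← two_smul ℂ (vec fun _ => a),
    ← Nat.cast_smul_eq_nsmul ℂ, smul_smul, smul_smul, mul_assoc]
  have e1 : 1 / (2 * (k : ℂ)) * ((k : ℂ) * 2) = 1 := by
    field_simp
  rw [e1, one_smul, ← two_smul ℂ (vec fun _ => a), smul_smul]
  norm_num

lemma vec_sub (f g : Alt n → ℝ) : vec (fun a => f a - g a) = vec f - vec g := by
  ext a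
  rw [PiLp.sub_apply, vec_apply, vec_apply, vec_apply]
  push_cast
  rfl

theorem bad_count {k : ℕ} (hk : 1 ≤ k) (y : Fin k → Alt n) (L : ℕ) (η : ℝ) (hη : 0 ≤ η)
    (Q : Finset (Alt n)) (hQ : ∀ g h, h * g * h⁻¹ ∈ Q ↔ g ∈ Q) (hQ' : ∀ g, g⁻¹ ∈ Q ↔ g ∈ Q)
    (hyp : ∀ (U : Type) [NormedAddCommGroup U] [InnerProductSpace ℂ U] [FiniteDimensional ℂ U]
      (σ : Alt n →* (U ≃ₗᵢ[ℂ] U)), Irr σ ⊤ → (∃ g v, σ g v ≠ v) →
        rtr (TL σ y ^ (2 * L)) ≤ η * Module.finrank ℂ U) :
    (Nat.card {g : Alt n // ∀ h, IsW y h L → g * h ∉ Q} : ℝ) * #Q ≤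
      η * (Fintype.card (Alt n) : ℝ) ^ 2 := by
  classical
  have hN : (0 : ℝ) < Fintype.card (Alt n) := by exact_mod_cast Fintype.card_pos
  set N : ℝ := (Fintype.card (Alt n) : ℝ) with hNdef
  set q : ℝ := #Q / N with hq
  have hq0 : 0 ≤ q := by positivity
  set f : Alt n → ℝ := fun g => (if g ∈ Q then 1 else 0) - q with hf
  have h1 : ∀ g h, f (h * g * h⁻¹) = f g := by
    intro g h
    simp only [hf, hQ]
  have h2 : ∀ g, f g⁻¹ = f g := by
    intro g
    simp only [hf, hQ']
  have h3 : ∑ g, f g = 0 := by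
    simp only [hf, Finset.sum_sub_distrib, Finset.sum_const, Finset.card_univ, nsmul_eq_mul]
    rw [Finset.sum_ite_mem, Finset.univ_inter, Finset.sum_const, nsmul_eq_mul, mul_one, ← hNdef,
      hq]
    field_simp
    ring
  have key := cls_decay y L η f h1 h2 h3 hyp
  -- the norm of `f`
  have hnorm : ‖vec f‖ ^ 2 ≤ #Q := by
    rw [EuclideanSpace.norm_sq_eq]
    have e1 : ∀ g, ‖(vec f) g‖ ^ 2 = (if g ∈ Q then 1 else 0) - 2 * q * (if g ∈ Q then 1 else 0)
        + q ^ 2 := by
      intro g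
      rw [vec_apply, Complex.norm_real, Real.norm_eq_abs, sq_abs]
      simp only [hf]
      split_ifs <;> ring
    simp only [e1, Finset.sum_add_distrib, Finset.sum_sub_distrib, ← Finset.mul_sum]
    rw [Finset.sum_ite_mem, Finset.univ_inter, Finset.sum_const, nsmul_eq_mul, mul_one,
      Finset.sum_const, Finset.card_univ, nsmul_eq_mul, ← hNdef]
    have e2 : N * q ^ 2 = q * #Q := by
      rw [hq]
      field_simp
    rw [e2]
    have : 0 ≤ q * #Q := by positivity
    nlinarith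
  -- the values at the bad elements
  have hval : ∀ g : Alt n, (∀ h, IsW y h L → g * h ∉ Q) →
      ((TL (RR n) y ^ L) (vec f)) g = ((-q : ℝ) : ℂ) := by
    intro g hg
    have e1 : vec f = vec (fun g => if g ∈ Q then 1 else 0) - vec fun _ => q := by
      rw [hf, vec_sub]
    have e2 : ((TL (RR n) y ^ L) (vec fun g => if g ∈ Q then 1 else 0)) g = 0 := by
      rw [TL_pow (RR n) hk, LinearMap.smul_apply, LinearMap.sum_apply, PiLp.smul_apply]
      rw [WithLp.ofLp_sum, Finset.sum_apply, Finset.sum_eq_zero, smul_zero]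
      intro w _
      rw [op_apply, RR_apply, vec_apply, if_neg (hg _ (isW_wd w))]
      simp
    have e3 : ∀ L : ℕ, (TL (RR n) y ^ L) (vec fun _ => q) = vec fun _ => q := by
      intro L
      induction L with
      | zero => simp
      | succ L ih => rw [pow_succ (TL (RR n) y) L, Module.End.mul_apply, TL_const hk, ih]
    rw [e1, map_sub, PiLp.sub_apply, e2, e3, vec_apply]
    push_cast
    ring
  have hlow : (Nat.card {g : Alt n // ∀ h, IsW y h L → g * h ∉ Q} : ℝ) * q ^ 2 ≤
      ‖(TL (RR n) y ^ L) (vec f)‖ ^ 2 := by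
    rw [EuclideanSpace.norm_sq_eq]
    have e1 : Nat.card {g : Alt n // ∀ h, IsW y h L → g * h ∉ Q} =
        #(Finset.univ.filter fun g : Alt n => ∀ h, IsW y h L → g * h ∉ Q) := by
      rw [Nat.card_eq_fintype_card, Fintype.card_subtype]
    rw [e1]
    have e2 : ∑ g ∈ Finset.univ.filter (fun g : Alt n => ∀ h, IsW y h L → g * h ∉ Q),
        ‖((TL (RR n) y ^ L) (vec f)) g‖ ^ 2 ≤ ∑ g, ‖((TL (RR n) y ^ L) (vec f)) g‖ ^ 2 :=
      Finset.sum_le_sum_of_subset_of_nonneg (Finset.filter_subset _ _)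
        fun _ _ _ => by positivity
    refine le_trans (le_of_eq ?_) e2
    rw [Finset.sum_congr rfl (g := fun _ => q ^ 2), Finset.sum_const, nsmul_eq_mul]
    intro g hg
    rw [hval g (Finset.mem_filter.1 hg).2, Complex.norm_real, Real.norm_eq_abs, sq_abs]
    ring
  set B : ℝ := (Nat.card {g : Alt n // ∀ h, IsW y h L → g * h ∉ Q} : ℝ) with hB
  have hB0 : 0 ≤ B := Nat.cast_nonneg _
  have h4 : B * q ^ 2 ≤ η * #Q := hlow.trans (key.trans (by gcongr))
  rcases Nat.eq_zero_or_pos (#Q) with h0 | h0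
  · rw [h0]
    simp only [Nat.cast_zero, mul_zero]
    positivity
  · have h0' : (0 : ℝ) < #Q := by exact_mod_cast h0
    have h5 : B * #Q ^ 2 ≤ η * N ^ 2 * #Q := by
      have e1 : B * q ^ 2 = B * #Q ^ 2 / N ^ 2 := by
        rw [hq]
        field_simp
      rw [e1, div_le_iff₀ (by positivity)] at h4
      linarith
    have h6 : (B * #Q) * #Q ≤ (η * N ^ 2) * #Q := by
      calc _ = B * #Q ^ 2 := by ring
        _ ≤ _ := h5
    exact le_of_mul_le_mul_right h6 h0'

end

end H91DI
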