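import Pool.Agent.H91DI.Invo

/-!
Products of an even number of disjoint swaps as quotients of two `p`-cycles.
-/

namespace H91DI
open Equiv Equiv.Perm

set_option linter.unusedSectionVars false

section
variable {α : Type*} [Fintype α] [DecidableEq α]

/-- first arrangement -/
def zl : List (α × α) → List α → List α
  | q1 :: q2 :: l, r => q1.1 :: q2.1 :: q1.2 :: q2.2 :: zl l r
  | _, r => r

/-- second arrangement -/
def zm : List (α × α) → List α → List α
  | q1 :: q2 :: l, r => q1.1 :: q2.2 :: q1.2 :: q2.1 :: zm l r
  | _, r => r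

lemma zl_perm (m : ℕ) : ∀ (l : List (α × α)), l.length = 2 * m → ∀ r : List α,
    (zl l r).Perm (ents l ++ r) := by
  induction m with
  | zero =>
    intro l hl r
    have : l = [] := by
      rw [← List.length_eq_zero_iff]
      omega
    subst this
    simp [zl, ents]
  | succ m ih =>
    intro l hl r
    match l, hl with
    | q1 :: q2 :: l, hl =>
      have hl' : l.length = 2 * m := by
        simp only [List.length_cons] at hl
        omega
      have h := ih l hl' r
      simp only [zl, ents, List.cons_append]
      refine List.Perm.cons _ ?_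
      refine (List.Perm.cons _ (List.Perm.cons _ (List.Perm.cons _ h))).trans ?_
      exact List.Perm.swap _ _ _

lemma zm_perm (m : ℕ) : ∀ (l : List (α × α)), l.length = 2 * m → ∀ r : List α,
    (zm l r).Perm (ents l ++ r) := by
  induction m with
  | zero =>
    intro l hl r
    have : l = [] := by
      rw [← List.length_eq_zero_iff]
      omega
    subst this
    simp [zm, ents]
  | succ m ih =>
    intro l hl r
    match l, hl with
    | q1 :: q2 :: l, hl =>
      have hl' : l.length = 2 * m := by
        simp only [List.length_cons] at hl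
        omega
      have h := ih l hl' r
      simp only [zm, ents, List.cons_append]
      refine List.Perm.cons _ ?_
      refine (List.Perm.cons _ (List.Perm.cons _ (List.Perm.cons _ h))).trans ?_
      refine (List.Perm.swap _ _ _).trans ?_
      refine List.Perm.cons _ ?_
      exact List.Perm.swap _ _ _

lemma z_head (m : ℕ) (l : List (α × α)) (hl : l.length = 2 * m) (r : List α) (hr : r ≠ []) :
    ∃ e t t', zl l r = e :: t ∧ zm l r = e :: t' := by
  match m, l, hl with
  | 0, l, hl =>
    have : l = [] := by
      rw [← List.length_eq_zero_iff]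
      omega
    subst this
    obtain ⟨e, t, rfl⟩ := List.exists_cons_of_ne_nil hr
    exact ⟨e, t, t, rfl, rfl⟩
  | m + 1, q1 :: q2 :: l, hl => exact ⟨_, _, _, rfl, rfl⟩

/-- the identity for one block -/
lemma block (a b c d e : α) (h : [a, b, c, d, e].Nodup) :
    swap a c * (swap c b * (swap b d * swap d e)) * (swap a b * swap c d) =
      swap a d * (swap d b * (swap b c * swap c e)) := by
  simp only [List.nodup_cons, List.mem_cons, List.not_mem_nil, not_or, or_false,
    List.nodup_nil, and_true] at h
  obtain ⟨⟨h1, h2, h3, h4⟩, ⟨h5, h6, h7⟩, ⟨h8, h9⟩, h10, -⟩ := h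
  have g1 := Ne.symm h1
  have g2 := Ne.symm h2
  have g3 := Ne.symm h3
  have g4 := Ne.symm h4
  have g5 := Ne.symm h5
  have g6 := Ne.symm h6
  have g7 := Ne.symm h7
  have g8 := Ne.symm h8
  have g9 := Ne.symm h9
  have g10 := Ne.symm h10
  ext x
  simp only [mul_apply]
  by_cases xa : x = a
  · subst xa
    rw [swap_apply_of_ne_of_ne h2 h3, swap_apply_left, swap_apply_of_ne_of_ne h6 h7,
      swap_apply_left, swap_apply_of_ne_of_ne g8 g6, swap_apply_of_ne_of_ne g3 g8,
      swap_apply_of_ne_of_ne h2 h4, swap_apply_of_ne_of_ne h1 h2, swap_apply_of_ne_of_ne h3 h1,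
      swap_apply_left]
  by_cases xb : x = b
  · subst xb
    rw [swap_apply_of_ne_of_ne h5 h6, swap_apply_right, swap_apply_of_ne_of_ne h3 h4,
      swap_apply_of_ne_of_ne h1 h3, swap_apply_of_ne_of_ne h2 h1, swap_apply_left,
      swap_apply_of_ne_of_ne h5 h7, swap_apply_left, swap_apply_of_ne_of_ne h8 g5,
      swap_apply_of_ne_of_ne g2 h8]
  by_cases xc : x = c
  · subst xc
    rw [swap_apply_left, swap_apply_of_ne_of_ne g3 g6, swap_apply_left,
      swap_apply_of_ne_of_ne g7 g10, swap_apply_of_ne_of_ne g9 g7, swap_apply_of_ne_of_ne g4 g9,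
      swap_apply_left, swap_apply_of_ne_of_ne g7 g9, swap_apply_of_ne_of_ne g10 g7,
      swap_apply_of_ne_of_ne g4 g10]
  by_cases xd : x = d
  · subst xd
    rw [swap_apply_right, swap_apply_of_ne_of_ne g2 g5, swap_apply_of_ne_of_ne h8 h9,
      swap_apply_of_ne_of_ne g5 h8, swap_apply_left, swap_apply_of_ne_of_ne g1 h5,
      swap_apply_of_ne_of_ne g8 h10, swap_apply_of_ne_of_ne g6 g8, swap_apply_left,
      swap_apply_of_ne_of_ne g1 h6]
  by_cases xe : x = e
  · subst xe
    rw [swap_apply_of_ne_of_ne g9 g10, swap_apply_of_ne_of_ne g4 g7, swap_apply_right,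
      swap_apply_right, swap_apply_right, swap_apply_right, swap_apply_right, swap_apply_right,
      swap_apply_right, swap_apply_right]
  · rw [swap_apply_of_ne_of_ne xc xd, swap_apply_of_ne_of_ne xa xb, swap_apply_of_ne_of_ne xd xe,
      swap_apply_of_ne_of_ne xb xd, swap_apply_of_ne_of_ne xc xb, swap_apply_of_ne_of_ne xa xc,
      swap_apply_of_ne_of_ne xc xe, swap_apply_of_ne_of_ne xb xc, swap_apply_of_ne_of_ne xd xb,
      swap_apply_of_ne_of_ne xa xd]

end

end H91DI
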