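import Pool.Agent.H91DI.Blk

/-!
Products of an even number of disjoint swaps as quotients of two `p`-cycles, continued.
-/

namespace H91DI
open Equiv Equiv.Perm

set_option linter.unusedSectionVars false

section
variable {α : Type*} [Fintype α] [DecidableEq α]

/-- disjoint supports commute -/
lemma comm_formPerm (q1 q2 : α × α) (t : List α) (h : ∀ x ∈ [q1.1, q1.2, q2.1, q2.2], x ∉ t) :
    (swap q1.1 q1.2 * swap q2.1 q2.2) * t.formPerm = t.formPerm * (swap q1.1 q1.2 * swap q2.1 q2.2) := by
  have hd : Disjoint (swap q1.1 q1.2 * swap q2.1 q2.2) t.formPerm := by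
    intro x
    by_cases hx : x ∈ t
    · left
      have h1 : x ≠ q1.1 := fun e => h q1.1 (by simp) (e ▸ hx)
      have h2 : x ≠ q1.2 := fun e => h q1.2 (by simp) (e ▸ hx)
      have h3 : x ≠ q2.1 := fun e => h q2.1 (by simp) (e ▸ hx)
      have h4 : x ≠ q2.2 := fun e => h q2.2 (by simp) (e ▸ hx)
      rw [mul_apply, swap_apply_of_ne_of_ne h3 h4, swap_apply_of_ne_of_ne h1 h2]
    · right
      exact List.formPerm_apply_of_notMem hx
  exact hd.commute.eq

lemma form_mul (m : ℕ) : ∀ (l : List (α × α)), l.length = 2 * m → ∀ r : List α, r ≠ [] →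
    (ents l ++ r).Nodup → (zl l r).formPerm * sws l = (zm l r).formPerm := by
  induction m with
  | zero =>
    intro l hl r _ _
    have : l = [] := by
      rw [← List.length_eq_zero_iff]
      omega
    subst this
    simp [zl, zm, sws]
  | succ m ih =>
    intro l hl r hr hnd
    match l, hl with
    | q1 :: q2 :: l, hl =>
      have hl' : l.length = 2 * m := by
        simp only [List.length_cons] at hl
        omega
      obtain ⟨e, t, t', h1, h2⟩ := z_head m l hl' r hr
      have hnd' : (ents l ++ r).Nodup := by
        simp only [ents, List.cons_append, List.nodup_cons] at hnd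
        exact hnd.2.2.2.2
      have h3 := ih l hl' r hr hnd'
      have hp : (e :: t).Perm (ents l ++ r) := by
        rw [← h1]
        exact zl_perm m l hl' r
      have he : e ∈ ents l ++ r := hp.subset (by simp)
      have h5 : [q1.1, q1.2, q2.1, q2.2, e].Nodup := by
        simp only [ents, List.cons_append, List.nodup_cons, List.mem_cons, not_or] at hnd
        obtain ⟨⟨a1, a2, a3, a4⟩, ⟨b1, b2, b3⟩, ⟨c1, c2⟩, d1, -⟩ := hnd
        simp only [List.nodup_cons, List.mem_cons, List.not_mem_nil, not_or, or_false,
          List.nodup_nil, and_true, not_false_eq_true]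
        refine ⟨⟨a1, a2, a3, fun h => a4 (h ▸ he)⟩, ⟨b1, b2, fun h => b3 (h ▸ he)⟩,
          ⟨c1, fun h => c2 (h ▸ he)⟩, fun h => d1 (h ▸ he)⟩
      have hblock := block q1.1 q1.2 q2.1 q2.2 e h5
      have hc := comm_formPerm q1 q2 (e :: t) (by
        simp only [ents, List.cons_append, List.nodup_cons, List.mem_cons, not_or] at hnd
        obtain ⟨⟨a1, a2, a3, a4⟩, ⟨b1, b2, b3⟩, ⟨c1, c2⟩, d1, -⟩ := hnd
        intro x hx hxt
        have hx' := hp.subset hxt
        simp only [List.mem_cons, List.not_mem_nil, or_false] at hx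
        rcases hx with rfl | rfl | rfl | rfl
        · exact a4 hx'
        · exact b3 hx'
        · exact c2 hx'
        · exact d1 hx')
      simp only [zl, zm, sws]
      rw [h1, h2, List.formPerm_cons_cons, List.formPerm_cons_cons, List.formPerm_cons_cons,
        List.formPerm_cons_cons, List.formPerm_cons_cons, List.formPerm_cons_cons,
        List.formPerm_cons_cons, List.formPerm_cons_cons, ← h2, ← h3, h1]
      calc swap q1.1 q2.1 * (swap q2.1 q1.2 * (swap q1.2 q2.2 * (swap q2.2 e *
            (e :: t).formPerm))) * (swap q1.1 q1.2 * (swap q2.1 q2.2 * sws l))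
          = swap q1.1 q2.1 * (swap q2.1 q1.2 * (swap q1.2 q2.2 * swap q2.2 e)) *
            ((e :: t).formPerm * (swap q1.1 q1.2 * swap q2.1 q2.2)) * sws l := by
              simp only [mul_assoc]
        _ = (swap q1.1 q2.1 * (swap q2.1 q1.2 * (swap q1.2 q2.2 * swap q2.2 e)) *
            (swap q1.1 q1.2 * swap q2.1 q2.2)) * ((e :: t).formPerm * sws l) := by
              rw [← hc]
              simp only [mul_assoc]
        _ = _ := by
              rw [hblock]
              simp only [mul_assoc]

/-- `z` is a `p`-cycle -/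
def IsPC (p : ℕ) (z : Perm α) : Prop := z.IsCycle ∧ z.support.card = p

lemma isPC_formPerm (l : List α) (hl : l.Nodup) (h2 : 2 ≤ l.length) : IsPC l.length l.formPerm := by
  refine ⟨List.isCycle_formPerm hl h2, ?_⟩
  rw [List.support_formPerm_of_nodup l hl, List.toFinset_card_of_nodup hl]
  intro x hx
  rw [hx] at h2
  simp at h2

/-- a product of an even number of disjoint swaps is a product of two `p`-cycles -/
theorem two_cycles (p m : ℕ) (l : List (α × α)) (hl : l.length = 2 * m) (hnd : (ents l).Nodup)
    (hp : 4 * m < p) (h2 : 2 ≤ p) (hpa : p ≤ Fintype.card α) :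
    ∃ z z' : Perm α, IsPC p z ∧ IsPC p z' ∧ sws l = z * z' := by
  classical
  have hlen : (ents l).length = 4 * m := by
    rw [ents_length, hl]
    ring
  -- the other points
  obtain ⟨R, hR1, hR2⟩ : ∃ R : Finset α, R ⊆ (ents l).toFinsetᶜ ∧ R.card = p - 4 * m := by
    apply Finset.exists_subset_card_eq
    rw [Finset.card_compl, List.toFinset_card_of_nodup hnd, hlen]
    omega
  have hnd' : (ents l ++ R.toList).Nodup := by
    rw [List.nodup_append]
    refine ⟨hnd, R.nodup_toList, ?_⟩
    intro a ha b hb hab
    subst hab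
    have h1 := hR1 (Finset.mem_toList.1 hb)
    rw [Finset.mem_compl, List.mem_toFinset] at h1
    exact h1 ha
  have hRlen : R.toList.length = p - 4 * m := by rw [Finset.length_toList, hR2]
  have hRne : R.toList ≠ [] := by
    intro h
    rw [h] at hRlen
    simp only [List.length_nil] at hRlen
    omega
  have key := form_mul m l hl R.toList hRne hnd'
  have p1 := zl_perm m l hl R.toList
  have p2 := zm_perm m l hl R.toList
  have l1 : (zl l R.toList).length = p := by
    rw [p1.length_eq, List.length_append, hlen, hRlen]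
    omega
  have l2 : (zm l R.toList).length = p := by
    rw [p2.length_eq, List.length_append, hlen, hRlen]
    omega
  have c1 := isPC_formPerm (zl l R.toList) (p1.nodup_iff.2 hnd') (by omega)
  have c2 := isPC_formPerm (zm l R.toList) (p2.nodup_iff.2 hnd') (by omega)
  rw [l1] at c1
  rw [l2] at c2
  refine ⟨(zl l R.toList).formPerm⁻¹, (zm l R.toList).formPerm, ⟨c1.1.inv, ?_⟩, c2, ?_⟩
  · rw [support_inv]
    exact c1.2
  · rw [← key, inv_mul_cancel_left]

end

end H91DI
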