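import Pool.Agent.H91DI.Blk2

/-!
Even permutations as products of few `p`-cycles.
-/

namespace H91DI
open Equiv Equiv.Perm

set_option linter.unusedSectionVars false

section
variable {α : Type*} [Fintype α] [DecidableEq α]

lemma sws_append (l l' : List (α × α)) : sws (l ++ l') = sws l * sws l' := by
  induction l with
  | nil => simp [sws]
  | cons q l ih => simp [sws, ih, mul_assoc]

lemma ents_append (l l' : List (α × α)) : ents (l ++ l') = ents l ++ ents l' := by
  induction l with
  | nil => simp [ents]
  | cons q l ih => simp [ents, ih]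

lemma sign_sws (l : List (α × α)) (h : (ents l).Nodup) : sign (sws l) = (-1) ^ l.length := by
  induction l with
  | nil => simp [sws]
  | cons q l ih =>
    simp only [ents, List.nodup_cons, List.mem_cons, not_or] at h
    rw [sws, Perm.sign_mul, ih h.2.2, sign_swap h.1.1, List.length_cons, pow_succ']

/-- an even permutation as a product of four even products of disjoint swaps -/
theorem decomp (g : Perm α) (hg : sign g = 1) (h6 : 6 ≤ Fintype.card α) :
    ∃ L : List (List (α × α)), L.length = 4 ∧
      (∀ l ∈ L, ∃ m, l.length = 2 * m ∧ (ents l).Nodup) ∧ g = (L.map sws).prod := by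
  classical
  obtain ⟨s, hs1, hs2, -⟩ := invo g
  have ht : (s * g) * (s * g) = 1 := by
    calc (s * g) * (s * g) = (s * g * s) * g := by simp only [mul_assoc]
      _ = 1 := by rw [hs2, inv_mul_cancel]
  obtain ⟨ls, hls1, hls2, -⟩ := invo_sws _ s hs1 le_rfl
  obtain ⟨lt, hlt1, hlt2, -⟩ := invo_sws _ (s * g) ht le_rfl
  have hgst : g = sws ls * sws lt := by
    rw [← hls1, ← hlt1, ← mul_assoc, hs1, one_mul]
  have hsign : (-1 : ℤˣ) ^ ls.length * (-1) ^ lt.length = 1 := by
    rw [← sign_sws ls hls2, ← sign_sws lt hlt2, ← Perm.sign_mul, ← hgst, hg]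
  rcases Nat.even_or_odd ls.length with he | ho
  · have he' : Even lt.length := by
      by_contra h
      rw [Nat.not_even_iff_odd] at h
      rw [he.neg_one_pow, h.neg_one_pow] at hsign
      exact absurd hsign (by decide)
    obtain ⟨a, ha⟩ := he
    obtain ⟨b, hb⟩ := he'
    refine ⟨[ls, lt, [], []], rfl, ?_, ?_⟩
    · intro l hl
      simp only [List.mem_cons, List.not_mem_nil, or_false] at hl
      rcases hl with rfl | rfl | rfl | rfl
      · exact ⟨a, by omega, hls2⟩
      · exact ⟨b, by omega, hlt2⟩
      · exact ⟨0, by simp, by simp [ents]⟩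
      · exact ⟨0, by simp, by simp [ents]⟩
    · simp [sws, hgst]
  · have ho' : Odd lt.length := by
      by_contra h
      rw [Nat.not_odd_iff_even] at h
      rw [ho.neg_one_pow, h.neg_one_pow] at hsign
      exact absurd hsign (by decide)
    have hne : ls ≠ [] := by
      rintro rfl
      simp at ho
    have hne' : lt ≠ [] := by
      rintro rfl
      simp at ho'
    obtain ⟨ls', q1, rfl⟩ : ∃ ls' q1, ls = ls' ++ [q1] :=
      ⟨ls.dropLast, ls.getLast hne, (List.dropLast_append_getLast hne).symm⟩
    obtain ⟨q2, lt', rfl⟩ := List.exists_cons_of_ne_nil hne'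
    -- a third pair
    obtain ⟨R, hR1, hR2⟩ : ∃ R : Finset α, R ⊆ ({q1.1, q1.2, q2.1, q2.2} : Finset α)ᶜ ∧
        R.card = 2 := by
      apply Finset.exists_subset_card_eq
      rw [Finset.card_compl]
      have : ({q1.1, q1.2, q2.1, q2.2} : Finset α).card ≤ 4 := Finset.card_le_four
      omega
    obtain ⟨u, v, huv, rfl⟩ := Finset.card_eq_two.1 hR2
    have hu := hR1 (Finset.mem_insert_self u {v})
    have hv := hR1 (Finset.mem_insert_of_mem (Finset.mem_singleton_self v))
    simp only [Finset.mem_compl, Finset.mem_insert, Finset.mem_singleton, not_or] at hu hv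
    rw [ents_append] at hls2
    simp only [ents, List.nodup_append, List.nodup_cons, List.mem_cons, not_or] at hls2
    have hlt2' := hlt2
    simp only [ents, List.nodup_cons, List.mem_cons, not_or] at hlt2'
    rw [List.length_append, List.length_singleton] at ho
    rw [List.length_cons] at ho'
    obtain ⟨a, ha⟩ := ho
    obtain ⟨b, hb⟩ := ho'
    refine ⟨[ls', [q1, (u, v)], [(u, v), q2], lt'], rfl, ?_, ?_⟩
    · intro l hl
      simp only [List.mem_cons, List.not_mem_nil, or_false] at hl
      rcases hl with rfl | rfl | rfl | rfl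
      · exact ⟨a, by omega, hls2.1⟩
      · refine ⟨1, by simp, ?_⟩
        simp only [ents, List.nodup_cons, List.mem_cons, List.not_mem_nil, not_or, or_false,
          List.nodup_nil, and_true, not_false_eq_true]
        exact ⟨⟨hls2.2.1.1.1, Ne.symm hu.1, Ne.symm hv.1⟩,
          ⟨Ne.symm hu.2.1, Ne.symm hv.2.1⟩, huv⟩
      · refine ⟨1, by simp, ?_⟩
        simp only [ents, List.nodup_cons, List.mem_cons, List.not_mem_nil, not_or, or_false,
          List.nodup_nil, and_true, not_false_eq_true]
        exact ⟨⟨huv, hu.2.2.1, hu.2.2.2⟩, ⟨hv.2.2.1, hv.2.2.2⟩, hlt2'.1.1⟩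
      · exact ⟨b, by omega, hlt2'.2.2⟩
    · simp only [List.map_cons, List.map_nil, List.prod_cons, List.prod_nil, sws, mul_one]
      rw [hgst, sws_append]
      simp only [sws, mul_one, mul_assoc, swap_mul_self_mul]

/-- a length function which is at most `D` on the `p`-cycles, on products of disjoint swaps -/
theorem len_sws (P : Perm α → ℕ → Prop) (hmul : ∀ g h a b, P g a → P h b → P (g * h) (a + b))
    (hmono : ∀ g a b, P g a → a ≤ b → P g b) (p D j : ℕ) (hj : 1 ≤ j) (hjp : 4 * j < p)
    (hp : p ≤ Fintype.card α) (hP : ∀ z : Perm α, IsPC p z → P z D) (m : ℕ) :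
    ∀ l : List (α × α), l.length = 2 * m → (ents l).Nodup →
      P (sws l) (2 * D * (m / j + 1)) := by
  induction m using Nat.strong_induction_on with
  | _ m ih =>
    intro l hl hnd
    by_cases hm : m ≤ j
    · obtain ⟨z, z', h1, h2, h3⟩ := two_cycles p m l hl hnd (by omega) (by omega) hp
      rw [h3]
      refine hmono _ _ _ (hmul _ _ _ _ (hP z h1) (hP z' h2)) ?_
      have : D + D = 2 * D * 1 := by ring
      rw [this]
      exact Nat.mul_le_mul_left _ (Nat.le_add_left 1 _)
    · push Not at hm
      have hsplit : l = l.take (2 * j) ++ l.drop (2 * j) := (List.take_append_drop _ _).symm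
      have hnd1 : (ents (l.take (2 * j))).Nodup ∧ (ents (l.drop (2 * j))).Nodup := by
        rw [hsplit, ents_append] at hnd
        exact ⟨hnd.of_append_left, hnd.of_append_right⟩
      have h1 := ih j hm (l.take (2 * j)) (by rw [List.length_take]; omega) hnd1.1
      have h2 := ih (m - j) (by omega) (l.drop (2 * j)) (by rw [List.length_drop]; omega) hnd1.2
      -- the first piece costs only `2 D`
      obtain ⟨z, z', c1, c2, c3⟩ := two_cycles p j (l.take (2 * j))
        (by rw [List.length_take]; omega) hnd1.1 hjp (by omega) hp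
      have h3 : P (sws (l.take (2 * j))) (D + D) := by
        rw [c3]
        exact hmul _ _ _ _ (hP z c1) (hP z' c2)
      have h4 := hmul _ _ _ _ h3 h2
      rw [← sws_append, ← hsplit] at h4
      refine hmono _ _ _ h4 ?_
      have h5 : m / j = (m - j) / j + 1 := by
        have : m = (m - j) + j := by omega
        conv_lhs => rw [this]
        rw [Nat.add_div_right _ (by omega)]
      rw [h5]
      apply le_of_eq
      ring

/-- every even permutation is a product of few `p`-cycles -/
theorem len_even (P : Perm α → ℕ → Prop) (hmul : ∀ g h a b, P g a → P h b → P (g * h) (a + b))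
    (hmono : ∀ g a b, P g a → a ≤ b → P g b) (h0 : P 1 0) (p D j : ℕ) (hj : 1 ≤ j)
    (hjp : 4 * j < p)
    (hp : p ≤ Fintype.card α) (h6 : 6 ≤ Fintype.card α)
    (hP : ∀ z : Perm α, IsPC p z → P z D) (g : Perm α) (hg : sign g = 1) :
    P g (8 * D * (Fintype.card α / (4 * j) + 1)) := by
  obtain ⟨L, hL1, hL2, hL3⟩ := decomp g hg h6
  have key : ∀ l ∈ L, P (sws l) (2 * D * (Fintype.card α / (4 * j) + 1)) := by
    intro l hl
    obtain ⟨m, hm, hnd⟩ := hL2 l hl
    have h1 := len_sws P hmul hmono p D j hj hjp hp hP m l hm hnd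
    refine hmono _ _ _ h1 (Nat.mul_le_mul_left _ ?_)
    have h2 : 4 * m ≤ Fintype.card α := by
      have h3 : (ents l).length ≤ Fintype.card α := hnd.length_le_card
      rw [ents_length, hm] at h3
      omega
    have h4 : m / j ≤ Fintype.card α / (4 * j) := by
      rw [← Nat.div_div_eq_div_mul]
      exact Nat.div_le_div_right (by omega)
    omega
  have hprod : ∀ L : List (List (α × α)), (∀ l ∈ L, P (sws l)
      (2 * D * (Fintype.card α / (4 * j) + 1))) →
      P (L.map sws).prod (L.length * (2 * D * (Fintype.card α / (4 * j) + 1))) := by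
    intro L
    induction L with
    | nil =>
      intro _
      simpa using h0
    | cons l L ih =>
      intro h
      simp only [List.map_cons, List.prod_cons, List.length_cons]
      refine hmono _ _ _ (hmul _ _ _ _ (h l (by simp)) (ih fun l' hl' => h l' (by simp [hl']))) ?_
      apply le_of_eq
      ring
  have := hprod L key
  rw [← hL3, hL1] at this
  refine hmono _ _ _ this ?_
  apply le_of_eq
  ring

end

end H91DI
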