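import Pool.Agent.H91DI.Reach
import Pool.Agent.H14R2.RC.S.HSL

/-!
Class functions: the trace inequality.
-/

set_option linter.unusedSectionVars false

namespace H91DI
open RC14 Finset
open scoped InnerProductSpace

noncomputable section

section
variable {G : Type*} [Group G] [Fintype G]

/-- the operator `∑ f(g) ρ(g)` -/
def Cf {V : Type*} [NormedAddCommGroup V] [InnerProductSpace ℂ V]
    (ρ : G →* (V ≃ₗᵢ[ℂ] V)) (f : G → ℝ) : Module.End ℂ V := ∑ g, (f g : ℂ) • op ρ g

section basic
variable {V : Type*} [NormedAddCommGroup V] [InnerProductSpace ℂ V] [FiniteDimensional ℂ V]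

lemma Cf_apply (ρ : G →* (V ≃ₗᵢ[ℂ] V)) (f : G → ℝ) (v : V) :
    Cf ρ f v = ∑ g, (f g : ℂ) • ρ g v := by
  simp [Cf, LinearMap.sum_apply, LinearMap.smul_apply]

lemma Cf_comm (ρ : G →* (V ≃ₗᵢ[ℂ] V)) (f : G → ℝ) (hf : ∀ g h, f (h * g * h⁻¹) = f g) (h : G) :
    op ρ h * Cf ρ f = Cf ρ f * op ρ h := by
  unfold Cf
  rw [Finset.mul_sum, Finset.sum_mul]
  rw [← Equiv.sum_comp (MulAut.conj h).toEquiv fun g => (f g : ℂ) • op ρ g * op ρ h]
  refine Finset.sum_congr rfl fun g _ => ?_
  have e : (MulAut.conj h).toEquiv g = h * g * h⁻¹ := rfl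
  rw [e, hf, mul_smul_comm, smul_mul_assoc, ← op_mul, ← op_mul]
  congr 2
  group

lemma Cf_symm (ρ : G →* (V ≃ₗᵢ[ℂ] V)) (f : G → ℝ) (hf : ∀ g, f g⁻¹ = f g) :
    (Cf ρ f).IsSymmetric := by
  intro v w
  rw [Cf_apply, Cf_apply, sum_inner, inner_sum,
    ← Equiv.sum_comp (Equiv.inv G) fun g => ⟪(f g : ℂ) • ρ g v, w⟫_ℂ]
  refine Finset.sum_congr rfl fun g _ => ?_
  rw [inner_smul_left, inner_smul_right, Equiv.inv_apply, hf, Complex.conj_ofReal]
  congr 1
  rw [FR.inner_rho ρ g⁻¹, inv_inv]

/-- `B` is the restriction of `A` to `W` -/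
def Rel (W : Submodule ℂ V) (A : Module.End ℂ V) (B : Module.End ℂ W) : Prop :=
  ∀ w : W, ((B w : W) : V) = A w

lemma Rel.mul {W : Submodule ℂ V} {A A' : Module.End ℂ V} {B B' : Module.End ℂ W}
    (h : Rel W A B) (h' : Rel W A' B') : Rel W (A * A') (B * B') := by
  intro w
  rw [Module.End.mul_apply, Module.End.mul_apply, h, h']

lemma Rel.pow {W : Submodule ℂ V} {A : Module.End ℂ V} {B : Module.End ℂ W}
    (h : Rel W A B) (n : ℕ) : Rel W (A ^ n) (B ^ n) := by
  induction n with
  | zero => intro w; simp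
  | succ n ih =>
    rw [pow_succ, pow_succ]
    exact ih.mul h

lemma rel_TL (ρ : G →* (V ≃ₗᵢ[ℂ] V)) (W : Submodule ℂ V) (hW : Inv ρ W) {k : ℕ}
    (y : Fin k → G) : Rel W (TL ρ y) (TL (res ρ W hW) y) := by
  intro w
  rw [WORDS.TL_apply, WORDS.TL_apply]
  simp only [Submodule.coe_smul, Submodule.coe_add, Submodule.coe_sum, res_apply]

lemma rel_Cf (ρ : G →* (V ≃ₗᵢ[ℂ] V)) (W : Submodule ℂ V) (hW : Inv ρ W) (f : G → ℝ) :
    Rel W (Cf ρ f) (Cf (res ρ W hW) f) := by
  intro w
  rw [Cf_apply, Cf_apply]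
  simp only [Submodule.coe_smul, Submodule.coe_sum, res_apply]

/-- additivity of the trace -/
lemma rtr_add (W W' : Submodule ℂ V) (hc : IsCompl W W') (A : Module.End ℂ V)
    (B : Module.End ℂ W) (B' : Module.End ℂ W') (h : Rel W A B) (h' : Rel W' A B') :
    rtr A = rtr B + rtr B' := by
  unfold rtr
  set e := Submodule.prodEquivOfIsCompl W W' hc with he
  have h1 : A = e.conj (LinearMap.prodMap B B') := by
    apply LinearMap.ext
    intro v
    obtain ⟨⟨w, w'⟩, rfl⟩ := e.surjective v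
    rw [LinearEquiv.conj_apply_apply, e.symm_apply_apply, LinearMap.prodMap_apply]
    simp only [he, Submodule.coe_prodEquivOfIsCompl']
    rw [map_add, ← h, ← h']
  rw [h1, LinearMap.trace_conj', LinearMap.trace_prodMap', Complex.add_re]

lemma Inv.orth {ρ : G →* (V ≃ₗᵢ[ℂ] V)} {W : Submodule ℂ V} (hW : Inv ρ W) : Inv ρ Wᗮ := by
  intro g v hv
  rw [Submodule.mem_orthogonal] at hv ⊢
  intro u hu
  rw [DECOMP.inner_rho]
  exact hv _ (hW _ _ hu)

end basic

/-- the trace inequality for class functions -/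
theorem cls_trace {k : ℕ} (y : Fin k → G) (L : ℕ) (η : ℝ) (f : G → ℝ)
    (hf : ∀ g h, f (h * g * h⁻¹) = f g) (hf' : ∀ g, f g⁻¹ = f g) (hf0 : ∑ g, f g = 0)
    (hyp : ∀ (U : Type) [NormedAddCommGroup U] [InnerProductSpace ℂ U] [FiniteDimensional ℂ U]
      (σ : G →* (U ≃ₗᵢ[ℂ] U)), Irr σ ⊤ → (∃ g v, σ g v ≠ v) →
        rtr (TL σ y ^ L) ≤ η * Module.finrank ℂ U) (d : ℕ) :
    ∀ (V : Type) [NormedAddCommGroup V] [InnerProductSpace ℂ V] [FiniteDimensional ℂ V]
      (ρ : G →* (V ≃ₗᵢ[ℂ] V)), Module.finrank ℂ V ≤ d →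
        rtr (TL ρ y ^ L * Cf ρ f ^ 2) ≤ η * rtr (Cf ρ f ^ 2) := by
  induction d with
  | zero =>
    intro V _ _ _ ρ hd
    have h0 : Subsingleton V := by
      rw [← Module.finrank_zero_iff (R := ℂ)]
      omega
    have h1 : ∀ A : Module.End ℂ V, rtr A = 0 := by
      intro A
      have : A = 0 := by
        apply LinearMap.ext
        intro v
        exact Subsingleton.elim _ _
      rw [this]
      simp [rtr]
    rw [h1, h1, mul_zero]
  | succ d ih =>
    intro V _ _ _ ρ hd
    by_cases hV : Nontrivial V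
    · by_cases hirr : Irr ρ ⊤
      · -- the irreducible case
        have hs := SCHUR ρ hirr (Cf ρ f) (fun g => Cf_comm ρ f hf g)
        set μ : ℂ := LinearMap.trace ℂ V (Cf ρ f) / (Module.finrank ℂ V : ℂ) with hμ
        have hreal : (starRingEnd ℂ) μ = μ := by
          obtain ⟨v, hv⟩ := exists_ne (0 : V)
          have h1 := Cf_symm ρ f hf' v v
          rw [hs] at h1
          simp only [LinearMap.smul_apply, Module.End.one_apply, inner_smul_left,
            inner_smul_right] at h1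
          have h2 : ⟪v, v⟫_ℂ ≠ 0 := inner_self_ne_zero.2 hv
          exact mul_right_cancel₀ h2 h1
        obtain ⟨r, hr⟩ : ∃ r : ℝ, μ = (r : ℂ) := ⟨μ.re, (Complex.conj_eq_iff_re.1 hreal).symm⟩
        have hsq : Cf ρ f ^ 2 = ((r ^ 2 : ℝ) : ℂ) • (1 : Module.End ℂ V) := by
          rw [hs, hr, smul_pow, one_pow]
          push_cast
          rfl
        have hb : rtr (Cf ρ f ^ 2) = r ^ 2 * Module.finrank ℂ V := by
          rw [hsq]
          unfold rtr
          rw [map_smul, LinearMap.trace_one, smul_eq_mul, Complex.re_ofReal_mul,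
            Complex.natCast_re]
        have ha : rtr (TL ρ y ^ L * Cf ρ f ^ 2) = r ^ 2 * rtr (TL ρ y ^ L) := by
          rw [hsq, mul_smul_comm, mul_one]
          unfold rtr
          rw [map_smul, smul_eq_mul, Complex.re_ofReal_mul]
        by_cases hnt : ∃ g v, ρ g v ≠ v
        · rw [ha, hb]
          have := hyp V ρ hirr hnt
          calc r ^ 2 * rtr (TL ρ y ^ L) ≤ r ^ 2 * (η * Module.finrank ℂ V) := by gcongr
            _ = _ := by ring
        · push Not at hnt
          have h0 : Cf ρ f = 0 := by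
            apply LinearMap.ext
            intro v
            rw [Cf_apply, Finset.sum_congr rfl fun g _ => by rw [hnt g v], ← Finset.sum_smul,
              ← Complex.ofReal_sum, hf0]
            simp
          rw [h0]
          simp [rtr]
      · -- the reducible case
        obtain ⟨W, hW, -⟩ := DECOMP.exists_irr ρ ⊤ (fun _ _ _ => trivial) (by
          intro h
          exact bot_ne_top h.symm)
        have hWtop : W ≠ ⊤ := by
          rintro rfl
          exact hirr hW
        have hWinv := hW.2.1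
        have hOinv : Inv ρ Wᗮ := Inv.orth hWinv
        have hcompl : IsCompl W Wᗮ := Submodule.isCompl_orthogonal W
        have hdim := Submodule.finrank_add_finrank_orthogonal W
        have hd1 : Module.finrank ℂ W < Module.finrank ℂ V := Submodule.finrank_lt hWtop
        have hd2 : 0 < Module.finrank ℂ W := by
          rw [Nat.pos_iff_ne_zero]
          intro h
          exact hW.1 (Submodule.finrank_eq_zero.1 h)
        have i1 := ih W (res ρ W hWinv) (by omega)
        have i2 := ih (Wᗮ : Submodule ℂ V) (res ρ Wᗮ hOinv) (by omega)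
        have e1 := rtr_add W Wᗮ hcompl (TL ρ y ^ L * Cf ρ f ^ 2) _ _
          (((rel_TL ρ W hWinv y).pow L).mul ((rel_Cf ρ W hWinv f).pow 2))
          (((rel_TL ρ Wᗮ hOinv y).pow L).mul ((rel_Cf ρ Wᗮ hOinv f).pow 2))
        have e2 := rtr_add W Wᗮ hcompl (Cf ρ f ^ 2) _ _
          ((rel_Cf ρ W hWinv f).pow 2) ((rel_Cf ρ Wᗮ hOinv f).pow 2)
        rw [e1, e2, mul_add]
        exact add_le_add i1 i2
    · rw [not_nontrivial_iff_subsingleton] at hV
      have h1 : ∀ A : Module.End ℂ V, rtr A = 0 := by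
        intro A
        have : A = 0 := by
          apply LinearMap.ext
          intro v
          exact Subsingleton.elim _ _
        rw [this]
        simp [rtr]
      rw [h1, h1, mul_zero]

end

end

end H91DI
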