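import Pool.Agent.H91DI.Mix

/-!
Commutators of a permutation with a conjugate.
-/

set_option linter.unusedSectionVars false

namespace H91DI
open RC14 Finset Equiv Equiv.Perm

noncomputable section

section perm
variable {α : Type*} [Fintype α] [DecidableEq α]

lemma app_inv (f : Perm α) (a : α) : f (f⁻¹ a) = a := by simp

lemma inv_app (f : Perm α) (a : α) : f⁻¹ (f a) = a := by simp

/-- the support of a conjugate -/
lemma mem_supp_conj (z u : Perm α) (a : α) :
    a ∈ (u⁻¹ * z * u).support ↔ u a ∈ z.support := by
  rw [mem_support, mem_support, Perm.mul_apply, Perm.mul_apply, not_iff_not, Perm.inv_eq_iff_eq]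

/-- the commutator is not trivial -/
lemma comm_ne_one (z y : Perm α) (a : α) (ha2 : a ∈ y.support)
    (hb : z a ∉ y.support) : z * y * z⁻¹ * y⁻¹ ≠ 1 := by
  intro h
  have h1 : z * y = y * z := by
    have : z * y * z⁻¹ * y⁻¹ * (y * z) = y * z := by rw [h, one_mul]
    rw [← this]
    group
  have h2 := DFunLike.congr_fun h1 a
  rw [Perm.mul_apply, Perm.mul_apply, notMem_support.1 hb] at h2
  exact mem_support.1 ha2 (z.injective h2)

/-- the support of a commutator -/
lemma comm_support (z y : Perm α) :
    #(z * y * z⁻¹ * y⁻¹).support ≤ 3 * #(z.support ∩ y.support) := by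
  set D := z.support ∩ y.support with hD
  have hsub : (z * y * z⁻¹ * y⁻¹).support ⊆ D ∪ (D.image z ∪ D.image y) := by
    intro p hp
    by_contra hcon
    rw [Finset.mem_union, Finset.mem_union, not_or, not_or] at hcon
    obtain ⟨h1, h2, h3⟩ := hcon
    have hz : ∀ q, z q = p → q ∉ D := fun q hq hqD => h2 (Finset.mem_image.2 ⟨q, hqD, hq⟩)
    have hy : ∀ q, y q = p → q ∉ D := fun q hq hqD => h3 (Finset.mem_image.2 ⟨q, hqD, hq⟩)
    rw [hD, Finset.mem_inter] at h1
    rw [mem_support] at hp
    apply hp
    simp only [Perm.mul_apply]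
    by_cases hpy : p ∈ y.support
    · have hpz : p ∉ z.support := fun h => h1 ⟨h, hpy⟩
      have hq1 : y⁻¹ p ∈ y.support := by
        rw [← Perm.support_inv] at hpy ⊢
        exact (Perm.apply_mem_support).2 hpy
      have hq2 : y⁻¹ p ∉ z.support := fun h => hy (y⁻¹ p) (by simp) (by
        rw [hD, Finset.mem_inter]
        exact ⟨h, hq1⟩)
      have e1 : z⁻¹ (y⁻¹ p) = y⁻¹ p := by
        rw [Perm.inv_eq_iff_eq]
        exact (notMem_support.1 hq2).symm
      rw [e1, app_inv]
      exact notMem_support.1 hpz
    · have e1 : y⁻¹ p = p := by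
        rw [Perm.inv_eq_iff_eq]
        exact (notMem_support.1 hpy).symm
      rw [e1]
      by_cases hpz : p ∈ z.support
      · have hq1 : z⁻¹ p ∈ z.support := by
          rw [← Perm.support_inv] at hpz ⊢
          exact (Perm.apply_mem_support).2 hpz
        have hq2 : z⁻¹ p ∉ y.support := fun h => hz (z⁻¹ p) (by simp) (by
          rw [hD, Finset.mem_inter]
          exact ⟨hq1, h⟩)
        rw [notMem_support.1 hq2, app_inv]
      · have e2 : z⁻¹ p = p := by
          rw [Perm.inv_eq_iff_eq]
          exact (notMem_support.1 hpz).symm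
        rw [e2, notMem_support.1 hpy, notMem_support.1 hpz]
  refine (Finset.card_le_card hsub).trans ?_
  refine (Finset.card_union_le _ _).trans ?_
  have h1 := Finset.card_union_le (D.image z) (D.image y)
  have h2 : #(D.image z) ≤ #D := Finset.card_image_le
  have h3 : #(D.image y) ≤ #D := Finset.card_image_le
  omega

/-- if the supports meet in one point the commutator is a 3-cycle -/
lemma comm_three (z y : Perm α) (a : α) (hD : z.support ∩ y.support = {a}) (p : α) :
    (z * y * z⁻¹ * y⁻¹) p = (swap a (z a) * swap (z a) (y a)) p := by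
  have haD : a ∈ z.support ∩ y.support := by rw [hD]; exact Finset.mem_singleton_self a
  rw [Finset.mem_inter] at haD
  obtain ⟨haz, hay⟩ := haD
  have hone : ∀ q, q ∈ z.support → q ∈ y.support → q = a := by
    intro q h1 h2
    have : q ∈ z.support ∩ y.support := Finset.mem_inter.2 ⟨h1, h2⟩
    rwa [hD, Finset.mem_singleton] at this
  have hza : z a ∈ z.support := Perm.apply_mem_support.2 haz
  have hya : y a ∈ y.support := Perm.apply_mem_support.2 hay
  have hzan : z a ≠ a := mem_support.1 haz
  have hyan : y a ≠ a := mem_support.1 hay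
  have hzay : z a ∉ y.support := fun h => hzan (hone _ hza h)
  have hyaz : y a ∉ z.support := fun h => hyan (hone _ h hya)
  have hne : z a ≠ y a := fun h => hzay (h ▸ hya)
  have hzinv : z⁻¹ a ∈ z.support := by
    rw [← Perm.support_inv] at haz ⊢
    exact (Perm.apply_mem_support).2 haz
  have hyinv : y⁻¹ a ∈ y.support := by
    rw [← Perm.support_inv] at hay ⊢
    exact (Perm.apply_mem_support).2 hay
  have hzin : z⁻¹ a ≠ a := by
    intro h
    rw [Perm.inv_eq_iff_eq] at h
    exact hzan h.symm
  have hyin : y⁻¹ a ≠ a := by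
    intro h
    rw [Perm.inv_eq_iff_eq] at h
    exact hyan h.symm
  have fz : ∀ q, q ∉ z.support → z q = q ∧ z⁻¹ q = q := by
    intro q hq
    refine ⟨notMem_support.1 hq, ?_⟩
    rw [Perm.inv_eq_iff_eq]
    exact (notMem_support.1 hq).symm
  have fy : ∀ q, q ∉ y.support → y q = q ∧ y⁻¹ q = q := by
    intro q hq
    refine ⟨notMem_support.1 hq, ?_⟩
    rw [Perm.inv_eq_iff_eq]
    exact (notMem_support.1 hq).symm
  simp only [Perm.mul_apply]
  by_cases h1 : p = a
  · subst h1
    have h2 : y⁻¹ p ∉ z.support := fun h => hyin (hone _ h hyinv)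
    rw [(fz _ h2).2, app_inv, swap_apply_of_ne_of_ne hzan.symm hyan.symm,
      swap_apply_left]
  · by_cases h2 : p = z a
    · subst h2
      rw [(fy _ hzay).2, inv_app, (fz _ hyaz).1, swap_apply_left,
        swap_apply_of_ne_of_ne hyan hne.symm]
    · by_cases h3 : p = y a
      · subst h3
        have h4 : z⁻¹ a ∉ y.support := fun h => hzin (hone _ hzinv h)
        rw [inv_app, (fy _ h4).1, app_inv, swap_apply_right,
          swap_apply_right]
      · rw [swap_apply_of_ne_of_ne h2 h3, swap_apply_of_ne_of_ne h1 h2]
        by_cases hpy : p ∈ y.support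
        · have hpz : p ∉ z.support := fun h => h1 (hone _ h hpy)
          have hq : y⁻¹ p ∈ y.support := by
            rw [← Perm.support_inv] at hpy ⊢
            exact (Perm.apply_mem_support).2 hpy
          have hq2 : y⁻¹ p ∉ z.support := by
            intro h
            apply h3
            rw [← hone _ h hq, app_inv]
          rw [(fz _ hq2).2, app_inv, (fz _ hpz).1]
        · rw [(fy _ hpy).2]
          by_cases hpz : p ∈ z.support
          · have hq : z⁻¹ p ∈ z.support := by
              rw [← Perm.support_inv] at hpz ⊢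
              exact (Perm.apply_mem_support).2 hpz
            have hq2 : z⁻¹ p ∉ y.support := by
              intro h
              apply h2
              rw [← hone _ hq h, app_inv]
            rw [(fy _ hq2).1, app_inv]
          · rw [(fz _ hpz).2, (fy _ hpy).1, (fz _ hpz).1]

end perm

end

end H91DI
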