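import Pool.Agent.H91DI.Main

/-!
Functions with many symmetries: flatness in irreducible representations.
-/

set_option linter.unusedSectionVars false

namespace H91DI
open RC14 Finset
open scoped InnerProductSpace

noncomputable section

section
variable {G : Type*} [Group G] [Fintype G]

section basic
variable {V : Type*} [NormedAddCommGroup V] [InnerProductSpace ℂ V] [FiniteDimensional ℂ V]

lemma Cf_adj (ρ : G →* (V ≃ₗᵢ[ℂ] V)) (f : G → ℝ) (v w : V) :
    ⟪Cf ρ f v, w⟫_ℂ = ⟪v, Cf ρ (fun g => f g⁻¹) w⟫_ℂ := by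
  rw [Cf_apply, Cf_apply, sum_inner, inner_sum,
    ← Equiv.sum_comp (Equiv.inv G) fun g => ⟪(f g : ℂ) • ρ g v, w⟫_ℂ]
  refine Finset.sum_congr rfl fun g _ => ?_
  rw [inner_smul_left, inner_smul_right, Equiv.inv_apply, Complex.conj_ofReal]
  congr 1
  rw [FR.inner_rho ρ g⁻¹, inv_inv]

lemma Cf_mulL (ρ : G →* (V ≃ₗᵢ[ℂ] V)) (f : G → ℝ) (a : G) :
    op ρ a * Cf ρ f = Cf ρ (fun g => f (a⁻¹ * g)) := by
  unfold Cf
  rw [Finset.mul_sum, ← Equiv.sum_comp (Equiv.mulLeft a) fun g => (f (a⁻¹ * g) : ℂ) • op ρ g]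
  refine Finset.sum_congr rfl fun g _ => ?_
  rw [Equiv.coe_mulLeft, inv_mul_cancel_left, mul_smul_comm, ← op_mul]

lemma Cf_mulR (ρ : G →* (V ≃ₗᵢ[ℂ] V)) (f : G → ℝ) (a : G) :
    Cf ρ f * op ρ a = Cf ρ (fun g => f (g * a⁻¹)) := by
  unfold Cf
  rw [Finset.sum_mul, ← Equiv.sum_comp (Equiv.mulRight a) fun g => (f (g * a⁻¹) : ℂ) • op ρ g]
  refine Finset.sum_congr rfl fun g _ => ?_
  rw [Equiv.coe_mulRight, mul_inv_cancel_right, smul_mul_assoc, ← op_mul]

/-- if `f (h' g h) = f g` for all `g` then `ρ(h)` commutes with `C* C` -/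
lemma Cf_commH (ρ : G →* (V ≃ₗᵢ[ℂ] V)) (f : G → ℝ) (h h' : G)
    (hf : ∀ g, f (h' * g * h) = f g) :
    op ρ h * (Cf ρ (fun g => f g⁻¹) * Cf ρ f) = (Cf ρ (fun g => f g⁻¹) * Cf ρ f) * op ρ h := by
  have h1 : op ρ h * Cf ρ (fun g => f g⁻¹) = Cf ρ (fun g => f g⁻¹) * op ρ h'⁻¹ := by
    rw [Cf_mulL, Cf_mulR]
    congr 1
    funext g
    rw [← hf (g * h'⁻¹⁻¹)⁻¹]
    congr 1
    group
  have h2 : op ρ h'⁻¹ * Cf ρ f = Cf ρ f * op ρ h := by
    rw [Cf_mulL, Cf_mulR]
    congr 1
    funext g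
    rw [← hf (g * h⁻¹)]
    congr 1
    group
  rw [← mul_assoc, h1, mul_assoc, h2, mul_assoc]

/-- the dimension of a subspace invariant under a subgroup -/
lemma dim_ge (ρ : G →* (V ≃ₗᵢ[ℂ] V)) (hirr : Irr ρ ⊤) (H : Subgroup G) (U : Submodule ℂ V)
    (hU : U ≠ ⊥) (hH : ∀ h ∈ H, ∀ v ∈ U, ρ h v ∈ U) :
    Module.finrank ℂ V ≤ H.index * Module.finrank ℂ U := by
  classical
  set e : G → (V ≃ₗ[ℂ] V) := fun g => (ρ g).toLinearEquiv with he
  have hcoset : ∀ g : G, ∃ q : G ⧸ H, U.map (e g : V →ₗ[ℂ] V) ≤ U.map (e q.out : V →ₗ[ℂ] V) := by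
    intro g
    refine ⟨(g : G ⧸ H), ?_⟩
    obtain ⟨h, hh⟩ := QuotientGroup.mk_out_eq_mul H g
    rintro _ ⟨v, hv, rfl⟩
    refine ⟨ρ (h : G)⁻¹ v, hH _ (H.inv_mem h.2) v hv, ?_⟩
    rw [hh]
    change (ρ (g * h) * ρ (h : G)⁻¹) v = ρ g v
    rw [← map_mul]
    congr 2
    group
  set W : Submodule ℂ V := ⨆ q : G ⧸ H, U.map (e q.out : V →ₗ[ℂ] V) with hW
  have hWinv : Inv ρ W := by
    intro g v hv
    have h1 : W.map (e g : V →ₗ[ℂ] V) ≤ W := by
      rw [hW, Submodule.map_iSup]
      refine iSup_le fun q => ?_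
      obtain ⟨q', hq'⟩ := hcoset (g * q.out)
      refine le_trans ?_ (hq'.trans (le_iSup (fun q : G ⧸ H => U.map (e q.out : V →ₗ[ℂ] V)) q'))
      rintro _ ⟨_, ⟨v, hv, rfl⟩, rfl⟩
      refine ⟨v, hv, ?_⟩
      change ρ (g * q.out) v = ρ g (ρ q.out v)
      rw [map_mul]
      rfl
    exact h1 ⟨v, hv, rfl⟩
  have hWtop : W = ⊤ := by
    rcases hirr.2.2 W le_top hWinv with h | h
    · exfalso
      apply hU
      obtain ⟨q, hq⟩ := hcoset 1
      have h2 : U.map (e 1 : V →ₗ[ℂ] V) ≤ ⊥ := by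
        rw [← h]
        exact hq.trans (le_iSup (fun q : G ⧸ H => U.map (e q.out : V →ₗ[ℂ] V)) q)
      rw [eq_bot_iff]
      intro v hv
      have h3 := h2 ⟨v, hv, rfl⟩
      have h4 : (e 1 : V →ₗ[ℂ] V) v = v := by
        change ρ 1 v = v
        simp
      rwa [h4] at h3
    · exact h
  have hbound : ∀ s : Finset (G ⧸ H),
      Module.finrank ℂ (⨆ q ∈ s, U.map (e q.out : V →ₗ[ℂ] V) : Submodule ℂ V) ≤
        #s * Module.finrank ℂ U := by
    intro s
    induction s using Finset.induction_on with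
    | empty => simp
    | insert q s hq ih =>
      rw [Finset.iSup_insert, Finset.card_insert_of_notMem hq]
      refine (Submodule.finrank_add_le_finrank_add_finrank _ _).trans ?_
      have h1 : Module.finrank ℂ (U.map (e q.out : V →ₗ[ℂ] V)) = Module.finrank ℂ U :=
        LinearEquiv.finrank_map_eq (e q.out) U
      rw [h1, add_mul, one_mul, add_comm]
      exact Nat.add_le_add_right ih _
  have h2 := hbound Finset.univ
  have h3 : (⨆ q ∈ (Finset.univ : Finset (G ⧸ H)), U.map (e q.out : V →ₗ[ℂ] V)) = ⊤ := by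
    rw [← hWtop, hW]
    simp
  rw [h3, finrank_top] at h2
  rw [Subgroup.index_eq_card, Nat.card_eq_fintype_card]
  exact h2

/-- positive part of the trace -/
lemma rtr_nonneg (S : Module.End ℂ V) (hpos : ∀ v, 0 ≤ (⟪S v, v⟫_ℂ).re) : 0 ≤ rtr S := by
  unfold rtr
  rw [LinearMap.trace_eq_sum_inner _ (stdOrthonormalBasis ℂ V), Complex.re_sum]
  refine Finset.sum_nonneg fun i _ => ?_
  have := hpos (stdOrthonormalBasis ℂ V i)
  rwa [← inner_conj_symm, Complex.conj_re] at this

/-- the largest eigenvalue of an operator commuting with a subgroup -/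
lemma irr_flat (ρ : G →* (V ≃ₗᵢ[ℂ] V)) (hirr : Irr ρ ⊤) (H : Subgroup G) (S : Module.End ℂ V)
    (hS : S.IsSymmetric) (hpos : ∀ v, 0 ≤ (⟪S v, v⟫_ℂ).re)
    (hcomm : ∀ h ∈ H, op ρ h * S = S * op ρ h) :
    ∃ m : ℝ, 0 ≤ m ∧ (∀ v, (⟪S v, v⟫_ℂ).re ≤ m * ‖v‖ ^ 2) ∧
      m * Module.finrank ℂ V ≤ H.index * rtr S := by
  classical
  have hnt : Nontrivial V := by
    by_contra hcon
    rw [not_nontrivial_iff_subsingleton] at hcon
    exact hirr.1 (Subsingleton.elim _ _)
  have hd : 0 < Module.finrank ℂ V := Module.finrank_pos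
  have : Nonempty (Fin (Module.finrank ℂ V)) := ⟨⟨0, hd⟩⟩
  obtain ⟨i0, hi0⟩ := Finite.exists_max (hS.eigenvalues rfl)
  set m : ℝ := hS.eigenvalues rfl i0 with hm
  set b := hS.eigenvectorBasis rfl with hb
  have hSb : ∀ i, S (b i) = (hS.eigenvalues rfl i : ℂ) • b i := fun i =>
    hS.apply_eigenvectorBasis rfl i
  have hm0 : 0 ≤ m := by
    have h1 := hpos (b i0)
    rw [hSb, inner_smul_left, inner_self_eq_norm_sq_to_K, b.orthonormal.1 i0,
      Complex.conj_ofReal] at h1
    simpa using h1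
  have hray : ∀ v, (⟪S v, v⟫_ℂ).re ≤ m * ‖v‖ ^ 2 := by
    intro v
    have h1 : ⟪S v, v⟫_ℂ = ∑ i, ⟪S v, b i⟫_ℂ * ⟪b i, v⟫_ℂ := (b.sum_inner_mul_inner _ _).symm
    have h2 : ‖v‖ ^ 2 = ∑ i, ‖⟪b i, v⟫_ℂ‖ ^ 2 := (b.sum_sq_norm_inner_right v).symm
    rw [h1, h2, Complex.re_sum, Finset.mul_sum]
    refine Finset.sum_le_sum fun i _ => ?_
    have h3 : ⟪S v, b i⟫_ℂ * ⟪b i, v⟫_ℂ =
        ((hS.eigenvalues rfl i * ‖⟪b i, v⟫_ℂ‖ ^ 2 : ℝ) : ℂ) := by
      rw [hS v (b i), hSb, inner_smul_right, ← inner_conj_symm v (b i), mul_assoc,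
        Complex.conj_mul']
      push_cast
      ring
    rw [h3, Complex.ofReal_re]
    exact mul_le_mul_of_nonneg_right (hi0 i) (by positivity)
  refine ⟨m, hm0, hray, ?_⟩
  -- the eigenspace
  set U : Submodule ℂ V := Module.End.eigenspace S (m : ℂ) with hU
  have hUmem : ∀ v, v ∈ U ↔ S v = (m : ℂ) • v := fun v => Module.End.mem_eigenspace_iff
  have hUne : U ≠ ⊥ := by
    intro h
    have h1 : b i0 ∈ U := by
      rw [hUmem]
      exact hSb i0
    rw [h, Submodule.mem_bot] at h1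
    have h2 := b.orthonormal.1 i0
    rw [h1, norm_zero] at h2
    exact zero_ne_one h2
  have hUH : ∀ h ∈ H, ∀ v ∈ U, ρ h v ∈ U := by
    intro h hh v hv
    rw [hUmem] at hv ⊢
    have h1 := LinearMap.congr_fun (hcomm h hh) v
    rw [Module.End.mul_apply, Module.End.mul_apply, op_apply, op_apply, hv, map_smul] at h1
    exact h1.symm
  have hdim := dim_ge ρ hirr H U hUne hUH
  -- the trace
  have hUS : ∀ v ∈ U, S v ∈ U := by
    intro v hv
    have h1 := (hUmem v).1 hv
    rw [h1]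
    exact U.smul_mem _ hv
  have hOS : ∀ v ∈ Uᗮ, S v ∈ Uᗮ := by
    intro v hv
    rw [Submodule.mem_orthogonal] at hv ⊢
    intro u hu
    rw [← hS u v]
    exact hv _ (hUS u hu)
  have hadd := rtr_add U Uᗮ (Submodule.isCompl_orthogonal U) S (S.restrict hUS) (S.restrict hOS)
    (fun w => rfl) (fun w => rfl)
  have h1 : rtr (S.restrict hUS) = m * Module.finrank ℂ U := by
    have h2 : S.restrict hUS = (m : ℂ) • (1 : Module.End ℂ U) := by
      apply LinearMap.ext
      intro w
      apply Subtype.ext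
      exact (hUmem w).1 w.2
    rw [h2]
    unfold rtr
    rw [map_smul, LinearMap.trace_one, smul_eq_mul, Complex.re_ofReal_mul, Complex.natCast_re]
  have h2 : 0 ≤ rtr (S.restrict hOS) := by
    apply rtr_nonneg
    intro w
    have := hpos (w : V)
    simpa using this
  have h3 : m * Module.finrank ℂ U ≤ rtr S := by
    rw [hadd, h1]
    linarith
  calc m * Module.finrank ℂ V ≤ m * ((H.index * Module.finrank ℂ U : ℕ) : ℝ) := by
        apply mul_le_mul_of_nonneg_left _ hm0
        exact_mod_cast hdim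
    _ = H.index * (m * Module.finrank ℂ U) := by push_cast; ring
    _ ≤ H.index * rtr S := by gcongr

end basic

/-- the trace inequality for functions with many symmetries -/
theorem hinv_trace {k : ℕ} (y : Fin k → G) (L : ℕ) (η : ℝ) (hη : 0 ≤ η) (H : Subgroup G)
    (f : G → ℝ) (hf : ∀ h ∈ H, ∃ h', ∀ g, f (h' * g * h) = f g) (hf0 : ∑ g, f g = 0)
    (hyp : ∀ (U : Type) [NormedAddCommGroup U] [InnerProductSpace ℂ U] [FiniteDimensional ℂ U]
      (σ : G →* (U ≃ₗᵢ[ℂ] U)), Irr σ ⊤ → (∃ g v, σ g v ≠ v) →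
        rtr (TL σ y ^ (2 * L)) ≤ η * Module.finrank ℂ U) (d : ℕ) :
    ∀ (V : Type) [NormedAddCommGroup V] [InnerProductSpace ℂ V] [FiniteDimensional ℂ V]
      (ρ : G →* (V ≃ₗᵢ[ℂ] V)), Module.finrank ℂ V ≤ d →
        rtr (TL ρ y ^ (2 * L) * (Cf ρ (fun g => f g⁻¹) * Cf ρ f)) ≤
          (H.index * η) * rtr (Cf ρ (fun g => f g⁻¹) * Cf ρ f) := by
  induction d with
  | zero =>
    intro V _ _ _ ρ hd
    have h0 : Subsingleton V := by
      rw [← Module.finrank_zero_iff (R := ℂ)]
      omega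
    have h1 : ∀ A : Module.End ℂ V, rtr A = 0 := by
      intro A
      have : A = 0 := by
        apply LinearMap.ext
        intro v
        exact Subsingleton.elim _ _
      rw [this]
      simp [rtr]
    rw [h1, h1, mul_zero]
  | succ d ih =>
    intro V _ _ _ ρ hd
    by_cases hV : Nontrivial V
    · by_cases hirr : Irr ρ ⊤
      · -- the irreducible case
        by_cases hnt : ∃ g v, ρ g v ≠ v
        · set S : Module.End ℂ V := Cf ρ (fun g => f g⁻¹) * Cf ρ f with hSdef
          have hSin : ∀ v w, ⟪S v, w⟫_ℂ = ⟪Cf ρ f v, Cf ρ f w⟫_ℂ := by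
            intro v w
            have h1 := Cf_adj ρ (fun g => f g⁻¹) (Cf ρ f v) w
            have e : (fun g : G => (fun g => f g⁻¹) g⁻¹) = f := by
              funext g
              simp
            rw [e] at h1
            exact h1
          have hS : S.IsSymmetric := by
            intro v w
            rw [hSin, ← inner_conj_symm v (S w), hSin w v, inner_conj_symm]
          have hpos : ∀ v, 0 ≤ (⟪S v, v⟫_ℂ).re := by
            intro v
            rw [hSin, inner_self_eq_norm_sq_to_K]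
            have e : ((‖Cf ρ f v‖ : ℂ) ^ 2).re = ‖Cf ρ f v‖ ^ 2 := by norm_cast
            exact e ▸ sq_nonneg _
          obtain ⟨m, hm0, hray, hm⟩ := irr_flat ρ hirr H S hS hpos (by
            intro h hh
            obtain ⟨h', hh'⟩ := hf h hh
            exact Cf_commH ρ f h h' hh')
          have hTs : (TL ρ y ^ L).IsSymmetric := (TL_symm ρ y).pow L
          have h1 : rtr (TL ρ y ^ (2 * L) * S) ≤ m * rtr (TL ρ y ^ (2 * L)) := by
            have e1 : rtr (TL ρ y ^ (2 * L) * S) = rtr (TL ρ y ^ L * (S * TL ρ y ^ L)) := by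
              unfold rtr
              rw [two_mul, pow_add, mul_assoc, LinearMap.trace_mul_comm, mul_assoc,
                LinearMap.trace_mul_comm, mul_assoc]
            rw [e1]
            unfold rtr
            rw [LinearMap.trace_eq_sum_inner _ (stdOrthonormalBasis ℂ V),
              LinearMap.trace_eq_sum_inner _ (stdOrthonormalBasis ℂ V), Complex.re_sum,
              Complex.re_sum, Finset.mul_sum]
            refine Finset.sum_le_sum fun i _ => ?_
            set e := stdOrthonormalBasis ℂ V i with he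
            have a1 : (TL ρ y ^ L * (S * TL ρ y ^ L)) e = (TL ρ y ^ L) (S ((TL ρ y ^ L) e)) := rfl
            have a2 : (TL ρ y ^ (2 * L)) e = (TL ρ y ^ L) ((TL ρ y ^ L) e) := by
              rw [two_mul, pow_add]
              rfl
            have h2 := hray ((TL ρ y ^ L) e)
            rw [a1, a2, ← hTs, ← hTs, inner_self_eq_norm_sq_to_K]
            rw [← inner_conj_symm, Complex.conj_re] at h2
            refine h2.trans (le_of_eq ?_)
            norm_cast
          have h2 := hyp V ρ hirr hnt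
          calc rtr (TL ρ y ^ (2 * L) * S) ≤ m * rtr (TL ρ y ^ (2 * L)) := h1
            _ ≤ m * (η * Module.finrank ℂ V) := by gcongr
            _ = η * (m * Module.finrank ℂ V) := by ring
            _ ≤ η * (H.index * rtr S) := by gcongr
            _ = _ := by ring
        · push Not at hnt
          have h0 : Cf ρ f = 0 := by
            apply LinearMap.ext
            intro v
            rw [Cf_apply, Finset.sum_congr rfl fun g _ => by rw [hnt g v], ← Finset.sum_smul,
              ← Complex.ofReal_sum, hf0]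
            simp
          rw [h0]
          simp [rtr]
      · -- the reducible case
        obtain ⟨W, hW, -⟩ := DECOMP.exists_irr ρ ⊤ (fun _ _ _ => trivial) (by
          intro h
          exact bot_ne_top h.symm)
        have hWtop : W ≠ ⊤ := by
          rintro rfl
          exact hirr hW
        have hWinv := hW.2.1
        have hOinv : Inv ρ Wᗮ := Inv.orth hWinv
        have hcompl : IsCompl W Wᗮ := Submodule.isCompl_orthogonal W
        have hdim := Submodule.finrank_add_finrank_orthogonal W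
        have hd1 : Module.finrank ℂ W < Module.finrank ℂ V := Submodule.finrank_lt hWtop
        have hd2 : 0 < Module.finrank ℂ W := by
          rw [Nat.pos_iff_ne_zero]
          intro h
          exact hW.1 (Submodule.finrank_eq_zero.1 h)
        have i1 := ih W (res ρ W hWinv) (by omega)
        have i2 := ih (Wᗮ : Submodule ℂ V) (res ρ Wᗮ hOinv) (by omega)
        have e1 := rtr_add W Wᗮ hcompl
          (TL ρ y ^ (2 * L) * (Cf ρ (fun g => f g⁻¹) * Cf ρ f)) _ _
          (((rel_TL ρ W hWinv y).pow (2 * L)).mul ((rel_Cf ρ W hWinv _).mul (rel_Cf ρ W hWinv f)))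
          (((rel_TL ρ Wᗮ hOinv y).pow (2 * L)).mul
            ((rel_Cf ρ Wᗮ hOinv _).mul (rel_Cf ρ Wᗮ hOinv f)))
        have e2 := rtr_add W Wᗮ hcompl (Cf ρ (fun g => f g⁻¹) * Cf ρ f) _ _
          ((rel_Cf ρ W hWinv _).mul (rel_Cf ρ W hWinv f))
          ((rel_Cf ρ Wᗮ hOinv _).mul (rel_Cf ρ Wᗮ hOinv f))
        rw [e1, e2, mul_add]
        exact add_le_add i1 i2
    · rw [not_nontrivial_iff_subsingleton] at hV
      have h1 : ∀ A : Module.End ℂ V, rtr A = 0 := by
        intro A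
        have : A = 0 := by
          apply LinearMap.ext
          intro v
          exact Subsingleton.elim _ _
        rw [this]
        simp [rtr]
      rw [h1, h1, mul_zero]

end

end

end H91DI
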