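import Pool.Agent.H91DI.Flat

/-!
Functions on the alternating group with many symmetries: decay of the walk.
-/

set_option linter.unusedSectionVars false

namespace H91DI
open RC14 Finset
open scoped InnerProductSpace

noncomputable section

variable {n : ℕ}

/-- `C* δ_a` is a translate of `f` -/
lemma Cf_single' (f : Alt n → ℝ) (a : Alt n) :
    Cf (RR n) (fun g => f g⁻¹) (EuclideanSpace.single a 1) = lmE a (vec f) := by
  ext b
  rw [Cf_apply, WithLp.ofLp_sum, Finset.sum_apply, lmE_apply, vec_apply]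
  rw [Finset.sum_eq_single (b⁻¹ * a)]
  · rw [PiLp.smul_apply, RR_apply, mul_inv_cancel_left, PiLp.single_apply, if_pos rfl, smul_eq_mul,
      mul_one, mul_inv_rev, inv_inv]
  · intro g _ hg
    rw [PiLp.smul_apply, RR_apply, PiLp.single_apply, if_neg, smul_zero]
    intro h
    apply hg
    rw [← h]
    group
  · intro h
    exact absurd (Finset.mem_univ _) h

/-- decay of the walk on a function with many symmetries -/
theorem flat_decay {k : ℕ} (y : Fin k → Alt n) (L : ℕ) (η : ℝ) (hη : 0 ≤ η)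
    (H : Subgroup (Alt n)) (f : Alt n → ℝ)
    (hf : ∀ h ∈ H, ∃ h', ∀ g, f (h' * g * h) = f g) (hf0 : ∑ g, f g = 0)
    (hyp : ∀ (U : Type) [NormedAddCommGroup U] [InnerProductSpace ℂ U] [FiniteDimensional ℂ U]
      (σ : Alt n →* (U ≃ₗᵢ[ℂ] U)), Irr σ ⊤ → (∃ g v, σ g v ≠ v) →
        rtr (TL σ y ^ (2 * L)) ≤ η * Module.finrank ℂ U) :
    ‖(TL (RR n) y ^ L) (vec f)‖ ^ 2 ≤ (H.index * η) * ‖vec f‖ ^ 2 := by
  classical
  have hN : (0 : ℝ) < Fintype.card (Alt n) := by exact_mod_cast Fintype.card_pos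
  have key := hinv_trace y L η hη H f hf hf0 hyp _ (FA n) (RR n) le_rfl
  set T := TL (RR n) y with hT
  set C := Cf (RR n) f with hC
  set C' := Cf (RR n) (fun g => f g⁻¹) with hC'
  have hTs : (T ^ L).IsSymmetric := (TL_symm (RR n) y).pow L
  have hadj : ∀ v w, ⟪v, C w⟫_ℂ = ⟪C' v, w⟫_ℂ := by
    intro v w
    have h1 := Cf_adj (RR n) (fun g => f g⁻¹) v w
    have e : (fun g : Alt n => (fun g => f g⁻¹) g⁻¹) = f := by
      funext g
      simp
    rw [e] at h1
    exact h1.symm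
  have e1 : rtr (C' * C) = Fintype.card (Alt n) * ‖vec f‖ ^ 2 := by
    unfold rtr
    rw [LinearMap.trace_mul_comm,
      LinearMap.trace_eq_sum_inner _ (EuclideanSpace.basisFun (Alt n) ℂ), Complex.re_sum]
    have h1 : ∀ a, (⟪EuclideanSpace.basisFun (Alt n) ℂ a,
        (C * C') (EuclideanSpace.basisFun (Alt n) ℂ a)⟫_ℂ).re = ‖vec f‖ ^ 2 := by
      intro a
      rw [EuclideanSpace.basisFun_apply, Module.End.mul_apply, hadj, hC',
        Cf_single', inner_self_eq_norm_sq_to_K, (lmE a).norm_map]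
      norm_cast
    rw [Finset.sum_congr rfl fun a _ => h1 a, Finset.sum_const, Finset.card_univ, nsmul_eq_mul]
  have e2 : rtr (T ^ (2 * L) * (C' * C)) = Fintype.card (Alt n) * ‖(T ^ L) (vec f)‖ ^ 2 := by
    unfold rtr
    have h0 : LinearMap.trace ℂ _ (T ^ (2 * L) * (C' * C)) =
        LinearMap.trace ℂ _ (C * (T ^ (2 * L) * C')) := by
      rw [← mul_assoc, LinearMap.trace_mul_comm]
    rw [h0, LinearMap.trace_eq_sum_inner _ (EuclideanSpace.basisFun (Alt n) ℂ), Complex.re_sum]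
    have h1 : ∀ a, (⟪EuclideanSpace.basisFun (Alt n) ℂ a,
        (C * (T ^ (2 * L) * C')) (EuclideanSpace.basisFun (Alt n) ℂ a)⟫_ℂ).re =
        ‖(T ^ L) (vec f)‖ ^ 2 := by
      intro a
      rw [EuclideanSpace.basisFun_apply, two_mul, pow_add, Module.End.mul_apply,
        Module.End.mul_apply, Module.End.mul_apply, hadj, ← hTs, hC', Cf_single',
        inner_self_eq_norm_sq_to_K, hT, ← lmE_TL_pow, (lmE a).norm_map]
      norm_cast
    rw [Finset.sum_congr rfl fun a _ => h1 a, Finset.sum_const, Finset.card_univ, nsmul_eq_mul]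
  rw [e1, e2] at key
  have h3 : (Fintype.card (Alt n) : ℝ) * ‖(T ^ L) (vec f)‖ ^ 2 ≤
      Fintype.card (Alt n) * ((H.index * η) * ‖vec f‖ ^ 2) := by
    calc _ ≤ _ := key
      _ = _ := by ring
  exact le_of_mul_le_mul_left h3 hN

/-- a log-convex sequence lies below its chords -/
lemma logconv (a : ℕ → ℝ) (ha : ∀ i, 0 ≤ a i) (hc : ∀ i, a (i + 1) ^ 2 ≤ a i * a (i + 2)) (q : ℝ)
    (hq : 0 ≤ q) (L : ℕ) (hL : a L ≤ q ^ L * a 0) (l : ℕ) (hl : l ≤ L) : a l ≤ q ^ l * a 0 := by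
  by_contra hcon
  push Not at hcon
  have h1 : ∃ j < l, q * a j < a (j + 1) := by
    by_contra h
    push Not at h
    have h2 : ∀ i ≤ l, a i ≤ q ^ i * a 0 := by
      intro i
      induction i with
      | zero => intro _; simp
      | succ i ih =>
        intro hi
        refine (h i (by omega)).trans ?_
        rw [pow_succ, mul_comm (q ^ i) q, mul_assoc]
        exact mul_le_mul_of_nonneg_left (ih (by omega)) hq
    exact absurd (h2 l le_rfl) (not_le.2 hcon)
  obtain ⟨j, hj, hj1⟩ := h1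
  have h2 : ∀ i, q * a (j + i) < a (j + i + 1) := by
    intro i
    induction i with
    | zero => exact hj1
    | succ i ih =>
      by_contra h
      push Not at h
      have h3 := hc (j + i)
      have h4 : 0 < a (j + i + 1) := lt_of_le_of_lt (mul_nonneg hq (ha _)) ih
      have h5 : a (j + i + 1) ^ 2 ≤ a (j + i) * (q * a (j + i + 1)) :=
        h3.trans (mul_le_mul_of_nonneg_left h (ha _))
      have h6 : a (j + i + 1) * a (j + i + 1) ≤ (q * a (j + i)) * a (j + i + 1) := by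
        calc _ = a (j + i + 1) ^ 2 := by ring
          _ ≤ _ := h5
          _ = _ := by ring
      exact absurd (le_of_mul_le_mul_right h6 h4) (not_le.2 ih)
  have h3 : ∀ i, q ^ (l + i) * a 0 < a (l + i) := by
    intro i
    induction i with
    | zero => simpa using hcon
    | succ i ih =>
      have h4 := h2 (l + i - j)
      have e : j + (l + i - j) = l + i := by omega
      rw [e] at h4
      refine lt_of_le_of_lt ?_ h4
      rw [← add_assoc, pow_succ, mul_comm (q ^ (l + i)) q, mul_assoc]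
      exact mul_le_mul_of_nonneg_left ih.le hq
  have h4 := h3 (L - l)
  have e : l + (L - l) = L := by omega
  rw [e] at h4
  exact absurd hL (not_le.2 h4)

/-- log-convexity for a symmetric operator -/
lemma symm_logconv {V : Type*} [NormedAddCommGroup V] [InnerProductSpace ℂ V]
    [FiniteDimensional ℂ V] (T : Module.End ℂ V) (hT : T.IsSymmetric) (v : V) (q : ℝ) (hq : 0 ≤ q)
    (L : ℕ) (hL : ‖(T ^ L) v‖ ^ 2 ≤ q ^ L * ‖v‖ ^ 2) (l : ℕ) (hl : l ≤ L) :
    ‖(T ^ l) v‖ ^ 2 ≤ q ^ l * ‖v‖ ^ 2 := by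
  have h := logconv (fun i => ‖(T ^ i) v‖ ^ 2) (fun i => sq_nonneg _) (by
    intro i
    have e1 : (T ^ (i + 1)) v = T ((T ^ i) v) := by
      rw [pow_succ' T i]
      rfl
    have e2 : (T ^ (i + 2)) v = T ((T ^ (i + 1)) v) := by
      rw [pow_succ' T (i + 1)]
      rfl
    have h1 : ((‖(T ^ (i + 1)) v‖ ^ 2 : ℝ) : ℂ) = ⟪(T ^ i) v, (T ^ (i + 2)) v⟫_ℂ := by
      rw [e2, ← hT, ← e1, inner_self_eq_norm_sq_to_K]
      norm_cast
    have h2 : ‖(T ^ (i + 1)) v‖ ^ 2 ≤ ‖(T ^ i) v‖ * ‖(T ^ (i + 2)) v‖ := by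
      calc ‖(T ^ (i + 1)) v‖ ^ 2 = ‖((‖(T ^ (i + 1)) v‖ ^ 2 : ℝ) : ℂ)‖ := by
            rw [Complex.norm_real, Real.norm_of_nonneg (sq_nonneg _)]
        _ = ‖⟪(T ^ i) v, (T ^ (i + 2)) v⟫_ℂ‖ := by rw [h1]
        _ ≤ _ := norm_inner_le_norm _ _
    calc (‖(T ^ (i + 1)) v‖ ^ 2) ^ 2 ≤ (‖(T ^ i) v‖ * ‖(T ^ (i + 2)) v‖) ^ 2 :=
          pow_le_pow_left₀ (sq_nonneg _) h2 2
      _ = _ := by ring) q hq L (by simpa using hL) l hl
  simpa using h

end

end H91DI
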