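import Pool.Agent.H91DI.Flat2

/-!
Functions on the alternating group with many symmetries: the parameters.
-/

set_option linter.unusedSectionVars false

namespace H91DI
open RC14 Finset Filter Topology
open scoped InnerProductSpace

noncomputable section

lemma flat_num (n k m L : ℕ) (c X t : ℝ) (hk : 1 ≤ k) (hc : 0 < c)
    (hX : 1 ≤ X) (hL : 6 * k * X / c ≤ L) (ht : t = Fintype.card (Tup m n))
    (h1 : t ≤ Real.exp (3 * X)) (h2 : 2 * Real.exp X ≤ ((n / 2).descFactorial m : ℝ)) :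
    Real.exp (-(c * L / (4 * k))) ≤ 2 * Real.exp (-X) ∧
    Real.exp (-X) + (1 + t *
      Real.exp (-(c * ((2 * L : ℕ) : ℝ) / (4 * k)))) / ((n / 2).descFactorial m : ℝ) ≤
        2 * Real.exp (-X) := by
  have hk0 : (0 : ℝ) < k := by exact_mod_cast hk
  have ht0 : 0 ≤ t := by
    rw [ht]
    exact Nat.cast_nonneg _
  have hL1 : 6 * k * X ≤ c * L := by
    rw [div_le_iff₀ hc] at hL
    linarith
  have h3 : X ≤ c * L / (4 * k) := by
    rw [le_div_iff₀ (by positivity)]
    nlinarith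
  have h4 : 3 * X ≤ c * ((2 * L : ℕ) : ℝ) / (4 * k) := by
    rw [le_div_iff₀ (by positivity)]
    push_cast
    nlinarith
  have e : Real.exp X * Real.exp (-X) = 1 := by
    rw [← Real.exp_add]
    simp
  refine ⟨?_, ?_⟩
  · have : Real.exp (-(c * L / (4 * k))) ≤ Real.exp (-X) := Real.exp_le_exp.mpr (by linarith)
    have h5 := Real.exp_pos (-X)
    linarith
  · have h5 : t * Real.exp (-(c * ((2 * L : ℕ) : ℝ) / (4 * k))) ≤ 1 := by
      calc _ ≤ Real.exp (3 * X) * Real.exp (-(3 * X)) := by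
            gcongr
        _ = 1 := by
            rw [← Real.exp_add]
            simp
    have h6 : (1 + t * Real.exp (-(c * ((2 * L : ℕ) : ℝ) / (4 * k)))) /
        ((n / 2).descFactorial m : ℝ) ≤ Real.exp (-X) := by
      have h7 : 0 < ((n / 2).descFactorial m : ℝ) := lt_of_lt_of_le (by positivity) h2
      rw [div_le_iff₀ h7]
      calc 1 + t * Real.exp (-(c * ((2 * L : ℕ) : ℝ) / (4 * k))) ≤ 2 := by linarith
        _ = Real.exp (-X) * (2 * Real.exp X) := by linarith
        _ ≤ _ := by gcongr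
    linarith

theorem flat_ev (δ : ℝ) (hδ : 0 < δ) (hδ1 : δ ≤ 1) (k : ℕ) (hk : 1 ≤ k) (c : ℝ) (hc : 0 < c)
    (hc1 : c ≤ 1) :
    ∀ᶠ n : ℕ in atTop, ∀ x : Fin k → Alt n, Good1 n (TE852.Rr (1 - δ / 4) n) c x →
      ∀ H : Subgroup (Alt n), (H.index : ℝ) ≤ Real.exp ((n : ℝ) ^ (1 - δ)) →
        ∀ f : Alt n → ℝ, (∀ h ∈ H, ∃ h', ∀ g, f (h' * g * h) = f g) → ∑ g, f g = 0 →
          ∀ l : ℕ, (l : ℝ) ≤ (n : ℝ) ^ (1 - δ) →
            ‖(TL (RR n) x ^ l) (vec f)‖ ^ 2 ≤ Real.exp (-(c / (14 * k) * l)) * ‖vec f‖ ^ 2 := by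
  filter_upwards [Pool.Agent.R236.Exc.params δ hδ hδ1] with n hpar
  intro x hx H hH f hf hf0 l hl
  obtain ⟨N, m, X, hX1, hN, hNn, hn1, hNj, hr, hm, hmr, hmn, hcard, hdesc, hXe, hXN⟩ := hpar
  have hk0 : (0 : ℝ) < k := by exact_mod_cast hk
  have hk1 : (1 : ℝ) ≤ k := by exact_mod_cast hk
  set L : ℕ := ⌈6 * k * X / c⌉₊ with hL
  have hLa : 6 * k * X / c ≤ L := Nat.le_ceil _
  have hLb : (L : ℝ) ≤ 6 * k * X / c + 1 := (Nat.ceil_lt_add_one (by positivity)).le
  have hkX : X ≤ k * X / c := by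
    rw [le_div_iff₀ hc]
    nlinarith
  have hX' : (n : ℝ) ^ (1 - δ) + 1 ≤ X / 2 := by
    rw [← Real.exp_add] at hXe
    have := Real.exp_le_exp.mp hXe
    linarith
  obtain ⟨h1, h2⟩ := flat_num n k m L c X _ hk hc hX1 hLa rfl hcard hdesc
  have hyp := irr_trace n k hk (TE852.Rr (1 - δ / 4) n) c (2 * Real.exp (-X)) hc x hx N m X hN
    hNn hn1 hNj hr hm hmr hmn hXN L h1 h2
  have key := flat_decay x L (2 * Real.exp (-X)) (by positivity) H f hf hf0 hyp
  have hlL : l ≤ L := by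
    have h3 : (l : ℝ) ≤ L := by
      have e : 6 * k * X / c = 6 * (k * X / c) := by ring
      rw [e] at hLa
      linarith
    exact_mod_cast h3
  set q : ℝ := Real.exp (-(c / (14 * k))) with hq
  have hqpow : ∀ i : ℕ, q ^ i = Real.exp (-(c / (14 * k) * i)) := by
    intro i
    rw [hq, ← Real.exp_nat_mul]
    congr 1
    ring
  rw [← hqpow]
  refine symm_logconv _ (TL_symm (RR n) x) _ q (Real.exp_pos _).le L (key.trans ?_) l hlL
  refine mul_le_mul_of_nonneg_right ?_ (sq_nonneg _)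
  have h3 : Real.exp (-(X / 2)) ≤ q ^ L := by
    rw [hqpow]
    apply Real.exp_le_exp.mpr
    have h4 : c / (14 * k) * L ≤ X / 2 := by
      rw [div_mul_eq_mul_div, div_le_iff₀ (by positivity)]
      have h5 : (L : ℝ) ≤ 7 * (k * X / c) := by
        have e : 6 * k * X / c = 6 * (k * X / c) := by ring
        rw [e] at hLb
        linarith
      calc c * L ≤ c * (7 * (k * X / c)) := by gcongr
        _ = X / 2 * (14 * k) := by
            field_simp
            norm_num
    linarith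
  refine le_trans ?_ h3
  calc (H.index : ℝ) * (2 * Real.exp (-X)) ≤ Real.exp ((n : ℝ) ^ (1 - δ)) * (2 * Real.exp (-X)) := by
        gcongr
    _ ≤ Real.exp (X / 2 - 1) * (Real.exp 1 * Real.exp (-X)) := by
        have e2 : (2 : ℝ) ≤ Real.exp 1 := by
          have := Real.add_one_le_exp (1 : ℝ)
          linarith
        gcongr
        linarith
    _ = Real.exp (-(X / 2)) := by
        rw [← Real.exp_add, ← Real.exp_add]
        congr 1
        ring

end

end H91DI
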