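import Pool.Agent.H91DI.Walk

/-!
Traces of powers of the walk in irreducible representations.
-/

set_option linter.unusedSectionVars false

namespace H91DI
open RC14 Finset
open scoped InnerProductSpace

noncomputable section

theorem irr_trace (n k : ℕ) (hk : 1 ≤ k) (r : ℕ) (c η : ℝ) (hc : 0 < c)
    (x : Fin k → Alt n) (hx : Good1 n r c x) (N m : ℕ) (X : ℝ) (hN : 100 ≤ N)
    (hNn : 2 * (12096 * N) ≤ n) (hn : 1000 ≤ n) (hNj : ∀ j, N * j ≤ n → j ≤ r)
    (hr : r + 2 ≤ n) (hm : m ≤ n / 2) (hmr : m ≤ r) (hmn : m + 2 ≤ n)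
    (hXN : X ≤ 1 / (2 * 336 * 12096 * (N : ℝ) ^ 2) * n) (L : ℕ)
    (h1 : Real.exp (-(c * L / (4 * k))) ≤ η)
    (h2 : Real.exp (-X) + (1 + Fintype.card (Tup m n) *
      Real.exp (-(c * ((2 * L : ℕ) : ℝ) / (4 * k)))) / ((n / 2).descFactorial m : ℝ) ≤ η)
    (V : Type) [NormedAddCommGroup V] [InnerProductSpace ℂ V] [FiniteDimensional ℂ V]
    (ρ : Alt n →* (V ≃ₗᵢ[ℂ] V)) (hirr : Irr ρ ⊤) (hnt : ∃ g v, ρ g v ≠ v) :
    rtr (TL ρ x ^ (2 * L)) ≤ η * Module.finrank ℂ V := by
  have hd : (0 : ℝ) ≤ Module.finrank ℂ V := Nat.cast_nonneg _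
  by_cases hno : ∀ K : Finset (Fin n), N * K.card ≤ n → ∀ v : V,
      (∀ h : Alt n, (∀ a ∈ K, (h : Equiv.Perm (Fin n)) a = a) → ρ h v = v) → v = 0
  · have hgapm : ∀ f : RC14.V m n, ∑ a, f a = 0 → c * ‖f‖ ^ 2 ≤ En (repA m n) x f :=
      FRV n m k hmn x c fun j h1 h2 => hx j h1 (h2.trans hmr)
    have hchar : ∀ g : Alt n, nfix (g : Equiv.Perm (Fin n)) ≤ n / 2 →
        ‖chr ρ g‖ ≤ Real.exp (-X) * Module.finrank ℂ V := by
      intro g hg
      have hm' : 36 * (n / (12096 * N)) ≤ n := by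
        calc 36 * (n / (12096 * N)) ≤ (12096 * N) * (n / (12096 * N)) :=
              Nat.mul_le_mul_right _ (by omega)
          _ ≤ n := Nat.mul_div_le _ _
      have key := LL14.HIGHN N hN n hn ρ hirr hno g (by omega) (n / (12096 * N)) hm'
      refine (pow_le_pow_iff_left₀ (norm_nonneg _) (by positivity) two_ne_zero).mp
        (key.trans ?_)
      rw [mul_pow]
      refine mul_le_mul_of_nonneg_right ((LL14.HCHARx.num N n hN hNn).trans ?_) (by positivity)
      apply pow_le_pow_left₀ (Real.exp_pos _).le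
      apply Real.exp_le_exp.mpr
      linarith
    have h3 := TRL n m k (n / 2) hk hm x c hc.le hgapm (2 * L) ρ
      (Real.exp (-X)) (by positivity) hchar
    refine h3.trans ?_
    gcongr
  · push Not at hno
    obtain ⟨K, hK, v0, hinv, hv0⟩ := hno
    have hKr := hNj _ hK
    have hj : K.card + 2 ≤ n := by omega
    have hg := Pool.Agent.R236.Exc.low_gap hj (K.orderEmbOfFin rfl).toEmbedding ρ hirr hnt v0 hv0
      (by
        intro h hh
        apply hinv
        intro a ha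
        have h1 : a ∈ Set.range (K.orderEmbOfFin rfl) := by
          rw [Finset.range_orderEmbOfFin]
          exact ha
        obtain ⟨i, rfl⟩ := h1
        exact DFunLike.congr_fun hh i) x c
      (FRV n K.card k hj x c fun j h1 h2 => hx j h1 (h2.trans hKr))
    refine (rtr_gap ρ hk x c hg L).trans ?_
    gcongr

end

end H91DI
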