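import Pool.Agent.H91DI.Iter
import Pool.Agent.H91DI.Trc
import Pool.Agent.H91DI.Cls

/-!
The spectral gap from short words for the 3-cycles.
-/

set_option linter.unusedSectionVars false

namespace H91DI
open RC14 Finset
open scoped InnerProductSpace

noncomputable section

section rep
variable {G : Type*} [Group G]
variable {V : Type*} [NormedAddCommGroup V] [InnerProductSpace ℂ V]

/-- the displacement by a word -/
lemma disp_word (ρ : G →* (V ≃ₗᵢ[ℂ] V)) {k : ℕ} (x : Fin k → G) (v : V) {g : G} {ℓ : ℕ}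
    (hg : IsW x g ℓ) : ‖ρ g v - v‖ ^ 2 ≤ (ℓ : ℝ) ^ 2 * En ρ x v := by
  obtain ⟨w, h1, h2, rfl⟩ := hg
  have hE : 0 ≤ En ρ x v := Finset.sum_nonneg fun i _ => sq_nonneg _
  set e : ℝ := Real.sqrt (En ρ x v) with he
  have he0 : 0 ≤ e := Real.sqrt_nonneg _
  have hone : ∀ i, ‖ρ (x i) v - v‖ ≤ e := by
    intro i
    apply Real.le_sqrt_of_sq_le
    exact Finset.single_le_sum (f := fun i => ‖ρ (x i) v - v‖ ^ 2) (fun i _ => sq_nonneg _)
      (Finset.mem_univ i)
  have hlet : ∀ y, (∃ i, y = x i ∨ y = (x i)⁻¹) → ‖ρ y v - v‖ ≤ e := by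
    rintro y ⟨i, rfl | rfl⟩
    · exact hone i
    · rw [HIGHA.disp_inv]
      exact hone i
  have hall : ∀ w : List G, (∀ y ∈ w, ∃ i, y = x i ∨ y = (x i)⁻¹) →
      ‖ρ w.prod v - v‖ ≤ w.length * e := by
    intro w
    induction w with
    | nil => intro _; simp
    | cons y w ih =>
      intro h
      rw [List.prod_cons, List.length_cons]
      have h3 := HIGHA.disp_mul ρ y w.prod v
      have h4 := hlet y (h y List.mem_cons_self)
      have h5 := ih fun a ha => h a (List.mem_cons_of_mem _ ha)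
      push_cast
      linarith
  have h3 := hall w h2
  have h4 : ‖ρ w.prod v - v‖ ≤ ℓ * e := by
    refine h3.trans ?_
    have : (w.length : ℝ) ≤ ℓ := by exact_mod_cast h1
    gcongr
  calc ‖ρ w.prod v - v‖ ^ 2 ≤ (ℓ * e) ^ 2 := pow_le_pow_left₀ (norm_nonneg _) h4 2
    _ = (ℓ : ℝ) ^ 2 * En ρ x v := by
        rw [mul_pow, he, Real.sq_sqrt hE]

lemma disp_expand (ρ : G →* (V ≃ₗᵢ[ℂ] V)) (g : G) (v : V) :
    ‖ρ g v - v‖ ^ 2 = 2 * ‖v‖ ^ 2 - 2 * (⟪ρ g v, v⟫_ℂ).re := by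
  rw [norm_sub_sq (𝕜 := ℂ), (ρ g).norm_map]
  change ‖v‖ ^ 2 - 2 * (⟪ρ g v, v⟫_ℂ).re + ‖v‖ ^ 2 = _
  ring

lemma En_cons (ρ : G →* (V ≃ₗᵢ[ℂ] V)) {k : ℕ} (z : G) (x : Fin k → G) (v : V) :
    En ρ x v ≤ En ρ (Fin.cons z x : Fin (k + 1) → G) v := by
  unfold En
  rw [Fin.sum_univ_succ]
  simp only [Fin.cons_zero, Fin.cons_succ]
  have := sq_nonneg ‖ρ z v - v‖
  linarith

end rep

section irr
variable {n : ℕ}
variable {V : Type*} [NormedAddCommGroup V] [InnerProductSpace ℂ V] [FiniteDimensional ℂ V]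

/-- in an irreducible representation of high level, 3-cycles move all vectors -/
theorem c3_all (N : ℕ) (hN : 100 ≤ N) (hn : 1000 ≤ n) (ρ : Alt n →* (V ≃ₗᵢ[ℂ] V))
    (hirr : Irr ρ ⊤)
    (hno : ∀ K : Finset (Fin n), N * K.card ≤ n → ∀ v : V,
      (∀ h : Alt n, (∀ a ∈ K, (h : Equiv.Perm (Fin n)) a = a) → ρ h v = v) → v = 0) (v : V) :
    1 / (7 * (N : ℝ)) * ‖v‖ ^ 2 * Fintype.card (Tup 3 n) ≤
      ∑ s : Tup 3 n, ‖ρ (c3 s) v - v‖ ^ 2 := by
  classical
  have hV : ∃ v : V, v ≠ 0 := by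
    by_contra hcon
    push Not at hcon
    apply hirr.1
    rw [Submodule.eq_bot_iff]
    intro v _
    exact hcon v
  obtain ⟨v0, hv0, h3⟩ := LL14.HIGHNx.highA N hN n hn ρ hV hno
  set B : Module.End ℂ V := ∑ s : Tup 3 n, op ρ (c3 s) with hB
  have hcomm : ∀ g, op ρ g * B = B * op ρ g := by
    intro g
    rw [hB, Finset.mul_sum, Finset.sum_mul,
      ← Equiv.sum_comp (mvE (g : Equiv.Perm (Fin n))) fun s => op ρ (c3 s) * op ρ g]
    refine Finset.sum_congr rfl fun s _ => ?_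
    have e : c3 (mvE (g : Equiv.Perm (Fin n)) s) = g * c3 s * g⁻¹ := c3_conj g s
    rw [e, ← op_mul, ← op_mul]
    congr 1
    group
  have hs := SCHUR ρ hirr B hcomm
  set μ : ℂ := LinearMap.trace ℂ V B / (Module.finrank ℂ V : ℂ) with hμ
  have hsum : ∀ v : V, ∑ s : Tup 3 n, ‖ρ (c3 s) v - v‖ ^ 2 =
      (2 * Fintype.card (Tup 3 n) - 2 * μ.re) * ‖v‖ ^ 2 := by
    intro v
    have h1 : (∑ s : Tup 3 n, (⟪ρ (c3 s) v, v⟫_ℂ).re) = μ.re * ‖v‖ ^ 2 := by
      rw [← Complex.re_sum, ← sum_inner]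
      have h2 : ∑ s : Tup 3 n, ρ (c3 s) v = μ • v := by
        have h4 := LinearMap.congr_fun hs v
        rw [hB, LinearMap.sum_apply] at h4
        simp only [op_apply, LinearMap.smul_apply, Module.End.one_apply] at h4
        exact h4
      rw [h2, inner_smul_left, inner_self_eq_norm_sq_to_K]
      have h5 : ((starRingEnd ℂ) μ * (‖v‖ : ℂ) ^ 2).re = μ.re * ‖v‖ ^ 2 := by
        rw [← Complex.ofReal_pow, mul_comm, Complex.re_ofReal_mul, Complex.conj_re, mul_comm]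
      exact h5
    rw [Finset.sum_congr rfl fun s _ => disp_expand ρ (c3 s) v, Finset.sum_sub_distrib,
      Finset.sum_const, ← Finset.mul_sum, h1, Finset.card_univ, nsmul_eq_mul]
    ring
  rw [hsum] at h3 ⊢
  have hv0' : 0 < ‖v0‖ ^ 2 := by
    have := norm_pos_iff.2 hv0
    positivity
  have h4 : 1 / (7 * (N : ℝ)) * Fintype.card (Tup 3 n) ≤
      2 * Fintype.card (Tup 3 n) - 2 * μ.re := by
    refine le_of_mul_le_mul_right ?_ hv0'
    calc _ = 1 / (7 * (N : ℝ)) * ‖v0‖ ^ 2 * Fintype.card (Tup 3 n) := by ring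
      _ ≤ _ := h3
  calc 1 / (7 * (N : ℝ)) * ‖v‖ ^ 2 * Fintype.card (Tup 3 n) =
      1 / (7 * (N : ℝ)) * Fintype.card (Tup 3 n) * ‖v‖ ^ 2 := by ring
    _ ≤ _ := mul_le_mul_of_nonneg_right h4 (sq_nonneg _)

/-- the gap in a nontrivial irreducible representation -/
theorem irr_gap {k : ℕ} (r : ℕ) (c : ℝ) (x : Fin k → Alt n) (hx : Good1 n r c x) (z : Alt n)
    (N : ℕ) (hN : 100 ≤ N) (hn : 1000 ≤ n) (hNj : ∀ j, N * j ≤ n → j ≤ r) (hr : r + 2 ≤ n)
    (Λ : ℕ) (hΛ : ∀ t : Tup 3 n, IsW (cz z x) (c3 t) Λ) (ρ : Alt n →* (V ≃ₗᵢ[ℂ] V))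
    (hirr : Irr ρ ⊤) (hnt : ∃ g v, ρ g v ≠ v) (v : V) :
    min c (1 / (7 * (N : ℝ) * (Λ : ℝ) ^ 2)) * ‖v‖ ^ 2 ≤ En ρ (cz z x) v := by
  by_cases hno : ∀ K : Finset (Fin n), N * K.card ≤ n → ∀ v : V,
      (∀ h : Alt n, (∀ a ∈ K, (h : Equiv.Perm (Fin n)) a = a) → ρ h v = v) → v = 0
  · have h1 := c3_all N hN hn ρ hirr hno v
    have h2 : ∑ s : Tup 3 n, ‖ρ (c3 s) v - v‖ ^ 2 ≤
        Fintype.card (Tup 3 n) * ((Λ : ℝ) ^ 2 * En ρ (cz z x) v) := by
      refine (Finset.sum_le_sum fun s _ => disp_word ρ (cz z x) v (hΛ s)).trans (le_of_eq ?_)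
      rw [Finset.sum_const, Finset.card_univ, nsmul_eq_mul]
    have hne : Nonempty (Tup 3 n) := ⟨Fin.castLEEmb (by omega)⟩
    have h3 : (0 : ℝ) < Fintype.card (Tup 3 n) := by exact_mod_cast Fintype.card_pos
    have h4 : 1 / (7 * (N : ℝ)) * ‖v‖ ^ 2 ≤ (Λ : ℝ) ^ 2 * En ρ (cz z x) v := by
      refine le_of_mul_le_mul_left ?_ h3
      calc Fintype.card (Tup 3 n) * (1 / (7 * (N : ℝ)) * ‖v‖ ^ 2) =
          1 / (7 * (N : ℝ)) * ‖v‖ ^ 2 * Fintype.card (Tup 3 n) := by ring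
        _ ≤ _ := h1.trans h2
    refine (mul_le_mul_of_nonneg_right (min_le_right _ _) (sq_nonneg _)).trans ?_
    have hE : 0 ≤ En ρ (cz z x) v := Finset.sum_nonneg fun i _ => sq_nonneg _
    rcases Nat.eq_zero_or_pos Λ with h5 | h5
    · rw [h5]
      simpa using hE
    · have h6 : (0 : ℝ) < (Λ : ℝ) ^ 2 := by
        have : (0 : ℝ) < Λ := by exact_mod_cast h5
        positivity
      refine le_of_mul_le_mul_left ?_ h6
      calc (Λ : ℝ) ^ 2 * (1 / (7 * (N : ℝ) * (Λ : ℝ) ^ 2) * ‖v‖ ^ 2) =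
          1 / (7 * (N : ℝ)) * ‖v‖ ^ 2 := by
            field_simp
        _ ≤ _ := h4
  · push Not at hno
    obtain ⟨K, hK, v0, hinv, hv0⟩ := hno
    have hKr := hNj _ hK
    have hj : K.card + 2 ≤ n := by omega
    have hg := Pool.Agent.R236.Exc.low_gap hj (K.orderEmbOfFin rfl).toEmbedding ρ hirr hnt v0 hv0
      (by
        intro h hh
        apply hinv
        intro a ha
        have h1 : a ∈ Set.range (K.orderEmbOfFin rfl) := by
          rw [Finset.range_orderEmbOfFin]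
          exact ha
        obtain ⟨i, rfl⟩ := h1
        exact DFunLike.congr_fun hh i) x c
      (FRV n K.card k hj x c fun j h1 h2 => hx j h1 (h2.trans hKr)) v
    exact (mul_le_mul_of_nonneg_right (min_le_left _ _) (sq_nonneg _)).trans
      (hg.trans (En_cons ρ z x v))

end irr

/-- from irreducible representations to functions on the group -/
theorem expanding_of_irr {n k : ℕ} (hk : 1 ≤ k) (x : Fin k → Alt n) (c : ℝ) (hc : 0 < c)
    (h : ∀ (V : Type) [NormedAddCommGroup V] [InnerProductSpace ℂ V] [FiniteDimensional ℂ V]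
      (ρ : Alt n →* (V ≃ₗᵢ[ℂ] V)), Irr ρ ⊤ → (∃ g v, ρ g v ≠ v) →
        ∀ v : V, c * ‖v‖ ^ 2 ≤ En ρ x v) : Expanding (c / (2 * k)) x := by
  refine FRALL n 0 k hk x c hc (fun j h1 h2 => absurd h1 (by omega)) ?_
  obtain ⟨M, W, -, hW, hmain⟩ := DECOMP (RR n) (HH 0 n) (HH_inv 0 n)
  intro f hf
  have key := hmain k x (fun _ => 1) c (fun _ => zero_le_one) (by
    intro i v hv
    obtain ⟨hirr, hle⟩ := hW i
    have h1 := h (W i) (res (RR n) (W i) hirr.2.1) (AMP1.irr_res (RR n) (W i) hirr) (by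
      by_contra hcon
      push Not at hcon
      apply hirr.1
      rw [Submodule.eq_bot_iff]
      intro F hF
      have hfix : ∀ g : Alt n, RR n g F = F := by
        intro g
        have := congrArg Subtype.val (hcon g ⟨F, hF⟩)
        exact this
      have hconst : ∀ g : Alt n, F g = F 1 := by
        intro g
        have h2 := congrArg (fun v : FA n => v 1) (hfix g)
        simp only [RR_apply, one_mul] at h2
        exact h2
      have h2 := (hle hF) 0 le_rfl (Function.Embedding.ofIsEmpty : Tup 0 n)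
      have h3 := congrArg (fun v : RC14.V 0 n => v (Function.Embedding.ofIsEmpty : Tup 0 n)) h2
      simp only [FR.marg_apply, PiLp.zero_apply] at h3
      have h4 : ∀ g : Alt n, (if mv (g : Equiv.Perm (Fin n))⁻¹
          (Function.Embedding.ofIsEmpty : Tup 0 n) = (Function.Embedding.ofIsEmpty : Tup 0 n)
          then F g else 0) = F 1 := by
        intro g
        rw [if_pos (Subsingleton.elim _ _), hconst g]
      rw [Finset.sum_congr rfl fun g _ => h4 g, Finset.sum_const, Finset.card_univ,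
        nsmul_eq_mul] at h3
      have h5 : (Fintype.card (Alt n) : ℂ) ≠ 0 := by exact_mod_cast Fintype.card_ne_zero
      have h6 : F 1 = 0 := (mul_eq_zero.1 h3).resolve_left h5
      ext g
      rw [hconst g, h6]
      rfl) ⟨v, hv⟩
    refine h1.trans (le_of_eq ?_)
    unfold En
    refine Finset.sum_congr rfl fun i _ => ?_
    rw [one_mul]
    rfl) f hf
  refine key.trans (le_of_eq ?_)
  unfold En
  refine Finset.sum_congr rfl fun i _ => ?_
  rw [one_mul]

end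

end H91DI
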