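import Mathlib

/-!
Every permutation is a product of two involutions; involutions as products of disjoint swaps.
-/

namespace H91DI
open Equiv Equiv.Perm

section
variable {α : Type*} [Fintype α] [DecidableEq α]

/-- a cycle is conjugate to its inverse by an involution on its support -/
lemma cycle_invo (σ : Perm α) (hσ : σ.IsCycle) :
    ∃ s : Perm α, s * s = 1 ∧ s * σ * s = σ⁻¹ ∧ s.support ⊆ σ.support := by
  classical
  set e := hσ.zpowersEquivSupport with he
  -- the involution on the support
  set f : Perm {x // x ∈ σ.support} := e.symm.trans ((Equiv.inv (Subgroup.zpowers σ)).trans e)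
    with hf
  have hff : f * f = 1 := by
    ext y
    simp [hf]
  have hfe : ∀ h : Subgroup.zpowers σ, f (e h) = e h⁻¹ := by
    intro h
    simp [hf]
  have hval : ∀ h : Subgroup.zpowers σ, ((e h : {x // x ∈ σ.support}) : α) =
      (h : Perm α) (Classical.choose hσ) := fun h => rfl
  set s : Perm α := ofSubtype f with hs
  have hs1 : ∀ h : Subgroup.zpowers σ, s ((h : Perm α) (Classical.choose hσ)) =
      ((h⁻¹ : Subgroup.zpowers σ) : Perm α) (Classical.choose hσ) := by
    intro h
    rw [← hval, hs, ofSubtype_apply_coe, hfe, hval]
  have hs2 : ∀ x, x ∉ σ.support → s x = x := by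
    intro x hx
    exact ofSubtype_apply_of_not_mem f hx
  refine ⟨s, ?_, ?_, ?_⟩
  · rw [hs, ← map_mul, hff, map_one]
  · ext x
    by_cases hx : x ∈ σ.support
    · obtain ⟨h, rfl⟩ : ∃ h : Subgroup.zpowers σ, (h : Perm α) (Classical.choose hσ) = x := by
        refine ⟨e.symm ⟨x, hx⟩, ?_⟩
        rw [← hval, Equiv.apply_symm_apply]
      set g : Subgroup.zpowers σ := ⟨σ, Subgroup.mem_zpowers σ⟩ with hg
      have hgh : ∀ h : Subgroup.zpowers σ, σ ((h : Perm α) (Classical.choose hσ)) =
        ((g * h : Subgroup.zpowers σ) : Perm α) (Classical.choose hσ) := fun h => rfl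
      simp only [mul_apply]
      rw [hs1, hgh, hs1, mul_inv_rev, inv_inv]
      obtain ⟨h, m, rfl⟩ := h
      change (σ ^ m * σ⁻¹) _ = (σ⁻¹ * σ ^ m) _
      rw [← zpow_neg_one, ← zpow_add, ← zpow_add, add_comm]
    · have hx' : σ x = x := by simpa using hx
      have hx'' : σ⁻¹ x = x := by
        rw [Perm.inv_eq_iff_eq, hx']
      simp only [mul_apply]
      rw [hs2 x hx, hx', hs2 x hx, hx'']
  · intro x hx
    by_contra h
    exact (mem_support.1 hx) (hs2 x h)

/-- every permutation is conjugate to its inverse by an involution -/
theorem invo (g : Perm α) :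
    ∃ s : Perm α, s * s = 1 ∧ s * g * s = g⁻¹ ∧ s.support ⊆ g.support := by
  classical
  induction g using cycle_induction_on with
  | base_one => exact ⟨1, by simp, by simp, by simp⟩
  | base_cycles σ hσ => exact cycle_invo σ hσ
  | induction_disjoint σ τ hd hσ h1 h2 =>
    obtain ⟨s, hs1, hs2, hs3⟩ := h1
    obtain ⟨t, ht1, ht2, ht3⟩ := h2
    have hd1 : Disjoint s τ := by
      rw [disjoint_iff_disjoint_support] at hd ⊢
      exact hd.mono_left hs3
    have hd2 : Disjoint σ t := by
      rw [disjoint_iff_disjoint_support] at hd ⊢
      exact hd.mono_right ht3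
    have hd3 : Disjoint s t := by
      rw [disjoint_iff_disjoint_support] at hd ⊢
      exact hd.mono hs3 ht3
    have c1 := hd1.commute.eq
    have c2 := hd2.commute.eq
    have c3 := hd3.commute.eq
    have c4 := hd.commute.eq
    refine ⟨s * t, ?_, ?_, ?_⟩
    · calc s * t * (s * t) = s * (t * s) * t := by simp only [mul_assoc]
        _ = (s * s) * (t * t) := by rw [← c3]; simp only [mul_assoc]
        _ = 1 := by rw [hs1, ht1, mul_one]
    · calc s * t * (σ * τ) * (s * t) = s * (t * σ) * (τ * s) * t := by simp only [mul_assoc]
        _ = s * (σ * t) * (s * τ) * t := by rw [c1, c2]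
        _ = s * σ * (t * s) * (τ * t) := by simp only [mul_assoc]
        _ = s * σ * (s * t) * (τ * t) := by rw [c3]
        _ = (s * σ * s) * (t * τ * t) := by simp only [mul_assoc]
        _ = (σ * τ)⁻¹ := by rw [hs2, ht2, mul_inv_rev, hd.inv_left.inv_right.commute.eq]
    · refine (support_mul_le s t).trans ?_
      rw [hd.support_mul]
      exact sup_le_sup hs3 ht3

/-- the product of the swaps of a list of pairs -/
def sws : List (α × α) → Perm α
  | [] => 1
  | q :: l => swap q.1 q.2 * sws l

/-- the entries -/
def ents : List (α × α) → List α
  | [] => []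
  | q :: l => q.1 :: q.2 :: ents l

lemma ents_length (l : List (α × α)) : (ents l).length = 2 * l.length := by
  induction l with
  | nil => rfl
  | cons q l ih => simp only [ents, List.length_cons, ih]; ring

/-- an involution is a product of disjoint swaps -/
theorem invo_sws (m : ℕ) : ∀ s : Perm α, s * s = 1 → s.support.card ≤ m →
    ∃ l : List (α × α), s = sws l ∧ (ents l).Nodup ∧ ∀ x ∈ ents l, x ∈ s.support := by
  induction m with
  | zero =>
    intro s _ h
    have : s = 1 := by
      rw [← support_eq_empty_iff, ← Finset.card_eq_zero]
      omega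
    exact ⟨[], this, by simp [ents], by simp [ents]⟩
  | succ m ih =>
    intro s hs h
    by_cases h1 : s = 1
    · exact ⟨[], h1, by simp [ents], by simp [ents]⟩
    · obtain ⟨x, hx⟩ : ∃ x, s x ≠ x := by
        by_contra hcon
        push Not at hcon
        exact h1 (Equiv.ext hcon)
      have hss : ∀ y, s (s y) = y := fun y => by
        rw [← mul_apply, hs, one_apply]
      set t : Perm α := swap x (s x) * s with ht
      have ht1 : t x = x := by
        rw [ht, mul_apply, swap_apply_right]
      have ht2 : t (s x) = s x := by
        rw [ht, mul_apply, hss, swap_apply_left]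
      have ht3 : ∀ y, y ≠ x → y ≠ s x → t y = s y := by
        intro y h1 h2
        rw [ht, mul_apply, swap_apply_of_ne_of_ne]
        · intro h3
          apply h2
          rw [← h3, hss]
        · intro h3
          apply h1
          exact s.injective h3
      have htt : t * t = 1 := by
        ext y
        rw [mul_apply, one_apply]
        by_cases e1 : y = x
        · rw [e1, ht1, ht1]
        · by_cases e2 : y = s x
          · rw [e2, ht2, ht2]
          · rw [ht3 y e1 e2, ht3, hss]
            · intro h3
              apply e2
              rw [← h3, hss]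
            · intro h3
              exact e1 (s.injective h3)
      have hsub : t.support ⊆ s.support.erase x := by
        intro y hy
        rw [Finset.mem_erase]
        rw [mem_support] at hy
        constructor
        · rintro rfl
          exact hy ht1
        · rw [mem_support]
          by_cases e1 : y = x
          · rw [e1] at hy
            exact absurd ht1 hy
          · by_cases e2 : y = s x
            · rw [e2] at hy
              exact absurd ht2 hy
            · rwa [ht3 y e1 e2] at hy
      have hcard : t.support.card ≤ m := by
        have := Finset.card_le_card hsub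
        rw [Finset.card_erase_of_mem (mem_support.2 hx)] at this
        omega
      obtain ⟨l, hl1, hl2, hl3⟩ := ih t htt hcard
      refine ⟨(x, s x) :: l, ?_, ?_, ?_⟩
      · rw [sws, ← hl1, ht, ← mul_assoc, swap_mul_self, one_mul]
      · rw [ents, List.nodup_cons, List.nodup_cons]
        refine ⟨?_, ?_, hl2⟩
        · rw [List.mem_cons]
          push Not
          refine ⟨hx.symm, fun h => ?_⟩
          exact (mem_support.1 (hl3 _ h)) ht1
        · intro h
          exact (mem_support.1 (hl3 _ h)) ht2
      · intro y hy
        rw [ents, List.mem_cons, List.mem_cons] at hy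
        rcases hy with rfl | rfl | hy
        · exact mem_support.2 hx
        · rw [mem_support]
          intro h3
          exact hx (s.injective h3)
        · exact (Finset.mem_erase.1 (hsub (hl3 _ hy))).2

end

end H91DI
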