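import Pool.Agent.H91DI.Small

/-!
From an element of small support to a 3-cycle by iterated commutators.
-/

set_option linter.unusedSectionVars false

namespace H91DI
open RC14 Finset Equiv

noncomputable section

variable {n k : ℕ}

lemma reach_of_mixed {x : Fin k → Alt n} {L p : ℕ} (h : Mixed x L p (1 / 100)) (s t : Tup p n) :
    ∃ g : Alt n, IsW x g L ∧ mv (g : Perm (Fin n)) s = t := by
  classical
  by_contra hcon
  push Not at hcon
  have h1 : Ew x L (fun u => if mv (u : Equiv.Perm (Fin n)) s = t then 1 else 0) ≤ 0 := by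
    calc Ew x L (fun u => if mv (u : Equiv.Perm (Fin n)) s = t then 1 else 0) ≤
        Ew x L (fun _ => 0) := by
          refine Ew_mono x L _ _ fun g hg => ?_
          rw [if_neg (hcon g hg)]
      _ = 0 := by simp [Ew]
  have hne : Nonempty (Tup p n) := ⟨s⟩
  have h2 := (abs_le.1 (h s t)).1
  have h3 : (0 : ℝ) < Fintype.card (Tup p n) := by exact_mod_cast Fintype.card_pos
  have h4 : (0 : ℝ) < 1 / (Fintype.card (Tup p n) : ℝ) := by positivity
  have e : 1 / 100 / (Fintype.card (Tup p n) : ℝ) =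
      1 / 100 * (1 / (Fintype.card (Tup p n) : ℝ)) := by ring
  rw [e] at h2
  linarith

lemma isW_cons' {G : Type*} [Group G] {k : ℕ} {x : Fin k → G} (g : G) {h : G} {L : ℕ}
    (hw : IsW x h L) : IsW (Fin.cons g x : Fin (k + 1) → G) h L := by
  obtain ⟨w, h1, h2, h3⟩ := hw
  refine ⟨w, h1, fun y hy => ?_, h3⟩
  obtain ⟨i, hi⟩ := h2 y hy
  exact ⟨i.succ, by simpa using hi⟩

lemma c3_conj (g : Alt n) (s : Tup 3 n) : c3 (mv (g : Perm (Fin n)) s) = g * c3 s * g⁻¹ := by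
  apply Subtype.ext
  change swap ((g : Perm (Fin n)) (s 0)) ((g : Perm (Fin n)) (s 1)) *
    swap ((g : Perm (Fin n)) (s 1)) ((g : Perm (Fin n)) (s 2)) =
    (g : Perm (Fin n)) * (swap (s 0) (s 1) * swap (s 1) (s 2)) * (g : Perm (Fin n))⁻¹
  rw [swap_apply_apply, swap_apply_apply]
  group

/-- the set of words of `x` and one more element -/
abbrev cz (z : Alt n) (x : Fin k → Alt n) : Fin (k + 1) → Alt n := Fin.cons z x

lemma inter_conj (z u : Perm (Fin n)) :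
    z.support ∩ (u⁻¹ * z * u).support = z.support.filter fun a => u a ∈ z.support := by
  ext a
  rw [Finset.mem_inter, mem_supp_conj, Finset.mem_filter]

/-- one commutator -/
theorem iter_step {x : Fin k → Alt n} {L : ℕ} (h2 : Mixed x L 2 (1 / 100))
    (h3 : Mixed x L 3 (1 / 100)) (z z' : Alt n) (ℓ : ℕ) (hz' : z' ≠ 1) (hw : IsW (cz z x) z' ℓ)
    (hn : 10 ≤ n) (hS : #(z' : Perm (Fin n)).support < n) :
    ∃ z'' : Alt n, z'' ≠ 1 ∧ IsW (cz z x) z'' (4 * ℓ + 4 * L) ∧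
      (#(z'' : Perm (Fin n)).support : ℝ) ≤
        3 + 309 / 100 * (#(z' : Perm (Fin n)).support : ℝ) ^ 2 / n := by
  have hz1 : (z' : Perm (Fin n)) ≠ 1 := by
    intro h
    apply hz'
    apply Subtype.ext
    exact h
  obtain ⟨u, hu, ⟨a, ha1, ha2, ha3⟩, hcard⟩ := meet_few h2 h3 (z' : Perm (Fin n)) hz1 hn hS
  set y : Alt n := u⁻¹ * z' * u with hy
  have hyv : (y : Perm (Fin n)) = (u : Perm (Fin n))⁻¹ * (z' : Perm (Fin n)) * u := rfl
  have huw : IsW (cz z x) u L := isW_cons' z hu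
  have hyw : IsW (cz z x) y (L + ℓ + L) := isW_mul (isW_mul (isW_inv huw) hw) huw
  refine ⟨z' * y * z'⁻¹ * y⁻¹, ?_, ?_, ?_⟩
  · intro h
    have h4 : (z' : Perm (Fin n)) * (y : Perm (Fin n)) * (z' : Perm (Fin n))⁻¹ *
        (y : Perm (Fin n))⁻¹ = 1 := congrArg Subtype.val h
    refine comm_ne_one _ _ a ?_ ?_ h4
    · rw [hyv, mem_supp_conj]
      exact ha2
    · rw [hyv, mem_supp_conj]
      exact ha3
  · refine isW_mono (isW_mul (isW_mul (isW_mul hw hyw) (isW_inv hw)) (isW_inv hyw)) ?_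
    omega
  · have h4 := comm_support (z' : Perm (Fin n)) (y : Perm (Fin n))
    rw [hyv, inter_conj] at h4
    have h5 : (#((z' : Perm (Fin n)) * ((u : Perm (Fin n))⁻¹ * (z' : Perm (Fin n)) * u) *
        (z' : Perm (Fin n))⁻¹ * ((u : Perm (Fin n))⁻¹ * (z' : Perm (Fin n)) * u)⁻¹).support : ℝ) ≤
        3 * (#((z' : Perm (Fin n)).support.filter fun a => (u : Perm (Fin n)) a ∈
          (z' : Perm (Fin n)).support) : ℝ) := by exact_mod_cast h4
    refine h5.trans ?_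
    calc 3 * (#((z' : Perm (Fin n)).support.filter fun a => (u : Perm (Fin n)) a ∈
          (z' : Perm (Fin n)).support) : ℝ) ≤
        3 * (1 + 103 / 100 * (#(z' : Perm (Fin n)).support : ℝ) ^ 2 / n) := by gcongr
      _ = _ := by ring

/-- the last commutator -/
theorem iter_last {x : Fin k → Alt n} {L : ℕ} (h1 : Mixed x L 1 (1 / 100))
    (h2 : Mixed x L 2 (1 / 100)) (z z' : Alt n) (ℓ : ℕ) (hz' : z' ≠ 1)
    (hw : IsW (cz z x) z' ℓ) (hn : 10 ≤ n)
    (hS : 2 * #(z' : Perm (Fin n)).support ^ 2 ≤ n) :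
    ∃ s : Tup 3 n, IsW (cz z x) (c3 s) (4 * ℓ + 4 * L) := by
  have hz1 : (z' : Perm (Fin n)) ≠ 1 := by
    intro h
    apply hz'
    apply Subtype.ext
    exact h
  have hS2 := Perm.two_le_card_support_of_ne_one hz1
  obtain ⟨u, hu, hcard⟩ := meet_one h1 h2 (z' : Perm (Fin n)).support (by omega) hn hS
  rw [← inter_conj, Finset.card_eq_one] at hcard
  obtain ⟨a, ha⟩ := hcard
  set y : Alt n := u⁻¹ * z' * u with hy
  have hyv : (y : Perm (Fin n)) = (u : Perm (Fin n))⁻¹ * (z' : Perm (Fin n)) * u := rfl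
  rw [← hyv] at ha
  have huw : IsW (cz z x) u L := isW_cons' z hu
  have hyw : IsW (cz z x) y (L + ℓ + L) := isW_mul (isW_mul (isW_inv huw) hw) huw
  have haD : a ∈ (z' : Perm (Fin n)).support ∩ (y : Perm (Fin n)).support := by
    rw [ha]; exact Finset.mem_singleton_self a
  rw [Finset.mem_inter] at haD
  obtain ⟨haz, hay⟩ := haD
  have hone : ∀ q, q ∈ (z' : Perm (Fin n)).support → q ∈ (y : Perm (Fin n)).support → q = a := by
    intro q h1 h2
    have : q ∈ (z' : Perm (Fin n)).support ∩ (y : Perm (Fin n)).support :=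
      Finset.mem_inter.2 ⟨h1, h2⟩
    rwa [ha, Finset.mem_singleton] at this
  have hzan : (z' : Perm (Fin n)) a ≠ a := Perm.mem_support.1 haz
  have hyan : (y : Perm (Fin n)) a ≠ a := Perm.mem_support.1 hay
  have hne : (z' : Perm (Fin n)) a ≠ (y : Perm (Fin n)) a := by
    intro h
    refine hzan (hone _ (Perm.apply_mem_support.2 haz) ?_)
    rw [h]
    exact Perm.apply_mem_support.2 hay
  refine ⟨tp3 a ((z' : Perm (Fin n)) a) ((y : Perm (Fin n)) a) hzan.symm hne hyan.symm, ?_⟩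
  have e : c3 (tp3 a ((z' : Perm (Fin n)) a) ((y : Perm (Fin n)) a) hzan.symm hne hyan.symm) =
      z' * y * z'⁻¹ * y⁻¹ := by
    apply Subtype.ext
    apply Equiv.ext
    intro p
    exact (comm_three (z' : Perm (Fin n)) (y : Perm (Fin n)) a ha p).symm
  rw [e]
  refine isW_mono (isW_mul (isW_mul (isW_mul hw hyw) (isW_inv hw)) (isW_inv hyw)) ?_
  omega

theorem iter_all {x : Fin k → Alt n} {L : ℕ} (h2 : Mixed x L 2 (1 / 100))
    (h3 : Mixed x L 3 (1 / 100)) (z : Alt n) (hz : z ≠ 1) (hn : 100000 ≤ n)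
    (hS : 4 * #(z : Perm (Fin n)).support ≤ n) (i : ℕ) :
    ∃ (z' : Alt n) (ℓ : ℕ), z' ≠ 1 ∧ ℓ + 2 * L ≤ 4 ^ i * (1 + 2 * L) ∧ IsW (cz z x) z' ℓ ∧
      ((#(z' : Perm (Fin n)).support : ℝ) ^ 4 ≤ (n : ℝ) ^ 3 ∨
        31 / 10 * (#(z' : Perm (Fin n)).support : ℝ) ≤ (31 / 40) ^ (2 ^ i) * n) := by
  have hn0 : (100000 : ℝ) ≤ n := by exact_mod_cast hn
  have hn1 : (0 : ℝ) < n := by linarith
  induction i with
  | zero =>
    refine ⟨z, 1, hz, by omega, ?_, Or.inr ?_⟩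
    · have := isW_gen (x := cz z x) 0
      simpa using this
    · have h4 : (4 : ℝ) * #(z : Perm (Fin n)).support ≤ n := by exact_mod_cast hS
      rw [pow_zero, pow_one]
      linarith
  | succ i ih =>
    obtain ⟨z', ℓ, hz', hℓ, hw, hcase⟩ := ih
    by_cases h4 : (#(z' : Perm (Fin n)).support : ℝ) ^ 4 ≤ (n : ℝ) ^ 3
    · refine ⟨z', ℓ, hz', hℓ.trans ?_, hw, Or.inl h4⟩
      gcongr
      · norm_num
      · omega
    · have h5 := hcase.resolve_left h4
      push Not at h4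
      set r : ℝ := (#(z' : Perm (Fin n)).support : ℝ) with hr
      have hr0 : 0 ≤ r := Nat.cast_nonneg _
      have hq : ((31 : ℝ) / 40) ^ (2 ^ i) ≤ 1 := pow_le_one₀ (by norm_num) (by norm_num)
      have hrn : r < n := by nlinarith
      obtain ⟨z'', hz'', hw'', hs''⟩ := iter_step h2 h3 z z' ℓ hz' hw (by omega) (by
        rw [hr] at hrn
        exact_mod_cast hrn)
      refine ⟨z'', 4 * ℓ + 4 * L, hz'', ?_, hw'', Or.inr ?_⟩
      · rw [pow_succ]
        nlinarith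
      · rw [← hr] at hs''
        -- `r ^ 2 ≥ 300 n`
        have h6 : 300 * (n : ℝ) ≤ r ^ 2 := by
          by_contra h
          push Not at h
          have h7 : (r ^ 2) ^ 2 < (300 * n) ^ 2 := pow_lt_pow_left₀ h (by positivity) two_ne_zero
          have h8 : (300 * (n : ℝ)) ^ 2 ≤ n ^ 3 := by nlinarith [sq_nonneg (n : ℝ)]
          have h9 : (r ^ 2) ^ 2 = r ^ 4 := by ring
          linarith
        have h7 : 3 ≤ 1 / 100 * (r ^ 2 / n) := by
          rw [mul_div_assoc', le_div_iff₀ hn1]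
          linarith
        have h8 : (#(z'' : Perm (Fin n)).support : ℝ) ≤ 31 / 10 * (r ^ 2 / n) := by
          refine hs''.trans ?_
          have : 309 / 100 * r ^ 2 / (n : ℝ) = 309 / 100 * (r ^ 2 / n) := by ring
          rw [this]
          linarith
        calc 31 / 10 * (#(z'' : Perm (Fin n)).support : ℝ) ≤ 31 / 10 * (31 / 10 * (r ^ 2 / n)) := by
              gcongr
          _ = (31 / 10 * r) ^ 2 / n := by ring
          _ ≤ ((31 / 40) ^ (2 ^ i) * n) ^ 2 / n := by gcongr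
          _ = (31 / 40) ^ (2 ^ (i + 1)) * n := by
              rw [pow_succ 2 i, pow_mul]
              field_simp

theorem exists_c3 {x : Fin k → Alt n} {L : ℕ} (h1 : Mixed x L 1 (1 / 100))
    (h2 : Mixed x L 2 (1 / 100)) (h3 : Mixed x L 3 (1 / 100)) (z : Alt n) (hz : z ≠ 1)
    (hn : 100000 ≤ n) (hS : 4 * #(z : Perm (Fin n)).support ≤ n) (i : ℕ)
    (hi : ((31 : ℝ) / 40) ^ (4 * 2 ^ i) * n ≤ 1) :
    ∃ s : Tup 3 n, IsW (cz z x) (c3 s) (4 ^ (i + 3) * (1 + 2 * L)) := by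
  have hn0 : (100000 : ℝ) ≤ n := by exact_mod_cast hn
  have hn1 : (0 : ℝ) < n := by linarith
  obtain ⟨z1, ℓ1, hz1, hℓ1, hw1, hc1⟩ := iter_all h2 h3 z hz hn hS i
  set r : ℝ := (#(z1 : Perm (Fin n)).support : ℝ) with hr
  have hr0 : 0 ≤ r := Nat.cast_nonneg _
  have hr4 : r ^ 4 ≤ (n : ℝ) ^ 3 := by
    rcases hc1 with h | h
    · exact h
    · have h4 : (31 / 10 * r) ^ 4 ≤ ((31 / 40) ^ (2 ^ i) * n) ^ 4 :=
        pow_le_pow_left₀ (by positivity) h 4
      have h5 : (((31 : ℝ) / 40) ^ (2 ^ i) * n) ^ 4 = ((31 / 40) ^ (4 * 2 ^ i) * n) * n ^ 3 := by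
        rw [mul_pow, ← pow_mul, mul_comm (2 ^ i) 4]
        ring
      rw [h5] at h4
      have h6 : ((31 : ℝ) / 40) ^ (4 * 2 ^ i) * n * n ^ 3 ≤ 1 * n ^ 3 := by gcongr
      have h7 : r ^ 4 ≤ (31 / 10 * r) ^ 4 := by
        apply pow_le_pow_left₀ hr0
        linarith
      linarith
  have hrn : r < n := by
    by_contra h
    push Not at h
    have h4 : (n : ℝ) ^ 4 ≤ r ^ 4 := pow_le_pow_left₀ hn1.le h 4
    have h5 : (n : ℝ) ^ 3 < n ^ 4 := by
      have : (0 : ℝ) < n ^ 3 := by positivity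
      nlinarith
    linarith
  -- second
  obtain ⟨z2, hz2, hw2, hs2⟩ := iter_step h2 h3 z z1 ℓ1 hz1 hw1 (by omega) (by
    rw [hr] at hrn
    exact_mod_cast hrn)
  rw [← hr] at hs2
  set r2 : ℝ := (#(z2 : Perm (Fin n)).support : ℝ) with hr2
  have hr20 : 0 ≤ r2 := Nat.cast_nonneg _
  have hr22 : r2 ^ 2 ≤ 16 * n := by
    obtain ⟨v, hv⟩ : ∃ v : ℝ, v = r ^ 2 / n := ⟨_, rfl⟩
    have hv0 : 0 ≤ v := by rw [hv]; positivity
    have hv2 : v ^ 2 ≤ n := by
      rw [hv, div_pow, div_le_iff₀ (by positivity)]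
      have e1 : (r ^ 2) ^ 2 = r ^ 4 := by ring
      have e2 : (n : ℝ) * (n : ℝ) ^ 2 = (n : ℝ) ^ 3 := by ring
      rw [e1, e2]
      exact hr4
    have h4 : r2 ≤ 3 + 309 / 100 * v := by
      refine hs2.trans (le_of_eq ?_)
      rw [hv]
      ring
    have h5 : r2 ^ 2 ≤ (3 + 309 / 100 * v) ^ 2 := pow_le_pow_left₀ hr20 h4 2
    have h6 : (3 + 309 / 100 * v) ^ 2 ≤ 2 * 9 + 2 * (309 / 100) ^ 2 * v ^ 2 ∨
        (3 + 309 / 100 * v) ^ 2 ≤ 16 * n := Or.inr (by
      nlinarith [sq_nonneg (v - 100), sq_nonneg (v - 20)])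
    rcases h6 with h6 | h6
    · nlinarith
    · linarith
  have hr2n : r2 < n := by
    by_contra h
    push Not at h
    nlinarith
  -- third
  obtain ⟨z3, hz3, hw3, hs3⟩ := iter_step h2 h3 z z2 _ hz2 hw2 (by omega) (by
    rw [hr2] at hr2n
    exact_mod_cast hr2n)
  rw [← hr2] at hs3
  have hs3' : (#(z3 : Perm (Fin n)).support : ℝ) < 53 := by
    have h4 : 309 / 100 * r2 ^ 2 / (n : ℝ) ≤ 309 / 100 * 16 := by
      rw [div_le_iff₀ hn1]
      nlinarith
    linarith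
  have hs3'' : #(z3 : Perm (Fin n)).support < 53 := by exact_mod_cast hs3'
  -- the last one
  obtain ⟨s, hs⟩ := iter_last h1 h2 z z3 _ hz3 hw3 (by omega) (by nlinarith)
  refine ⟨s, isW_mono hs ?_⟩
  have e : 4 ^ (i + 3) * (1 + 2 * L) = 64 * (4 ^ i * (1 + 2 * L)) := by
    rw [pow_add]
    ring
  rw [e]
  omega

/-- all 3-cycles are short words -/
theorem all_c3 {x : Fin k → Alt n} {L : ℕ} (h3 : Mixed x L 3 (1 / 100)) (z : Alt n) (s : Tup 3 n)
    (Λ : ℕ) (hs : IsW (cz z x) (c3 s) Λ) (t : Tup 3 n) : IsW (cz z x) (c3 t) (Λ + 2 * L) := by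
  obtain ⟨g, hg, rfl⟩ := reach_of_mixed h3 s t
  rw [c3_conj]
  have hg' : IsW (cz z x) g L := isW_cons' z hg
  exact isW_mono (isW_mul (isW_mul hg' hs) (isW_inv hg')) (by omega)

end

end H91DI
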