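import Pool.Agent.H91DI.Par

/-!
Assembly.
-/

set_option linter.unusedSectionVars false

namespace H91DI
open RC14 Finset Filter Topology
open scoped InnerProductSpace

noncomputable section

lemma isW_cons {G : Type*} [Group G] {k : ℕ} {x : Fin k → G} (g : G) {h : G} {L : ℕ}
    (hw : IsW x h L) : IsW (Fin.cons g x : Fin (k + 1) → G) h L := by
  obtain ⟨w, h1, h2, h3⟩ := hw
  refine ⟨w, h1, fun y hy => ?_, h3⟩
  obtain ⟨i, hi⟩ := h2 y hy
  exact ⟨i.succ, by simpa using hi⟩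

/-- the real bound for the length -/
lemma len_num (n k p L1 L2 j r : ℕ) (c t : ℝ) (hc : 0 < c) (hlog : 1 ≤ Real.log n)
    (hn : 1 ≤ n) (hj : 1 ≤ j) (hjr : r ≤ 8 * (4 * j)) (hr0 : 0 < r) (ht : (n : ℝ) ≤ t * (2 * r))
    (ht1 : 1 ≤ t) (hpn : p ≤ n)
    (hL1 : (L1 : ℝ) ≤ 12 * k * Real.log n / c + 1)
    (hL2 : (L2 : ℝ) ≤ 12 * k * p * Real.log n / c + 1) :
    ((8 * (n * (L1 + 1) + 2 * L2) * (n / (4 * j) + 1) : ℕ) : ℝ) ≤
      136 * (36 * k / c + 4) * (n * t) * Real.log n := by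
  have hn0 : (0 : ℝ) < n := by exact_mod_cast hn
  have hn1 : (1 : ℝ) ≤ n := by exact_mod_cast hn
  have hj0 : (0 : ℝ) < j := by exact_mod_cast hj
  have hr0' : (0 : ℝ) < r := by exact_mod_cast hr0
  have hk0 : (0 : ℝ) ≤ k := Nat.cast_nonneg _
  have hlog0 : 0 ≤ Real.log n := by linarith
  have h1 : ((n / (4 * j) : ℕ) : ℝ) ≤ 16 * t := by
    have h2 : ((n / (4 * j) : ℕ) : ℝ) ≤ (n : ℝ) / ((4 * j : ℕ) : ℝ) := Nat.cast_div_le
    refine h2.trans ?_
    rw [div_le_iff₀ (by positivity)]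
    have h3 : (r : ℝ) ≤ 8 * (4 * j) := by exact_mod_cast hjr
    push_cast
    have h4 : t * (2 * r) ≤ t * (2 * (8 * (4 * j))) := by gcongr
    calc (n : ℝ) ≤ t * (2 * r) := ht
      _ ≤ _ := h4
      _ = 16 * t * (4 * j) := by ring
  have h2 : (n : ℝ) * (L1 + 1) + 2 * L2 ≤ (36 * k / c + 4) * n * Real.log n := by
    have e1 : (n : ℝ) * (L1 + 1) ≤ n * (12 * k * Real.log n / c + 2) :=
      mul_le_mul_of_nonneg_left (by linarith) hn0.le
    have e2 : 12 * k * p * Real.log n / c ≤ 12 * k * n * Real.log n / c := by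
      have : (p : ℝ) ≤ n := by exact_mod_cast hpn
      gcongr
    have e3 : (n : ℝ) * (12 * k * Real.log n / c + 2) + 2 * (12 * k * n * Real.log n / c + 1) =
        36 * k / c * n * Real.log n + (2 * n + 2) := by ring
    have e4 : 2 * (n : ℝ) + 2 ≤ 4 * n * Real.log n := by nlinarith
    calc (n : ℝ) * (L1 + 1) + 2 * L2 ≤ (n : ℝ) * (12 * k * Real.log n / c + 2) +
          2 * (12 * k * n * Real.log n / c + 1) := by linarith
      _ = 36 * k / c * n * Real.log n + (2 * n + 2) := e3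
      _ ≤ 36 * k / c * n * Real.log n + 4 * n * Real.log n := by linarith
      _ = _ := by ring
  push_cast
  have h3 : ((n / (4 * j) : ℕ) : ℝ) + 1 ≤ 17 * t := by linarith
  have h5 : (0 : ℝ) ≤ (36 * k / c + 4) * n * Real.log n := by positivity
  calc 8 * ((n : ℝ) * (L1 + 1) + 2 * L2) * (((n / (4 * j) : ℕ) : ℝ) + 1)
      ≤ 8 * ((36 * k / c + 4) * n * Real.log n) * (17 * t) := by
        gcongr
    _ = _ := by ring

theorem main_ev (δ : ℝ) (hδ : 0 < δ) (hδ1 : δ ≤ 1 / 2) (k : ℕ) (hk : 1 ≤ k) (c : ℝ) (hc : 0 < c) :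
    ∀ᶠ n : ℕ in atTop, ∀ x : Fin k → Alt n, Good1 n (TE852.Rr (1 - δ / 4) n) c x →
      (Nat.card {g : Alt n // ¬ ∀ h : Alt n,
        IsW (Fin.cons g x : Fin (k + 1) → Alt n) h ⌊(n : ℝ) ^ (1 + δ)⌋₊} : ℝ) ≤
        1 / (n : ℝ) * Fintype.card (Alt n) := by
  filter_upwards [Pool.Agent.R236.Exc.params δ hδ (by linarith),
    ev_le (1 - δ / 4) 1 100 (by linarith), ev_const (1 - δ / 4) 100 (by linarith),
    ev_le 1 (2 * (1 - δ / 4)) 200 (by linarith),
    ev_log (1 + δ / 4) (1 + δ) (136 * (36 * k / c + 4)) (by linarith),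
    ev_log 0 (1 - δ) 2 (by linarith), ev_loggt 1, eventually_ge_atTop 1024]
    with n hpar hr1 hr2 hr3 hlen hX hlog hn
  intro x hx
  obtain ⟨N, m0, X, -, hN, hNn, hn1, hNj, hr, -, hmr0, -, -, -, hXe, hXN⟩ := hpar
  have hn0 : (0 : ℝ) < n := by exact_mod_cast (by omega : 0 < n)
  have hnr : (1024 : ℝ) ≤ n := by exact_mod_cast hn
  rw [Real.rpow_one] at hr1 hr3
  rw [Real.rpow_zero, mul_one] at hX
  set r : ℕ := TE852.Rr (1 - δ / 4) n with hrdef
  set s : ℝ := (n : ℝ) ^ (1 - δ / 4) with hs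
  have hrs : (r : ℝ) ≤ s := Nat.floor_le (by positivity)
  have hrs2 : s - 1 < r := by
    have := Nat.lt_floor_add_one s
    have e : r = ⌊s⌋₊ := rfl
    rw [e]
    linarith
  have hr99 : (99 : ℝ) < r := by linarith
  have hr99' : 99 < r := by exact_mod_cast hr99
  have hrn : 100 * r ≤ n := by
    have : (100 : ℝ) * r ≤ n := by linarith
    exact_mod_cast this
  -- `X` is large
  have hX4 : 4 * Real.log n ≤ X := by
    rw [← Real.exp_add] at hXe
    have h1 := Real.exp_le_exp.mp hXe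
    linarith
  -- the prime
  set M : ℕ := 2 * (n / 2) with hM
  have hMn : M ≤ n ∧ n ≤ M + 1 := by omega
  have hMr : M < (r / 4) * (2 * (r / 4)) := by
    have h1 : (s : ℝ) ^ 2 = (n : ℝ) ^ (2 * (1 - δ / 4)) := by
      rw [hs, ← Real.rpow_natCast, ← Real.rpow_mul hn0.le]
      congr 1
      push_cast
      ring
    rw [← h1] at hr3
    have h2 : s ≤ 8 * ((r / 4 : ℕ) : ℝ) := by
      have h3 : r ≤ 4 * (r / 4) + 3 := by omega
      have h4 : (r : ℝ) ≤ 4 * ((r / 4 : ℕ) : ℝ) + 3 := by exact_mod_cast h3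
      have h5 : 24 ≤ r / 4 := by omega
      have h6 : (24 : ℝ) ≤ ((r / 4 : ℕ) : ℝ) := by exact_mod_cast h5
      linarith
    have h3 : (n : ℝ) < ((r / 4 : ℕ) : ℝ) * (2 * ((r / 4 : ℕ) : ℝ)) := by
      have h4 : s ^ 2 ≤ (8 * ((r / 4 : ℕ) : ℝ)) ^ 2 := pow_le_pow_left₀ (by positivity) h2 2
      nlinarith
    have h4 : n < (r / 4) * (2 * (r / 4)) := by exact_mod_cast h3
    omega
  obtain ⟨p, hp, hp1, hp2, hpM⟩ := exists_p r M (by omega) (by omega) hMr
  set a : ℕ := M - p with ha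
  have hpa : ¬ p ∣ a := by
    intro h
    apply hpM
    have : M = a + p := by omega
    rw [this]
    exact h.add (dvd_refl p)
  set L1 : ℕ := ⌈12 * k * Real.log n / c⌉₊ with hL1
  set L2 : ℕ := ⌈12 * k * p * Real.log n / c⌉₊ with hL2
  have hk0 : (0 : ℝ) < k := by exact_mod_cast hk
  have hlog0 : 0 ≤ Real.log n := by linarith
  have hL1a : 12 * k * Real.log n / c ≤ L1 := Nat.le_ceil _
  have hL1b : (L1 : ℝ) ≤ 12 * k * Real.log n / c + 1 :=
    (Nat.ceil_lt_add_one (by positivity)).le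
  have hL2a : 12 * k * p * Real.log n / c ≤ L2 := Nat.le_ceil _
  have hL2b : (L2 : ℝ) ≤ 12 * k * p * Real.log n / c + 1 :=
    (Nat.ceil_lt_add_one (by positivity)).le
  -- traces
  obtain ⟨ht1, ht2⟩ := trace_num n k L1 c X hn hk hc hL1a hX4
  have hyp := irr_trace n k hk r c ((n : ℝ) ^ 3)⁻¹ hc x hx N 4 X hN hNn hn1 hNj hr (by omega)
    (by omega) (by omega) hXN L1 ht1 ht2
  have hbad := bad_count hk x L1 ((n : ℝ) ^ 3)⁻¹ (by positivity) (QQ n a p) (QQ_conj a p)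
    (QQ_inv a p) hyp
  have hQc := QQ_card (n := n) a p (by omega) hp.two_le (by omega) (by omega) (by omega)
    (by
      have : a + p = 2 * (n / 2) := by omega
      rw [this]
      exact even_two_mul _)
  -- tuples
  have hreach : ∀ s t : Tup p n, ∃ g : Alt n, IsW x g L2 ∧ mv (g : Equiv.Perm (Fin n)) s = t :=
    reach hk x c (FRV n p k (by omega) x c fun j h1 h2 => hx j h1 (h2.trans hp2)) L2
      (reach_num n k p L2 c hn hk hp.one_le hc hL2a)
  -- the length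
  set j : ℕ := (p - 1) / 4 with hj
  have hlenp : 8 * (n * (L1 + 1) + 2 * L2) * (n / (4 * j) + 1) ≤ ⌊(n : ℝ) ^ (1 + δ)⌋₊ := by
    apply Nat.le_floor
    have ht : (n : ℝ) ≤ (n : ℝ) ^ (δ / 4) * (2 * r) := by
      have h1 : s ≤ 2 * r := by linarith
      have h2 : (n : ℝ) = (n : ℝ) ^ (δ / 4) * s := by
        rw [hs, ← Real.rpow_add hn0]
        have : δ / 4 + (1 - δ / 4) = 1 := by ring
        rw [this, Real.rpow_one]
      calc (n : ℝ) = (n : ℝ) ^ (δ / 4) * s := h2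
        _ ≤ _ := by gcongr
    have h1 := len_num n k p L1 L2 j r c ((n : ℝ) ^ (δ / 4)) hc hlog (by omega) (by omega)
      (by omega) (by omega) ht (Real.one_le_rpow (by linarith) (by linarith)) (by omega) hL1b hL2b
    refine h1.trans ?_
    have h2 : (n : ℝ) * (n : ℝ) ^ (δ / 4) = (n : ℝ) ^ (1 + δ / 4) := by
      rw [Real.rpow_add hn0, Real.rpow_one]
    rw [h2]
    exact hlen
  -- the good elements
  have hgood : ∀ g : Alt n, (¬ ∀ h, IsW x h L1 → g * h ∉ QQ n a p) → ∀ h : Alt n,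
      IsW (Fin.cons g x : Fin (k + 1) → Alt n) h ⌊(n : ℝ) ^ (1 + δ)⌋₊ := by
    intro g hg h
    push Not at hg
    obtain ⟨u, hu1, hu2⟩ := hg
    refine isW_mono (diam_det (k + 1) p a L1 L2 j (Fin.cons g x) hp (by omega) (by omega)
      (by omega) (by omega) hpa (by omega) ⟨g * u, hu2, ?_⟩ ?_ h) hlenp
    · rw [add_comm L1 1]
      refine isW_mul ?_ (isW_cons g hu1)
      simpa using isW_gen (x := (Fin.cons g x : Fin (k + 1) → Alt n)) 0
    · intro s t
      obtain ⟨w, hw1, hw2⟩ := hreach s t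
      exact ⟨w, isW_cons g hw1, hw2⟩
  have hmono := RC14.card_mono (fun g : Alt n => ¬ ∀ h : Alt n,
      IsW (Fin.cons g x : Fin (k + 1) → Alt n) h ⌊(n : ℝ) ^ (1 + δ)⌋₊)
    (fun g => ∀ h, IsW x h L1 → g * h ∉ QQ n a p)
    (fun g hg => by
      by_contra h
      exact hg (hgood g h))
  set B : ℝ := (Nat.card {g : Alt n // ∀ h, IsW x h L1 → g * h ∉ QQ n a p} : ℝ) with hB
  have hA0 : (0 : ℝ) < Fintype.card (Alt n) := by exact_mod_cast Fintype.card_pos
  set A : ℝ := (Fintype.card (Alt n) : ℝ) with hA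
  have hB0 : 0 ≤ B := Nat.cast_nonneg _
  have h1 : B * A ≤ (1 / n * A) * A := by
    calc B * A ≤ B * (#(QQ n a p) * (n : ℝ) ^ 2) := by gcongr
      _ = (B * #(QQ n a p)) * (n : ℝ) ^ 2 := by ring
      _ ≤ (((n : ℝ) ^ 3)⁻¹ * A ^ 2) * (n : ℝ) ^ 2 := by gcongr
      _ = (1 / n * A) * A := by
          field_simp
  have h2 : B ≤ 1 / n * A := le_of_mul_le_mul_right h1 hA0
  refine le_trans ?_ h2
  rw [hB]
  exact_mod_cast hmono

end

end H91DI
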