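import Pool.Agent.H91DI.Reach

/-!
Averages over words: mixing on tuples.
-/

set_option linter.unusedSectionVars false

namespace H91DI
open RC14 Finset
open scoped InnerProductSpace

noncomputable section

variable {n k : ℕ}

/-- average over the words of length `L` -/
def Ew (x : Fin k → Alt n) (L : ℕ) (F : Alt n → ℝ) : ℝ :=
  (∑ w : Fin L → Fin k × Fin 4, F (wd x w)) / (4 * (k : ℝ)) ^ L

lemma Ew_add (x : Fin k → Alt n) (L : ℕ) (F F' : Alt n → ℝ) :
    Ew x L (fun g => F g + F' g) = Ew x L F + Ew x L F' := by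
  unfold Ew
  rw [Finset.sum_add_distrib, add_div]

lemma Ew_smul (x : Fin k → Alt n) (L : ℕ) (a : ℝ) (F : Alt n → ℝ) :
    Ew x L (fun g => a * F g) = a * Ew x L F := by
  unfold Ew
  rw [← Finset.mul_sum, mul_div_assoc]

lemma Ew_sum {ι : Type*} (x : Fin k → Alt n) (L : ℕ) (s : Finset ι) (F : ι → Alt n → ℝ) :
    Ew x L (fun g => ∑ i ∈ s, F i g) = ∑ i ∈ s, Ew x L (F i) := by
  unfold Ew
  rw [Finset.sum_comm, Finset.sum_div]

lemma Ew_mono (x : Fin k → Alt n) (L : ℕ) (F F' : Alt n → ℝ)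
    (h : ∀ g, IsW x g L → F g ≤ F' g) : Ew x L F ≤ Ew x L F' := by
  unfold Ew
  refine div_le_div_of_nonneg_right ?_ (by positivity)
  exact Finset.sum_le_sum fun w _ => h _ (isW_wd w)

lemma Ew_congr (x : Fin k → Alt n) (L : ℕ) (F F' : Alt n → ℝ)
    (h : ∀ g, F g = F' g) : Ew x L F = Ew x L F' := by
  congr 1
  funext g
  exact h g

/-- the words of length `L` are equidistributed on the `p`-tuples up to a factor `1 ± η` -/
def Mixed (x : Fin k → Alt n) (L p : ℕ) (η : ℝ) : Prop :=
  ∀ s t : Tup p n,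
    |Ew x L (fun u => if mv (u : Equiv.Perm (Fin n)) s = t then 1 else 0) -
      1 / (Fintype.card (Tup p n) : ℝ)| ≤ η / Fintype.card (Tup p n)

variable {p : ℕ}

theorem mixed_of_gap (hk : 1 ≤ k) (x : Fin k → Alt n) (c : ℝ)
    (hgap : ∀ f : RC14.V p n, ∑ a, f a = 0 → c * ‖f‖ ^ 2 ≤ En (repA p n) x f) (L : ℕ) (η : ℝ)
    (hη : 0 ≤ η)
    (hL : 4 * (Fintype.card (Tup p n) : ℝ) ^ 2 * Real.exp (-(c * L / (4 * k))) ≤ η ^ 2) :
    Mixed x L p η := by
  classical
  intro a b
  have hne : Nonempty (Tup p n) := ⟨a⟩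
  set N : ℝ := (Fintype.card (Tup p n) : ℝ) with hN
  have hN1 : (1 : ℝ) ≤ N := by
    rw [hN]
    exact_mod_cast (Fintype.card_pos : 0 < Fintype.card (Tup p n))
  have hN0 : (0 : ℝ) < N := by linarith
  have hNC : (Fintype.card (Tup p n) : ℂ) ≠ 0 := by exact_mod_cast Fintype.card_ne_zero
  set δa : RC14.V p n := EuclideanSpace.single a 1 with hδ
  set u : RC14.V p n := (1 / (Fintype.card (Tup p n) : ℂ)) • RET.one p n with hu
  have hv : δa - u ∈ mz p n := by
    rw [mem_mz]
    simp only [PiLp.sub_apply, Finset.sum_sub_distrib]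
    have h1 : ∑ b, δa b = 1 := by
      rw [hδ]
      simp
    have h2 : ∑ b, u b = 1 := by
      rw [hu]
      simp only [PiLp.smul_apply, RET.one_apply, smul_eq_mul, mul_one, Finset.sum_const,
        Finset.card_univ, nsmul_eq_mul]
      rw [mul_one_div, div_self hNC]
    rw [h1, h2, sub_self]
  have hdecay := TL_pow_norm (repA p n) hk x c (mz p n) (mz_TL x) (fun f hf => hgap f hf) L _ hv
  -- the coordinate at `b`
  have hcoord : ((TL (repA p n) x ^ L) (δa - u)) b =
      ((Ew x L (fun u => if mv (u : Equiv.Perm (Fin n)) a = b then 1 else 0) - 1 / N : ℝ) : ℂ) := by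
    have h1 : ((TL (repA p n) x ^ L) δa) b =
        ((Ew x L (fun u => if mv (u : Equiv.Perm (Fin n)) a = b then 1 else 0) : ℝ) : ℂ) := by
      rw [TL_pow (repA p n) hk, LinearMap.smul_apply, LinearMap.sum_apply, PiLp.smul_apply]
      rw [WithLp.ofLp_sum, Finset.sum_apply]
      unfold Ew
      push_cast
      rw [smul_eq_mul, one_div, inv_pow, ← div_eq_inv_mul]
      congr 1
      refine Finset.sum_congr rfl fun w _ => ?_
      rw [op_apply, repA_apply, hδ, PiLp.single_apply]
      have h2 : mv ((wd x w : Alt n) : Equiv.Perm (Fin n))⁻¹ b = a ↔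
          mv ((wd x w : Alt n) : Equiv.Perm (Fin n)) a = b := by
        constructor
        · rintro rfl
          rw [← mv_mul, mul_inv_cancel, mv_one]
        · rintro rfl
          rw [← mv_mul, inv_mul_cancel, mv_one]
      by_cases h : mv ((wd x w : Alt n) : Equiv.Perm (Fin n)) a = b
      · rw [if_pos (h2.2 h), if_pos h, Complex.ofReal_one]
      · rw [if_neg (fun h' => h (h2.1 h')), if_neg h, Complex.ofReal_zero]
    have h2 : (TL (repA p n) x ^ L) u = u := by
      have h3 : TL (repA p n) x u = u := by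
        rw [hu, map_smul, RET.TL_one hk]
      have h4 : ∀ L : ℕ, (TL (repA p n) x ^ L) u = u := by
        intro L
        induction L with
        | zero => simp
        | succ L ih => rw [pow_succ (TL (repA p n) x) L, Module.End.mul_apply, h3, ih]
      exact h4 L
    rw [map_sub, PiLp.sub_apply, h1, h2, hu, PiLp.smul_apply, RET.one_apply]
    push_cast
    simp [hN]
  have hlow : |Ew x L (fun u => if mv (u : Equiv.Perm (Fin n)) a = b then 1 else 0) - 1 / N| ^ 2 ≤
      ‖(TL (repA p n) x ^ L) (δa - u)‖ ^ 2 := by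
    rw [EuclideanSpace.norm_sq_eq]
    have h1 := Finset.single_le_sum (f := fun c => ‖((TL (repA p n) x ^ L) (δa - u)) c‖ ^ 2)
      (fun c _ => by positivity) (Finset.mem_univ b)
    refine le_trans (le_of_eq ?_) h1
    simp only [hcoord]
    rw [Complex.norm_real, Real.norm_eq_abs]
  have hnorm : ‖δa - u‖ ^ 2 ≤ 4 := by
    have h1 : ‖δa‖ = 1 := by
      rw [hδ, PiLp.norm_single]
      norm_num
    have h2 : ‖u‖ ≤ 1 := by
      have h3 : ‖u‖ ^ 2 ≤ 1 := by
        rw [EuclideanSpace.norm_sq_eq]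
        have h4 : ∀ c, ‖u c‖ ^ 2 = (1 / N) ^ 2 := by
          intro c
          rw [hu, PiLp.smul_apply, RET.one_apply, smul_eq_mul, mul_one, norm_div, norm_one,
            Complex.norm_natCast]
        simp only [h4, Finset.sum_const, Finset.card_univ, nsmul_eq_mul]
        rw [← hN]
        have : N * (1 / N) ^ 2 = 1 / N := by field_simp
        rw [this, div_le_one hN0]
        exact hN1
      nlinarith [norm_nonneg u]
    have h3 : ‖δa - u‖ ≤ 2 := by
      refine (norm_sub_le _ _).trans ?_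
      linarith
    nlinarith [norm_nonneg (δa - u)]
  refine (pow_le_pow_iff_left₀ (abs_nonneg _) (by positivity) two_ne_zero).1 ?_
  calc |Ew x L (fun u => if mv (u : Equiv.Perm (Fin n)) a = b then 1 else 0) - 1 / N| ^ 2
      ≤ Real.exp (-(c * L / (4 * k))) * 4 := by
        refine hlow.trans (hdecay.trans ?_)
        gcongr
    _ ≤ (η / N) ^ 2 := by
        rw [div_pow, le_div_iff₀ (by positivity)]
        linarith

/-- the distribution of the image of a tuple -/
lemma Mixed.upper {x : Fin k → Alt n} {L : ℕ} {η : ℝ} (h : Mixed x L p η) (s : Tup p n)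
    (B : Finset (Tup p n)) (F : Alt n → ℝ)
    (hF : ∀ u : Alt n, F u ≤ if mv (u : Equiv.Perm (Fin n)) s ∈ B then 1 else 0) :
    Ew x L F ≤ (1 + η) * #B / Fintype.card (Tup p n) := by
  classical
  have e : ∀ u : Alt n, (if mv (u : Equiv.Perm (Fin n)) s ∈ B then (1 : ℝ) else 0) =
      ∑ t ∈ B, if mv (u : Equiv.Perm (Fin n)) s = t then 1 else 0 := by
    intro u
    rw [Finset.sum_ite_eq]
  calc Ew x L F ≤ Ew x L (fun u => ∑ t ∈ B, if mv (u : Equiv.Perm (Fin n)) s = t then 1 else 0) :=
        Ew_mono x L _ _ fun g _ => (hF g).trans (e g).le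
    _ = ∑ t ∈ B, Ew x L (fun u => if mv (u : Equiv.Perm (Fin n)) s = t then 1 else 0) :=
        Ew_sum x L B _
    _ ≤ ∑ _t ∈ B, (1 + η) / Fintype.card (Tup p n) := by
        refine Finset.sum_le_sum fun t _ => ?_
        have h1 := (abs_le.1 (h s t)).2
        rw [add_div]
        linarith
    _ = _ := by
        rw [Finset.sum_const, nsmul_eq_mul]
        ring

lemma Mixed.lower {x : Fin k → Alt n} {L : ℕ} {η : ℝ} (h : Mixed x L p η) (s : Tup p n)
    (B : Finset (Tup p n)) (F : Alt n → ℝ)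
    (hF : ∀ u : Alt n, (if mv (u : Equiv.Perm (Fin n)) s ∈ B then 1 else 0) ≤ F u) :
    (1 - η) * #B / Fintype.card (Tup p n) ≤ Ew x L F := by
  classical
  have e : ∀ u : Alt n, (if mv (u : Equiv.Perm (Fin n)) s ∈ B then (1 : ℝ) else 0) =
      ∑ t ∈ B, if mv (u : Equiv.Perm (Fin n)) s = t then 1 else 0 := by
    intro u
    rw [Finset.sum_ite_eq]
  calc (1 - η) * #B / Fintype.card (Tup p n) = ∑ _t ∈ B, (1 - η) / Fintype.card (Tup p n) := by
        rw [Finset.sum_const, nsmul_eq_mul]
        ring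
    _ ≤ ∑ t ∈ B, Ew x L (fun u => if mv (u : Equiv.Perm (Fin n)) s = t then 1 else 0) := by
        refine Finset.sum_le_sum fun t _ => ?_
        have h1 := (abs_le.1 (h s t)).1
        rw [sub_div]
        linarith
    _ = Ew x L (fun u => ∑ t ∈ B, if mv (u : Equiv.Perm (Fin n)) s = t then 1 else 0) :=
        (Ew_sum x L B _).symm
    _ ≤ Ew x L F := Ew_mono x L _ _ fun g _ => (e g).symm.le.trans (hF g)

end

end H91DI
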