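import Pool.Agent.H91DI.Walk

/-!
Words in the generators and the diameter of the Schreier graphs on tuples.
-/

set_option linter.unusedSectionVars false

namespace H91DI
open RC14 Finset
open scoped InnerProductSpace

noncomputable section

section words
variable {G : Type*} [Group G]

/-- `g` is a product of at most `ℓ` letters `x_i^{±1}` -/
def IsW {k : ℕ} (x : Fin k → G) (g : G) (ℓ : ℕ) : Prop :=
  ∃ w : List G, w.length ≤ ℓ ∧ (∀ y ∈ w, ∃ i, y = x i ∨ y = (x i)⁻¹) ∧ w.prod = g

variable {k : ℕ} {x : Fin k → G}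

lemma isW_one : IsW x 1 0 := ⟨[], by simp, by simp, by simp⟩

lemma isW_gen (i : Fin k) : IsW x (x i) 1 :=
  ⟨[x i], by simp, by
    intro y hy
    rw [List.mem_singleton] at hy
    exact ⟨i, Or.inl hy⟩, by simp⟩

lemma isW_mono {g : G} {a b : ℕ} (h : IsW x g a) (hab : a ≤ b) : IsW x g b := by
  obtain ⟨w, h1, h2, h3⟩ := h
  exact ⟨w, h1.trans hab, h2, h3⟩

lemma isW_mul {g h : G} {a b : ℕ} (h1 : IsW x g a) (h2 : IsW x h b) : IsW x (g * h) (a + b) := by
  obtain ⟨w, h11, h12, h13⟩ := h1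
  obtain ⟨w', h21, h22, h23⟩ := h2
  refine ⟨w ++ w', by rw [List.length_append]; omega, ?_, by rw [List.prod_append, h13, h23]⟩
  intro y hy
  rcases List.mem_append.1 hy with hy | hy
  · exact h12 y hy
  · exact h22 y hy

lemma isW_inv {g : G} {a : ℕ} (h1 : IsW x g a) : IsW x g⁻¹ a := by
  obtain ⟨w, h11, h12, h13⟩ := h1
  refine ⟨(w.map fun y => y⁻¹).reverse, by simpa using h11, ?_, by
    rw [← h13, List.prod_inv_reverse]⟩
  intro y hy
  rw [List.mem_reverse, List.mem_map] at hy
  obtain ⟨z, hz, rfl⟩ := hy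
  obtain ⟨i, hi | hi⟩ := h12 z hz
  · exact ⟨i, Or.inr (by rw [hi])⟩
  · exact ⟨i, Or.inl (by rw [hi, inv_inv])⟩

lemma isW_pow {g : G} {a : ℕ} (h1 : IsW x g a) (m : ℕ) : IsW x (g ^ m) (m * a) := by
  induction m with
  | zero => simpa using isW_mono isW_one (Nat.zero_le _)
  | succ m ih =>
    rw [pow_succ, add_mul, one_mul]
    exact isW_mul ih h1

lemma isW_lt (s : Fin k × Fin 4) : IsW x (lt x s) 1 := by
  unfold lt
  split_ifs
  · exact isW_gen _
  · exact isW_inv (isW_gen _)
  · exact isW_mono isW_one (by norm_num)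

lemma isW_wd {L : ℕ} (w : Fin L → Fin k × Fin 4) : IsW x (wd x w) L := by
  induction L with
  | zero => simpa [wd] using isW_one
  | succ L ih =>
    have : wd x w = lt x (w 0) * wd x (fun i => w i.succ) := by
      simp [wd, List.ofFn_succ]
    rw [this]
    exact isW_mono (isW_mul (isW_lt _) (ih _)) (by omega)

end words

variable {p n : ℕ}

/-- the functions of mean zero -/
def mz (p n : ℕ) : Submodule ℂ (RC14.V p n) where
  carrier := {f | ∑ a, f a = 0}
  zero_mem' := by simp
  add_mem' := by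
    intro f g hf hg
    have h1 : ∑ a, f a = 0 := hf
    have h2 : ∑ a, g a = 0 := hg
    change ∑ a, (f + g) a = 0
    simp only [PiLp.add_apply, Finset.sum_add_distrib, h1, h2, add_zero]
  smul_mem' := by
    intro c f hf
    have h1 : ∑ a, f a = 0 := hf
    change ∑ a, (c • f) a = 0
    simp only [PiLp.smul_apply, smul_eq_mul, ← Finset.mul_sum, h1, mul_zero]

lemma mem_mz {f : RC14.V p n} : f ∈ mz p n ↔ ∑ a, f a = 0 := Iff.rfl

lemma mz_repA (g : Alt n) (f : RC14.V p n) : ∑ a, (repA p n g f) a = ∑ a, f a := by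
  simp only [repA_apply]
  exact Equiv.sum_comp (mvE (g : Equiv.Perm (Fin n))).symm fun a => f a

lemma mz_TL {k : ℕ} (x : Fin k → Alt n) (f : RC14.V p n) (hf : f ∈ mz p n) :
    TL (repA p n) x f ∈ mz p n := by
  rw [WORDS.TL_apply]
  refine (mz p n).smul_mem _ ((mz p n).add_mem hf ((mz p n).smul_mem _
    ((mz p n).sum_mem fun i _ => (mz p n).add_mem ?_ ?_)))
  · rw [mem_mz, mz_repA]
    exact hf
  · rw [mem_mz, mz_repA]
    exact hf

/-- the diameter of the Schreier graph on `p`-tuples -/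
theorem reach {k : ℕ} (hk : 1 ≤ k) (x : Fin k → Alt n) (c : ℝ)
    (hgap : ∀ f : RC14.V p n, ∑ a, f a = 0 → c * ‖f‖ ^ 2 ≤ En (repA p n) x f) (L : ℕ)
    (hL : 4 * (Fintype.card (Tup p n) : ℝ) ^ 2 * Real.exp (-(c * L / (4 * k))) < 1)
    (a b : Tup p n) : ∃ g : Alt n, IsW x g L ∧ mv (g : Equiv.Perm (Fin n)) a = b := by
  classical
  by_contra hcon
  push Not at hcon
  have hne : Nonempty (Tup p n) := ⟨a⟩
  set N : ℝ := (Fintype.card (Tup p n) : ℝ) with hN
  have hN1 : (1 : ℝ) ≤ N := by
    rw [hN]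
    exact_mod_cast (Fintype.card_pos : 0 < Fintype.card (Tup p n))
  have hN0 : (0 : ℝ) < N := by linarith
  have hNC : (Fintype.card (Tup p n) : ℂ) ≠ 0 := by exact_mod_cast Fintype.card_ne_zero
  set δa : RC14.V p n := EuclideanSpace.single a 1 with hδ
  set u : RC14.V p n := (1 / (Fintype.card (Tup p n) : ℂ)) • RET.one p n with hu
  have hv : δa - u ∈ mz p n := by
    rw [mem_mz]
    simp only [PiLp.sub_apply, Finset.sum_sub_distrib]
    have h1 : ∑ b, δa b = 1 := by
      rw [hδ]
      simp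
    have h2 : ∑ b, u b = 1 := by
      rw [hu]
      simp only [PiLp.smul_apply, RET.one_apply, smul_eq_mul, mul_one, Finset.sum_const,
        Finset.card_univ, nsmul_eq_mul]
      rw [mul_one_div, div_self hNC]
    rw [h1, h2, sub_self]
  have hdecay := TL_pow_norm (repA p n) hk x c (mz p n) (mz_TL x) (fun f hf => hgap f hf) L _ hv
  -- the coordinate at `b`
  have hcoord : ((TL (repA p n) x ^ L) (δa - u)) b = -(1 / (Fintype.card (Tup p n) : ℂ)) := by
    have h1 : ((TL (repA p n) x ^ L) δa) b = 0 := by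
      rw [TL_pow (repA p n) hk, LinearMap.smul_apply, LinearMap.sum_apply, PiLp.smul_apply]
      rw [WithLp.ofLp_sum, Finset.sum_apply, Finset.sum_eq_zero, smul_zero]
      intro w _
      rw [op_apply, repA_apply, hδ, PiLp.single_apply, if_neg]
      intro h
      apply hcon _ (isW_wd w)
      rw [← h, ← mv_mul, mul_inv_cancel, mv_one]
    have h2 : (TL (repA p n) x ^ L) u = u := by
      have h3 : TL (repA p n) x u = u := by
        rw [hu, map_smul, RET.TL_one hk]
      have h4 : ∀ L : ℕ, (TL (repA p n) x ^ L) u = u := by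
        intro L
        induction L with
        | zero => simp
        | succ L ih => rw [pow_succ (TL (repA p n) x) L, Module.End.mul_apply, h3, ih]
      exact h4 L
    rw [map_sub, PiLp.sub_apply, h1, h2, hu, PiLp.smul_apply, RET.one_apply]
    simp
  have hlow : (1 / N) ^ 2 ≤ ‖(TL (repA p n) x ^ L) (δa - u)‖ ^ 2 := by
    rw [EuclideanSpace.norm_sq_eq]
    have h1 := Finset.single_le_sum (f := fun c => ‖((TL (repA p n) x ^ L) (δa - u)) c‖ ^ 2)
      (fun c _ => by positivity) (Finset.mem_univ b)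
    refine le_trans (le_of_eq ?_) h1
    simp only [hcoord]
    rw [norm_neg, norm_div, norm_one, Complex.norm_natCast]
  have hnorm : ‖δa - u‖ ^ 2 ≤ 4 := by
    have h1 : ‖δa‖ = 1 := by
      rw [hδ, PiLp.norm_single]
      norm_num
    have h2 : ‖u‖ ≤ 1 := by
      have h3 : ‖u‖ ^ 2 ≤ 1 := by
        rw [EuclideanSpace.norm_sq_eq]
        have h4 : ∀ c, ‖u c‖ ^ 2 = (1 / N) ^ 2 := by
          intro c
          rw [hu, PiLp.smul_apply, RET.one_apply, smul_eq_mul, mul_one, norm_div, norm_one,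
            Complex.norm_natCast]
        simp only [h4, Finset.sum_const, Finset.card_univ, nsmul_eq_mul]
        rw [← hN]
        have : N * (1 / N) ^ 2 = 1 / N := by field_simp
        rw [this, div_le_one hN0]
        exact hN1
      nlinarith [norm_nonneg u]
    have h3 : ‖δa - u‖ ≤ 2 := by
      refine (norm_sub_le _ _).trans ?_
      linarith
    nlinarith [norm_nonneg (δa - u)]
  have h1 : (1 / N) ^ 2 ≤ Real.exp (-(c * L / (4 * k))) * 4 := by
    refine hlow.trans (hdecay.trans ?_)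
    gcongr
  have h2 : (1 : ℝ) ≤ 4 * N ^ 2 * Real.exp (-(c * L / (4 * k))) := by
    have h3 : (1 / N) ^ 2 * N ^ 2 = 1 := by field_simp
    calc (1 : ℝ) = (1 / N) ^ 2 * N ^ 2 := h3.symm
      _ ≤ (Real.exp (-(c * L / (4 * k))) * 4) * N ^ 2 := by gcongr
      _ = _ := by ring
  linarith

end

end H91DI
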