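import Pool.Agent.H91DI.Cls

/-!
Class functions on the alternating group: decay of the walk.
-/

set_option linter.unusedSectionVars false

namespace H91DI
open RC14 Finset
open scoped InnerProductSpace

noncomputable section

variable {n : ℕ}

/-- a real function as a vector -/
def vec (f : Alt n → ℝ) : FA n := WithLp.toLp 2 fun g => (f g : ℂ)

lemma vec_apply (f : Alt n → ℝ) (g : Alt n) : vec f g = f g := rfl

/-- left translation -/
def lmE (h : Alt n) : FA n ≃ₗᵢ[ℂ] FA n :=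
  LinearIsometryEquiv.piLpCongrLeft 2 ℂ ℂ (Equiv.mulLeft h)

lemma lmE_apply (h : Alt n) (v : FA n) (g : Alt n) : lmE h v g = v (h⁻¹ * g) := by
  simp [lmE, LinearIsometryEquiv.piLpCongrLeft_apply, Equiv.piCongrLeft']

lemma lmE_RR (h g : Alt n) (v : FA n) : lmE h (RR n g v) = RR n g (lmE h v) := by
  ext a
  rw [lmE_apply, RR_apply, RR_apply, lmE_apply, mul_assoc]

lemma lmE_TL {k : ℕ} (h : Alt n) (y : Fin k → Alt n) (v : FA n) :
    lmE h (TL (RR n) y v) = TL (RR n) y (lmE h v) := by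
  rw [WORDS.TL_apply, WORDS.TL_apply]
  simp only [map_smul, map_add, map_sum, lmE_RR]

lemma lmE_TL_pow {k : ℕ} (h : Alt n) (y : Fin k → Alt n) (L : ℕ) (v : FA n) :
    lmE h ((TL (RR n) y ^ L) v) = (TL (RR n) y ^ L) (lmE h v) := by
  induction L generalizing v with
  | zero => simp
  | succ L ih =>
    rw [pow_succ (TL (RR n) y) L, Module.End.mul_apply, Module.End.mul_apply, ih, lmE_TL]

/-- `C δ_a` is a translate of `f` -/
lemma Cf_single (f : Alt n → ℝ) (hf' : ∀ g, f g⁻¹ = f g)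
    (a : Alt n) : Cf (RR n) f (EuclideanSpace.single a 1) = lmE a (vec f) := by
  ext b
  rw [Cf_apply, WithLp.ofLp_sum, Finset.sum_apply, lmE_apply, vec_apply]
  rw [Finset.sum_eq_single (b⁻¹ * a)]
  · rw [PiLp.smul_apply, RR_apply, mul_inv_cancel_left, PiLp.single_apply, if_pos rfl, smul_eq_mul,
      mul_one]
    rw [← hf' (a⁻¹ * b), mul_inv_rev, inv_inv]
  · intro g _ hg
    rw [PiLp.smul_apply, RR_apply, PiLp.single_apply, if_neg, smul_zero]
    intro h
    apply hg
    rw [← h]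
    group
  · intro h
    exact absurd (Finset.mem_univ _) h

/-- decay of the walk on a class function -/
theorem cls_decay {k : ℕ} (y : Fin k → Alt n) (L : ℕ) (η : ℝ) (f : Alt n → ℝ)
    (hf : ∀ g h, f (h * g * h⁻¹) = f g) (hf' : ∀ g, f g⁻¹ = f g) (hf0 : ∑ g, f g = 0)
    (hyp : ∀ (U : Type) [NormedAddCommGroup U] [InnerProductSpace ℂ U] [FiniteDimensional ℂ U]
      (σ : Alt n →* (U ≃ₗᵢ[ℂ] U)), Irr σ ⊤ → (∃ g v, σ g v ≠ v) →
        rtr (TL σ y ^ (2 * L)) ≤ η * Module.finrank ℂ U) :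
    ‖(TL (RR n) y ^ L) (vec f)‖ ^ 2 ≤ η * ‖vec f‖ ^ 2 := by
  classical
  have hN : (0 : ℝ) < Fintype.card (Alt n) := by exact_mod_cast Fintype.card_pos
  have key := cls_trace y (2 * L) η f hf hf' hf0 hyp _ (FA n) (RR n) le_rfl
  set T := TL (RR n) y with hT
  set C := Cf (RR n) f with hC
  have hTs : (T ^ L).IsSymmetric := (TL_symm (RR n) y).pow L
  have hCs : C.IsSymmetric := Cf_symm (RR n) f hf'
  have hCT : T ^ L * C = C * T ^ L := by
    have h1 : T * C = C * T := by
      rw [hT, TL, smul_mul_assoc, mul_smul_comm, add_mul, mul_add, one_mul, mul_one,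
        smul_mul_assoc, mul_smul_comm, Finset.sum_mul, Finset.mul_sum]
      congr 3
      refine Finset.sum_congr rfl fun i _ => ?_
      rw [add_mul, mul_add, Cf_comm (RR n) f hf, Cf_comm (RR n) f hf]
    exact (Commute.pow_left h1 L)
  have e1 : rtr (C ^ 2) = Fintype.card (Alt n) * ‖vec f‖ ^ 2 := by
    unfold rtr
    rw [LinearMap.trace_eq_sum_inner _ (EuclideanSpace.basisFun (Alt n) ℂ), Complex.re_sum]
    have h1 : ∀ a, (⟪EuclideanSpace.basisFun (Alt n) ℂ a,
        (C ^ 2) (EuclideanSpace.basisFun (Alt n) ℂ a)⟫_ℂ).re = ‖vec f‖ ^ 2 := by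
      intro a
      rw [EuclideanSpace.basisFun_apply, sq, Module.End.mul_apply, ← hCs, hC,
        Cf_single f hf', inner_self_eq_norm_sq_to_K, (lmE a).norm_map]
      norm_cast
    rw [Finset.sum_congr rfl fun a _ => h1 a, Finset.sum_const, Finset.card_univ, nsmul_eq_mul]
  have e2 : rtr (T ^ (2 * L) * C ^ 2) = Fintype.card (Alt n) * ‖(T ^ L) (vec f)‖ ^ 2 := by
    unfold rtr
    rw [LinearMap.trace_eq_sum_inner _ (EuclideanSpace.basisFun (Alt n) ℂ), Complex.re_sum]
    have h1 : ∀ a, (⟪EuclideanSpace.basisFun (Alt n) ℂ a,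
        (T ^ (2 * L) * C ^ 2) (EuclideanSpace.basisFun (Alt n) ℂ a)⟫_ℂ).re =
        ‖(T ^ L) (vec f)‖ ^ 2 := by
      intro a
      have h2 : T ^ (2 * L) * C ^ 2 = C * (T ^ L * (T ^ L * C)) := by
        rw [two_mul, pow_add, sq, hCT]
        calc T ^ L * T ^ L * (C * C) = T ^ L * (T ^ L * C) * C := by simp only [mul_assoc]
          _ = T ^ L * (C * T ^ L) * C := by rw [hCT]
          _ = (T ^ L * C) * (T ^ L * C) := by simp only [mul_assoc]
          _ = (C * T ^ L) * (C * T ^ L) := by rw [hCT]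
          _ = _ := by simp only [mul_assoc]
      rw [EuclideanSpace.basisFun_apply, h2, Module.End.mul_apply, Module.End.mul_apply,
        Module.End.mul_apply, ← hCs, ← hTs, hC, Cf_single f hf', inner_self_eq_norm_sq_to_K,
        hT, ← lmE_TL_pow, (lmE a).norm_map]
      norm_cast
    rw [Finset.sum_congr rfl fun a _ => h1 a, Finset.sum_const, Finset.card_univ, nsmul_eq_mul]
  rw [e1, e2] at key
  have h3 : (Fintype.card (Alt n) : ℝ) * ‖(T ^ L) (vec f)‖ ^ 2 ≤
      Fintype.card (Alt n) * (η * ‖vec f‖ ^ 2) := by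
    calc _ ≤ _ := key
      _ = _ := by ring
  exact le_of_mul_le_mul_left h3 hN

end

end H91DI
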