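import Pool.Agent.H91DI.Gap3
import Pool.Agent.H91DI.Main
import Pool.Agent.H14R2.RC.R2d

/-!
The spectral gap from the diameter.
-/

set_option linter.unusedSectionVars false

namespace H91DI
open RC14 Finset Filter Topology
open scoped InnerProductSpace

noncomputable section

variable {n k : ℕ}

lemma sum_HH0 {f : FA n} (hf : f ∈ HH 0 n) : ∑ g, f g = 0 := by
  have h2 := hf 0 le_rfl (Function.Embedding.ofIsEmpty : Tup 0 n)
  have h3 := congrArg (fun v : RC14.V 0 n => v (Function.Embedding.ofIsEmpty : Tup 0 n)) h2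
  simp only [FR.marg_apply, PiLp.zero_apply] at h3
  rw [← h3]
  refine Finset.sum_congr rfl fun g _ => ?_
  rw [if_pos (Subsingleton.elim _ _)]

theorem expanding_of_diam (hk : 1 ≤ k) (x : Fin k → Alt n) (D : ℕ) (hD : 1 ≤ D)
    (h : ∀ g : Alt n, IsW x g D) : Expanding (1 / (k * (D : ℝ) ^ 2)) x := by
  have hk0 : (0 : ℝ) < k := by exact_mod_cast hk
  have hD0 : (0 : ℝ) < D := by exact_mod_cast hD
  have e : (1 / (k * (D : ℝ) ^ 2)) = (2 / (D : ℝ) ^ 2) / (2 * k) := by
    field_simp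
  rw [e]
  refine FRALL n 0 k hk x _ (by positivity) (fun j h1 h2 => absurd h1 (by omega)) ?_
  intro f hf
  have hG : (0 : ℝ) < Fintype.card (Alt n) := by exact_mod_cast Fintype.card_pos
  have h0 : ∑ g : Alt n, RR n g f = 0 := by
    ext a
    rw [WithLp.ofLp_sum, Finset.sum_apply]
    have : ∀ g : Alt n, (RR n g f) a = f (a * g) := fun g => RR_apply g f a
    rw [Finset.sum_congr rfl fun g _ => this g]
    have h5 : ∑ g : Alt n, f (a * g) = ∑ g, f g := Equiv.sum_comp (Equiv.mulLeft a) fun g => f g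
    rw [h5, sum_HH0 hf]
    rfl
  have h1 : ∑ g : Alt n, ‖RR n g f - f‖ ^ 2 = Fintype.card (Alt n) * (2 * ‖f‖ ^ 2) := by
    have h2 : ∑ g : Alt n, (⟪RR n g f, f⟫_ℂ).re = 0 := by
      rw [← Complex.re_sum, ← sum_inner, h0, inner_zero_left, Complex.zero_re]
    rw [Finset.sum_congr rfl fun g _ => disp_expand (RR n) g f, Finset.sum_sub_distrib,
      ← Finset.mul_sum (f := fun g : Alt n => (⟪RR n g f, f⟫_ℂ).re), h2, Finset.sum_const,
      Finset.card_univ, nsmul_eq_mul, mul_zero, sub_zero]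
  have h2 : ∑ g : Alt n, ‖RR n g f - f‖ ^ 2 ≤
      Fintype.card (Alt n) * ((D : ℝ) ^ 2 * En (RR n) x f) := by
    refine (Finset.sum_le_sum fun g _ => disp_word (RR n) x f (h g)).trans (le_of_eq ?_)
    rw [Finset.sum_const, Finset.card_univ, nsmul_eq_mul]
  rw [h1] at h2
  have h3 := le_of_mul_le_mul_left h2 hG
  rw [div_mul_eq_mul_div, div_le_iff₀ (by positivity)]
  linarith

end

end H91DI
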