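import Pool.Agent.H91DI.Comm

/-!
Short words for which a set meets its translate in few points.
-/

set_option linter.unusedSectionVars false

namespace H91DI
open RC14 Finset Equiv

noncomputable section

variable {n k : ℕ}

def tp1 (a : Fin n) : Tup 1 n := ⟨fun _ => a, fun _ _ _ => Subsingleton.elim _ _⟩

def tp2 (a b : Fin n) (h : a ≠ b) : Tup 2 n := ⟨![a, b], by
  intro i j hij
  fin_cases i <;> fin_cases j <;> simp_all [h.symm]⟩

def tp3 (a b c : Fin n) (hab : a ≠ b) (hbc : b ≠ c) (hac : a ≠ c) : Tup 3 n := ⟨![a, b, c], by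
  intro i j hij
  fin_cases i <;> fin_cases j <;> simp_all [hab.symm, hbc.symm, hac.symm]⟩

lemma card_T1 (S : Finset (Fin n)) : #(univ.filter fun t : Tup 1 n => t 0 ∈ S) = #S := by
  refine Finset.card_bij (fun t _ => t 0) ?_ ?_ ?_
  · intro t ht
    exact (Finset.mem_filter.1 ht).2
  · intro t _ t' _ h
    ext i
    rw [Subsingleton.elim i 0]
    exact congrArg Fin.val h
  · intro a ha
    exact ⟨tp1 a, Finset.mem_filter.2 ⟨Finset.mem_univ _, ha⟩, rfl⟩

lemma card_T2 (S : Finset (Fin n)) :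
    #(univ.filter fun t : Tup 2 n => t 0 ∈ S ∧ t 1 ∈ S) = #S.offDiag := by
  refine Finset.card_bij (fun t _ => (t 0, t 1)) ?_ ?_ ?_
  · intro t ht
    rw [Finset.mem_filter] at ht
    rw [Finset.mem_offDiag]
    refine ⟨ht.2.1, ht.2.2, fun h => ?_⟩
    have := t.injective h
    exact absurd this (by decide)
  · intro t _ t' _ h
    rw [Prod.mk.injEq] at h
    ext i
    fin_cases i
    · exact congrArg Fin.val h.1
    · exact congrArg Fin.val h.2
  · rintro ⟨a, b⟩ hab
    rw [Finset.mem_offDiag] at hab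
    exact ⟨tp2 a b hab.2.2, Finset.mem_filter.2 ⟨Finset.mem_univ _, hab.1, hab.2.1⟩, rfl⟩

lemma card_T2' (S : Finset (Fin n)) :
    #(univ.filter fun t : Tup 2 n => t 0 ∈ S ∧ t 1 ∉ S) = #S * #Sᶜ := by
  rw [← Finset.card_product]
  refine Finset.card_bij (fun t _ => (t 0, t 1)) ?_ ?_ ?_
  · intro t ht
    rw [Finset.mem_filter] at ht
    rw [Finset.mem_product, Finset.mem_compl]
    exact ht.2
  · intro t _ t' _ h
    rw [Prod.mk.injEq] at h
    ext i
    fin_cases i
    · exact congrArg Fin.val h.1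
    · exact congrArg Fin.val h.2
  · rintro ⟨a, b⟩ hab
    rw [Finset.mem_product, Finset.mem_compl] at hab
    have hne : a ≠ b := fun h => hab.2 (h ▸ hab.1)
    exact ⟨tp2 a b hne, Finset.mem_filter.2 ⟨Finset.mem_univ _, hab.1, hab.2⟩, rfl⟩

lemma card_T3 (S : Finset (Fin n)) :
    #(univ.filter fun t : Tup 3 n => t 0 ∈ S ∧ t 1 ∉ S ∧ t 2 ∈ S) = #S.offDiag * #Sᶜ := by
  rw [← Finset.card_product]
  refine Finset.card_bij (fun t _ => ((t 0, t 2), t 1)) ?_ ?_ ?_
  · intro t ht
    rw [Finset.mem_filter] at ht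
    rw [Finset.mem_product, Finset.mem_compl, Finset.mem_offDiag]
    refine ⟨⟨ht.2.1, ht.2.2.2, fun h => ?_⟩, ht.2.2.1⟩
    have := t.injective h
    exact absurd this (by decide)
  · intro t _ t' _ h
    rw [Prod.mk.injEq, Prod.mk.injEq] at h
    ext i
    fin_cases i
    · exact congrArg Fin.val h.1.1
    · exact congrArg Fin.val h.2
    · exact congrArg Fin.val h.1.2
  · rintro ⟨⟨a, c⟩, b⟩ hab
    rw [Finset.mem_product, Finset.mem_compl, Finset.mem_offDiag] at hab
    obtain ⟨⟨h1, h2, h3⟩, h4⟩ := hab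
    have hab : a ≠ b := fun h => h4 (h ▸ h1)
    have hbc : b ≠ c := fun h => h4 (h ▸ h2)
    exact ⟨tp3 a b c hab hbc h3, Finset.mem_filter.2 ⟨Finset.mem_univ _, h1, h4, h2⟩, rfl⟩

lemma card_tup (p n : ℕ) : (Fintype.card (Tup p n) : ℝ) = (n.descFactorial p : ℝ) := by
  rw [Fintype.card_embedding_eq, Fintype.card_fin, Fintype.card_fin]

lemma desc1 (n : ℕ) : (n.descFactorial 1 : ℝ) = n := by simp

lemma desc2 (n : ℕ) (hn : 1 ≤ n) : (n.descFactorial 2 : ℝ) = n * (n - 1) := by
  simp only [Nat.descFactorial_succ, Nat.descFactorial_zero, mul_one, Nat.sub_zero]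
  rw [Nat.cast_mul, Nat.cast_sub (by omega)]
  push_cast
  ring

lemma desc3 (n : ℕ) (hn : 2 ≤ n) : (n.descFactorial 3 : ℝ) = n * (n - 1) * (n - 2) := by
  simp only [Nat.descFactorial_succ, Nat.descFactorial_zero, mul_one, Nat.sub_zero]
  rw [Nat.cast_mul, Nat.cast_mul, Nat.cast_sub (by omega), Nat.cast_sub (by omega)]
  push_cast
  ring

/-- a small set meets some translate in exactly one point -/
theorem meet_one {x : Fin k → Alt n} {L : ℕ} (h1 : Mixed x L 1 (1 / 100))
    (h2 : Mixed x L 2 (1 / 100)) (S : Finset (Fin n)) (hS : 1 ≤ #S) (hn : 10 ≤ n)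
    (hSn : 2 * #S ^ 2 ≤ n) :
    ∃ u : Alt n, IsW x u L ∧ #(S.filter fun a => (u : Perm (Fin n)) a ∈ S) = 1 := by
  classical
  by_contra hcon
  push Not at hcon
  set r : ℝ := (#S : ℝ) with hr
  have hr1 : (1 : ℝ) ≤ r := by rw [hr]; exact_mod_cast hS
  have hrn : 2 * r ^ 2 ≤ n := by rw [hr]; exact_mod_cast hSn
  have hnr : (10 : ℝ) ≤ n := by exact_mod_cast hn
  set Y : Alt n → ℝ := fun u => ∑ a ∈ S, if (u : Perm (Fin n)) a ∈ S then 1 else 0 with hY
  have hYc : ∀ u : Alt n, Y u = (#(S.filter fun a => (u : Perm (Fin n)) a ∈ S) : ℝ) := by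
    intro u
    rw [hY]
    simp only [Finset.sum_boole]
  set Z : Alt n → ℝ := fun u => ∑ a ∈ S, ∑ b ∈ S.erase a,
    if ((u : Perm (Fin n)) a ∈ S ∧ (u : Perm (Fin n)) b ∈ S) then 1 else 0 with hZ
  have hYZ : ∀ u : Alt n, Y u * Y u = Y u + Z u := by
    intro u
    rw [hY, hZ]
    simp only
    rw [Finset.sum_mul_sum, ← Finset.sum_add_distrib]
    refine Finset.sum_congr rfl fun a ha => ?_
    rw [← Finset.add_sum_erase S _ ha]
    congr 1
    · split_ifs <;> simp
    · refine Finset.sum_congr rfl fun b _ => ?_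
      by_cases h3 : (u : Perm (Fin n)) a ∈ S <;> by_cases h4 : (u : Perm (Fin n)) b ∈ S <;>
        simp [h3, h4]
  have hle : Ew x L Y ≤ Ew x L Z := by
    refine Ew_mono x L _ _ fun u hu => ?_
    have h3 := hYZ u
    have h4 := hcon u hu
    have h5 := hYc u
    set m := #(S.filter fun a => (u : Perm (Fin n)) a ∈ S) with hm
    have h6 : (0 : ℝ) ≤ (m : ℝ) * ((m : ℝ) - 2) := by
      rcases Nat.eq_zero_or_pos m with h | h
      · rw [h]; simp
      · have h7 : 2 ≤ m := by omega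
        have h8 : (2 : ℝ) ≤ m := by exact_mod_cast h7
        exact mul_nonneg (by linarith) (by linarith)
    rw [h5] at h3 ⊢
    nlinarith
  have hlow : r * (99 / 100 * r / n) ≤ Ew x L Y := by
    rw [hY, Ew_sum]
    have : ∀ a ∈ S, 99 / 100 * r / n ≤
        Ew x L (fun u => if (u : Perm (Fin n)) a ∈ S then (1 : ℝ) else 0) := by
      intro a _
      have h3 := h1.lower (tp1 a) (univ.filter fun t : Tup 1 n => t 0 ∈ S)
        (fun u => if (u : Perm (Fin n)) a ∈ S then (1 : ℝ) else 0) (by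
          intro u
          refine le_of_eq ?_
          congr 1
          rw [Finset.mem_filter, eq_iff_iff]
          exact ⟨fun h => h.2, fun h => ⟨Finset.mem_univ _, h⟩⟩)
      rw [card_T1, card_tup, desc1] at h3
      refine le_trans (le_of_eq ?_) h3
      rw [← hr]
      ring
    refine le_trans (le_of_eq ?_) (Finset.sum_le_sum this)
    rw [Finset.sum_const, nsmul_eq_mul]
  have hup : Ew x L Z ≤ r * ((r - 1) * (101 / 100 * (r * r - r) / (n * (n - 1)))) := by
    rw [hZ, Ew_sum]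
    have : ∀ a ∈ S, Ew x L (fun u : Alt n => ∑ b ∈ S.erase a,
        if ((u : Perm (Fin n)) a ∈ S ∧ (u : Perm (Fin n)) b ∈ S) then (1 : ℝ) else 0) ≤
        (r - 1) * (101 / 100 * (r * r - r) / (n * (n - 1))) := by
      intro a ha
      rw [Ew_sum]
      have h5 : ∀ b ∈ S.erase a, Ew x L (fun u : Alt n =>
          if ((u : Perm (Fin n)) a ∈ S ∧ (u : Perm (Fin n)) b ∈ S) then (1 : ℝ) else 0) ≤
          101 / 100 * (r * r - r) / (n * (n - 1)) := by
        intro b hb
        have hab : a ≠ b := (Finset.ne_of_mem_erase hb).symm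
        have h3 := h2.upper (tp2 a b hab) (univ.filter fun t : Tup 2 n => t 0 ∈ S ∧ t 1 ∈ S)
          (fun u : Alt n =>
            if ((u : Perm (Fin n)) a ∈ S ∧ (u : Perm (Fin n)) b ∈ S) then (1 : ℝ) else 0) (by
            intro u
            refine le_of_eq ?_
            congr 1
            rw [Finset.mem_filter, eq_iff_iff]
            exact ⟨fun h => ⟨Finset.mem_univ _, h⟩, fun h => h.2⟩)
        rw [card_T2, card_tup, desc2 n (by omega), Finset.offDiag_card,
          Nat.cast_sub (Nat.le_mul_self _)] at h3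
        refine h3.trans (le_of_eq ?_)
        push_cast
        rw [← hr]
        ring
      refine (Finset.sum_le_sum h5).trans (le_of_eq ?_)
      rw [Finset.sum_const, nsmul_eq_mul, Finset.card_erase_of_mem ha, Nat.cast_sub hS,
        Nat.cast_one]
    refine (Finset.sum_le_sum this).trans (le_of_eq ?_)
    rw [Finset.sum_const, nsmul_eq_mul]
  have hfin := hlow.trans (hle.trans hup)
  have hn0 : (0 : ℝ) < n := by linarith
  have hn1 : (0 : ℝ) < (n : ℝ) - 1 := by linarith
  have e1 : r * (99 / 100 * r / n) * (n * (n - 1)) = 99 / 100 * r ^ 2 * (n - 1) := by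
    field_simp
  have e2 : r * ((r - 1) * (101 / 100 * (r * r - r) / (n * (n - 1)))) * (n * (n - 1)) =
      101 / 100 * r ^ 2 * (r - 1) ^ 2 := by
    field_simp
  have h3 := mul_le_mul_of_nonneg_right hfin (mul_pos hn0 hn1).le
  rw [e1, e2] at h3
  have hr2 : 0 < r ^ 2 := by positivity
  have h4 : 99 / 100 * ((n : ℝ) - 1) ≤ 101 / 100 * (r - 1) ^ 2 := by
    by_contra h
    push Not at h
    nlinarith
  nlinarith

/-- a set meets some translate in few points but in a nontrivial way -/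
theorem meet_few {x : Fin k → Alt n} {L : ℕ} (h2 : Mixed x L 2 (1 / 100))
    (h3 : Mixed x L 3 (1 / 100)) (z : Perm (Fin n)) (hz : z ≠ 1) (hn : 10 ≤ n)
    (hSn : #z.support < n) :
    ∃ u : Alt n, IsW x u L ∧ (∃ a ∈ z.support, (u : Perm (Fin n)) a ∈ z.support ∧
      (u : Perm (Fin n)) (z a) ∉ z.support) ∧
      (#(z.support.filter fun a => (u : Perm (Fin n)) a ∈ z.support) : ℝ) ≤
        1 + 103 / 100 * (#z.support : ℝ) ^ 2 / n := by
  classical
  by_contra hcon
  push Not at hcon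
  set S := z.support with hSdef
  set r : ℝ := (#S : ℝ) with hr
  have hS2 : 2 ≤ #S := Perm.two_le_card_support_of_ne_one hz
  have hr2 : (2 : ℝ) ≤ r := by rw [hr]; exact_mod_cast hS2
  have hrn : r < n := by rw [hr]; exact_mod_cast hSn
  have hnr : (10 : ℝ) ≤ n := by exact_mod_cast hn
  have hcompl : (#Sᶜ : ℝ) = n - r := by
    rw [Finset.card_compl, Fintype.card_fin, Nat.cast_sub hSn.le]
  set T : ℝ := 1 + 103 / 100 * r ^ 2 / n with hT
  have hzS : ∀ a ∈ S, z a ∈ S ∧ z a ≠ a := fun a ha =>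
    ⟨Perm.apply_mem_support.2 ha, Perm.mem_support.1 ha⟩
  set Y : Alt n → ℝ := fun u => ∑ a ∈ S, if (u : Perm (Fin n)) a ∈ S then 1 else 0 with hY
  have hYc : ∀ u : Alt n, Y u = (#(S.filter fun a => (u : Perm (Fin n)) a ∈ S) : ℝ) := by
    intro u
    rw [hY]
    simp only [Finset.sum_boole]
  set X : Alt n → ℝ := fun u => ∑ a ∈ S,
    if ((u : Perm (Fin n)) a ∈ S ∧ (u : Perm (Fin n)) (z a) ∉ S) then 1 else 0 with hX
  set Z : Alt n → ℝ := fun u => ∑ a ∈ S, ∑ b ∈ (S.erase a).erase (z a),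
    if ((u : Perm (Fin n)) a ∈ S ∧ (u : Perm (Fin n)) (z a) ∉ S ∧ (u : Perm (Fin n)) b ∈ S)
      then 1 else 0 with hZ
  have hXY : ∀ u : Alt n, X u * Y u = X u + Z u := by
    intro u
    rw [hX, hY, hZ]
    simp only
    rw [Finset.sum_mul_sum, ← Finset.sum_add_distrib]
    refine Finset.sum_congr rfl fun a ha => ?_
    obtain ⟨hza, hzn⟩ := hzS a ha
    rw [← Finset.add_sum_erase S _ ha,
      ← Finset.add_sum_erase (S.erase a) _ (Finset.mem_erase.2 ⟨hzn, hza⟩), ← add_assoc]
    congr 1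
    · by_cases h4 : (u : Perm (Fin n)) a ∈ S <;> by_cases h5 : (u : Perm (Fin n)) (z a) ∈ S <;>
        simp [h4, h5]
    · refine Finset.sum_congr rfl fun b _ => ?_
      by_cases h4 : (u : Perm (Fin n)) a ∈ S <;> by_cases h5 : (u : Perm (Fin n)) (z a) ∈ S <;>
        by_cases h6 : (u : Perm (Fin n)) b ∈ S <;> simp [h4, h5, h6]
  have hX0 : ∀ u : Alt n, 0 ≤ X u := by
    intro u
    rw [hX]
    refine Finset.sum_nonneg fun a _ => ?_
    split_ifs <;> norm_num
  have hle : Ew x L (fun u => T * X u) ≤ Ew x L (fun u => X u + Z u) := by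
    refine Ew_mono x L _ _ fun u hu => ?_
    rw [← hXY u]
    by_cases h : ∃ a ∈ S, (u : Perm (Fin n)) a ∈ S ∧ (u : Perm (Fin n)) (z a) ∉ S
    · obtain ⟨a, h4, h5, h6⟩ := h
      have h7 := hcon u hu ⟨a, h4, h5, h6⟩
      rw [← hYc] at h7
      rw [mul_comm]
      exact mul_le_mul_of_nonneg_left h7.le (hX0 u)
    · push Not at h
      have h7 : X u = 0 := by
        rw [hX]
        refine Finset.sum_eq_zero fun a ha => ?_
        rw [if_neg]
        rintro ⟨h8, h9⟩
        exact h9 (h a ha h8)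
      rw [h7]
      simp
  rw [Ew_smul, Ew_add] at hle
  have hlow : r * (99 / 100 * (r * (n - r)) / (n * (n - 1))) ≤ Ew x L X := by
    rw [hX, Ew_sum]
    have : ∀ a ∈ S, 99 / 100 * (r * (n - r)) / (n * (n - 1)) ≤ Ew x L (fun u : Alt n =>
        if ((u : Perm (Fin n)) a ∈ S ∧ (u : Perm (Fin n)) (z a) ∉ S) then (1 : ℝ) else 0) := by
      intro a ha
      obtain ⟨hza, hzn⟩ := hzS a ha
      have h4 := h2.lower (tp2 a (z a) hzn.symm)
        (univ.filter fun t : Tup 2 n => t 0 ∈ S ∧ t 1 ∉ S) (fun u : Alt n =>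
        if ((u : Perm (Fin n)) a ∈ S ∧ (u : Perm (Fin n)) (z a) ∉ S) then (1 : ℝ) else 0) (by
          intro u
          refine le_of_eq ?_
          congr 1
          rw [Finset.mem_filter, eq_iff_iff]
          exact ⟨fun h => h.2, fun h => ⟨Finset.mem_univ _, h⟩⟩)
      rw [card_T2', card_tup, desc2 n (by omega)] at h4
      refine le_trans (le_of_eq ?_) h4
      push_cast
      rw [hcompl, ← hr]
      ring
    refine le_trans (le_of_eq ?_) (Finset.sum_le_sum this)
    rw [Finset.sum_const, nsmul_eq_mul]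
  have hup : Ew x L Z ≤
      r * ((r - 2) * (101 / 100 * ((r * r - r) * (n - r)) / (n * (n - 1) * (n - 2)))) := by
    rw [hZ, Ew_sum]
    have : ∀ a ∈ S, Ew x L (fun u : Alt n => ∑ b ∈ (S.erase a).erase (z a),
        if ((u : Perm (Fin n)) a ∈ S ∧ (u : Perm (Fin n)) (z a) ∉ S ∧
          (u : Perm (Fin n)) b ∈ S) then (1 : ℝ) else 0) ≤
        (r - 2) * (101 / 100 * ((r * r - r) * (n - r)) / (n * (n - 1) * (n - 2))) := by
      intro a ha
      obtain ⟨hza, hzn⟩ := hzS a ha
      rw [Ew_sum]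
      have h5 : ∀ b ∈ (S.erase a).erase (z a), Ew x L (fun u : Alt n =>
          if ((u : Perm (Fin n)) a ∈ S ∧ (u : Perm (Fin n)) (z a) ∉ S ∧
            (u : Perm (Fin n)) b ∈ S) then (1 : ℝ) else 0) ≤
          101 / 100 * ((r * r - r) * (n - r)) / (n * (n - 1) * (n - 2)) := by
        intro b hb
        have hbz : z a ≠ b := (Finset.ne_of_mem_erase hb).symm
        have hab : a ≠ b := (Finset.ne_of_mem_erase (Finset.mem_of_mem_erase hb)).symm
        have h4 := h3.upper (tp3 a (z a) b hzn.symm hbz hab)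
          (univ.filter fun t : Tup 3 n => t 0 ∈ S ∧ t 1 ∉ S ∧ t 2 ∈ S)
          (fun u : Alt n =>
            if ((u : Perm (Fin n)) a ∈ S ∧ (u : Perm (Fin n)) (z a) ∉ S ∧
              (u : Perm (Fin n)) b ∈ S) then (1 : ℝ) else 0) (by
            intro u
            refine le_of_eq ?_
            congr 1
            rw [Finset.mem_filter, eq_iff_iff]
            exact ⟨fun h => ⟨Finset.mem_univ _, h⟩, fun h => h.2⟩)
        rw [card_T3, card_tup, desc3 n (by omega), Nat.cast_mul, Finset.offDiag_card,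
          Nat.cast_sub (Nat.le_mul_self _), hcompl] at h4
        refine h4.trans (le_of_eq ?_)
        push_cast
        rw [← hr]
        ring
      refine (Finset.sum_le_sum h5).trans (le_of_eq ?_)
      rw [Finset.sum_const, nsmul_eq_mul,
        Finset.card_erase_of_mem (Finset.mem_erase.2 ⟨hzn, hza⟩), Finset.card_erase_of_mem ha,
        Nat.sub_sub, Nat.cast_sub hS2, ← hr]
      norm_num
    refine (Finset.sum_le_sum this).trans (le_of_eq ?_)
    rw [Finset.sum_const, nsmul_eq_mul]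
  have hT0 : 0 ≤ T - 1 := by
    rw [hT]
    have : 0 ≤ 103 / 100 * r ^ 2 / (n : ℝ) := by positivity
    linarith
  have hfin : (T - 1) * (r * (99 / 100 * (r * (n - r)) / (n * (n - 1)))) ≤
      r * ((r - 2) * (101 / 100 * ((r * r - r) * (n - r)) / (n * (n - 1) * (n - 2)))) := by
    have := mul_le_mul_of_nonneg_left hlow hT0
    linarith
  have hn0 : (0 : ℝ) < n := by linarith
  have hn1 : (0 : ℝ) < (n : ℝ) - 1 := by linarith
  have hn2 : (0 : ℝ) < (n : ℝ) - 2 := by linarith
  have hnr0 : (0 : ℝ) < (n : ℝ) - r := by linarith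
  have e1 : (T - 1) * (r * (99 / 100 * (r * (n - r)) / (n * (n - 1)))) *
      (n * (n * (n - 1) * (n - 2))) =
      103 / 100 * (99 / 100) * (r ^ 4 * (n - r) * (n - 2)) := by
    rw [hT]
    field_simp
    ring
  have e2 : r * ((r - 2) * (101 / 100 * ((r * r - r) * (n - r)) / (n * (n - 1) * (n - 2)))) *
      (n * (n * (n - 1) * (n - 2))) = 101 / 100 * (r ^ 2 * (r - 2) * (r - 1) * (n - r) * n) := by
    field_simp
  have h4 := mul_le_mul_of_nonneg_right hfin
    (by positivity : 0 ≤ (n : ℝ) * (n * (n - 1) * (n - 2)))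
  rw [e1, e2] at h4
  have h5 : (0 : ℝ) < r ^ 2 * (n - r) := by positivity
  have h6 : 101 / 100 * (r ^ 2 * (r - 2) * (r - 1) * (n - r) * n) <
      103 / 100 * (99 / 100) * (r ^ 4 * (n - r) * (n - 2)) := by
    have h7 : 101 / 100 * ((r - 2) * (r - 1) * n) < 103 / 100 * (99 / 100) * (r ^ 2 * (n - 2)) := by
      have h8 : (r - 2) * (r - 1) * n ≤ r ^ 2 * (n - 2) := by nlinarith
      have h9 : 0 < r ^ 2 * ((n : ℝ) - 2) := by positivity
      linarith
    have := mul_lt_mul_of_pos_left h7 h5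
    calc 101 / 100 * (r ^ 2 * (r - 2) * (r - 1) * (n - r) * n) =
        r ^ 2 * (n - r) * (101 / 100 * ((r - 2) * (r - 1) * n)) := by ring
      _ < _ := this
      _ = _ := by ring
  linarith

end

end H91DI
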