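import Pool.Agent.H91DI.Bad
import Pool.Agent.H91DI.Blk3

/-!
Permutations with two cycles of coprime lengths.
-/

set_option linter.unusedSectionVars false

namespace H91DI
open RC14 Finset Equiv Equiv.Perm
open scoped InnerProductSpace Nat

noncomputable section

section
variable {α : Type*} [Fintype α] [DecidableEq α]

/-- a power of a permutation of type `{a, p}`, `p` not dividing `a`, is a `p`-cycle -/
lemma pow_type (u : Perm α) (a p : ℕ) (hp : p.Prime) (hpa : ¬ p ∣ a)
    (hu : u.cycleType = {a, p}) : IsPC p (u ^ a) := by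
  have h1 : p ∈ u.cycleType := by rw [hu]; simp
  obtain ⟨c, τ, rfl, hd, hc, hcp⟩ := mem_cycleType_iff.1 h1
  rw [hd.cycleType_mul, hc.cycleType, hcp] at hu
  have h2 : τ.cycleType = {a} := by
    have h3 : ({p} : Multiset ℕ) + τ.cycleType = {p} + {a} := by
      rw [hu]
      exact Multiset.pair_comm a p
    exact add_left_cancel h3
  have h3 : τ ^ a = 1 := by
    have hτ : τ.IsCycle := by
      rw [← card_cycleType_eq_one, h2, Multiset.card_singleton]
    have h4 : orderOf τ = a := by
      rw [← lcm_cycleType, h2]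
      simp
    rw [← h4]
    exact pow_orderOf_eq_one τ
  have h4 : (c * τ) ^ a = c ^ a := by
    rw [hd.commute.mul_pow, h3, mul_one]
  have hord : orderOf c = p := by rw [hc.orderOf, hcp]
  rw [h4]
  refine ⟨?_, ?_⟩
  · rw [hc.pow_iff, hord]
    exact (Nat.Coprime.symm ((Nat.Prime.coprime_iff_not_dvd hp).2 hpa))
  · rw [hc.support_pow_eq_iff.2, hcp]
    rw [hord]
    exact hpa

/-- conjugation by permutations which agree on the support -/
lemma conj_agree (y σ w : Perm α) (h : ∀ x ∈ y.support, w x = σ x) :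
    w * y * w⁻¹ = σ * y * σ⁻¹ := by
  have h1 : Disjoint (σ⁻¹ * w) y := by
    intro x
    by_cases hx : x ∈ y.support
    · left
      rw [mul_apply, h x hx]
      simp
    · right
      simpa using hx
  have h2 := h1.commute.eq
  calc w * y * w⁻¹ = σ * ((σ⁻¹ * w) * y) * w⁻¹ := by group
    _ = σ * (y * (σ⁻¹ * w)) * w⁻¹ := by rw [h2]
    _ = σ * y * σ⁻¹ := by group

end

variable {n : ℕ}

/-- the even permutations with cycles of lengths `a`, `p` and no other nontrivial cycle -/
def QQ (n a p : ℕ) : Finset (Alt n) :=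
  Finset.univ.filter fun g : Alt n => (g : Perm (Fin n)).cycleType = {a, p}

lemma QQ_conj (a p : ℕ) (g h : Alt n) : h * g * h⁻¹ ∈ QQ n a p ↔ g ∈ QQ n a p := by
  simp only [QQ, Finset.mem_filter, Finset.mem_univ, true_and, Subgroup.coe_mul,
    InvMemClass.coe_inv, cycleType_conj]

lemma QQ_inv (a p : ℕ) (g : Alt n) : g⁻¹ ∈ QQ n a p ↔ g ∈ QQ n a p := by
  simp only [QQ, Finset.mem_filter, Finset.mem_univ, true_and, InvMemClass.coe_inv,
    cycleType_inv]

/-- the number of such permutations -/
lemma QQ_card (a p : ℕ) (ha : 2 ≤ a) (hp : 2 ≤ p) (hap : a ≠ p) (hsum : a + p ≤ n)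
    (hsum' : n ≤ a + p + 1) (heven : Even (a + p)) :
    (Fintype.card (Alt n) : ℝ) ≤ #(QQ n a p) * (n : ℝ) ^ 2 := by
  classical
  have h1 := card_of_cycleType_mul_eq (Fin n) ({a, p} : Multiset ℕ)
  have hs : ({a, p} : Multiset ℕ).sum = a + p := by simp
  have hpr : ({a, p} : Multiset ℕ).prod = a * p := by simp
  have hfac : (∏ m ∈ ({a, p} : Multiset ℕ).toFinset, (({a, p} : Multiset ℕ).count m)!) = 1 := by
    refine Finset.prod_eq_one fun m hm => ?_
    have hnd : ({a, p} : Multiset ℕ).Nodup := by
      simp [hap]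
    have := Multiset.nodup_iff_count_le_one.1 hnd m
    interval_cases h : Multiset.count m ({a, p} : Multiset ℕ) <;> rfl
  rw [if_pos, hfac, hs, hpr, mul_one, Fintype.card_fin] at h1
  swap
  · refine ⟨by rw [hs, Fintype.card_fin]; exact hsum, ?_⟩
    intro b hb
    simp only [Multiset.insert_eq_cons, Multiset.mem_cons, Multiset.mem_singleton] at hb
    rcases hb with rfl | rfl
    · exact ha
    · exact hp
  have h2 : (n - (a + p))! = 1 := by
    have : n - (a + p) = 0 ∨ n - (a + p) = 1 := by omega
    rcases this with h | h <;> rw [h] <;> rfl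
  rw [h2, one_mul] at h1
  -- the filter as a set of even permutations
  have h3 : #(QQ n a p) = #(Finset.univ.filter fun g : Perm (Fin n) => g.cycleType = {a, p}) := by
    refine Finset.card_bij (fun g _ => (g : Perm (Fin n))) ?_ ?_ ?_
    · intro g hg
      rw [QQ, Finset.mem_filter] at hg
      rw [Finset.mem_filter]
      exact ⟨Finset.mem_univ _, hg.2⟩
    · intro g _ h _ e
      exact Subtype.ext e
    · intro g hg
      rw [Finset.mem_filter] at hg
      refine ⟨⟨g, ?_⟩, ?_, rfl⟩
      · rw [mem_alternatingGroup, sign_of_cycleType, hg.2, hs]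
        have hc : Multiset.card ({a, p} : Multiset ℕ) = 2 := rfl
        rw [hc]
        exact (heven.add even_two).neg_one_pow
      · rw [QQ, Finset.mem_filter]
        exact ⟨Finset.mem_univ _, hg.2⟩
  have h4 : Fintype.card (Alt n) ≤ n ! := by
    have := Fintype.card_le_of_injective (fun g : Alt n => (g : Perm (Fin n)))
      Subtype.val_injective
    rwa [Fintype.card_perm, Fintype.card_fin] at this
  have h5 : n ! ≤ #(QQ n a p) * n ^ 2 := by
    rw [h3, ← h1]
    refine Nat.mul_le_mul_left _ ?_
    rw [sq]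
    exact Nat.mul_le_mul (by omega) (by omega)
  exact_mod_cast h4.trans h5

end

end H91DI
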