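import Pool.Agent.R236.ExcD

/-!
Norm estimates for the lazy walk operator.
-/

set_option linter.unusedSectionVars false

namespace H91DI
open RC14 Finset
open scoped InnerProductSpace

noncomputable section

section
variable {G : Type*} [Group G] [Fintype G]
variable {V : Type*} [NormedAddCommGroup V] [InnerProductSpace ℂ V] [FiniteDimensional ℂ V]

/-- the walk is a contraction -/
lemma walk_contr (ρ : G →* (V ≃ₗᵢ[ℂ] V)) {k : ℕ} (hk : 1 ≤ k) (y : Fin k → G) (v : V) :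
    ‖(1 / (2 * (k : ℂ))) • ∑ i, (ρ (y i) v + ρ (y i)⁻¹ v)‖ ≤ ‖v‖ := by
  have hk0 : (0 : ℝ) < k := by exact_mod_cast hk
  rw [norm_smul]
  have h1 : ‖∑ i, (ρ (y i) v + ρ (y i)⁻¹ v)‖ ≤ 2 * k * ‖v‖ := by
    refine (norm_sum_le _ _).trans ?_
    have h2 : ∀ i ∈ (Finset.univ : Finset (Fin k)), ‖ρ (y i) v + ρ (y i)⁻¹ v‖ ≤ 2 * ‖v‖ := by
      intro i _
      refine (norm_add_le _ _).trans ?_
      rw [(ρ (y i)).norm_map, (ρ (y i)⁻¹).norm_map]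
      linarith
    refine (Finset.sum_le_sum h2).trans ?_
    rw [Finset.sum_const, Finset.card_univ, Fintype.card_fin, nsmul_eq_mul]
    apply le_of_eq
    ring
  have h3 : ‖(1 / (2 * (k : ℂ)))‖ = 1 / (2 * k) := by
    rw [norm_div, norm_mul, norm_one, Complex.norm_natCast]
    norm_num
  rw [h3]
  calc 1 / (2 * (k : ℝ)) * ‖∑ i, (ρ (y i) v + ρ (y i)⁻¹ v)‖ ≤ 1 / (2 * (k : ℝ)) * (2 * k * ‖v‖) := by
        gcongr
    _ = ‖v‖ := by field_simp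

/-- `‖T v‖² ≤ ⟨T v, v⟩` -/
lemma TL_sq (ρ : G →* (V ≃ₗᵢ[ℂ] V)) {k : ℕ} (hk : 1 ≤ k) (y : Fin k → G) (v : V) :
    ‖TL ρ y v‖ ^ 2 ≤ ‖v‖ ^ 2 - En ρ y v / (4 * k) := by
  have h1 := TL_energy ρ hk y v
  have h2 : ‖TL ρ y v‖ ^ 2 ≤ (⟪TL ρ y v, v⟫_ℂ).re := by
    rw [WORDS.TL_apply]
    set w : V := (1 / (2 * (k : ℂ))) • ∑ i, (ρ (y i) v + ρ (y i)⁻¹ v) with hw
    have hc := walk_contr ρ hk y v
    rw [← hw] at hc
    have e1 : ‖(1 / 2 : ℂ) • (v + w)‖ ^ 2 = 1 / 4 * (‖v‖ ^ 2 + 2 * (⟪v, w⟫_ℂ).re + ‖w‖ ^ 2) := by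
      rw [norm_smul, mul_pow, norm_add_sq (𝕜 := ℂ)]
      norm_num
    have e2 : (⟪(1 / 2 : ℂ) • (v + w), v⟫_ℂ).re = 1 / 2 * (‖v‖ ^ 2 + (⟪v, w⟫_ℂ).re) := by
      rw [inner_smul_left, inner_add_left]
      have h3 : (starRingEnd ℂ) (1 / 2 : ℂ) = ((1 / 2 : ℝ) : ℂ) := by
        rw [map_div₀, map_one, Complex.conj_ofNat]
        push_cast
        rfl
      rw [h3, Complex.re_ofReal_mul, Complex.add_re]
      have h4 : (⟪v, v⟫_ℂ).re = ‖v‖ ^ 2 := by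
        rw [inner_self_eq_norm_sq_to_K]
        norm_cast
      have h5 : (⟪w, v⟫_ℂ).re = (⟪v, w⟫_ℂ).re := by
        rw [← inner_conj_symm, Complex.conj_re]
      rw [h4, h5]
    rw [e1, e2]
    have : ‖w‖ ^ 2 ≤ ‖v‖ ^ 2 := pow_le_pow_left₀ (norm_nonneg _) hc 2
    linarith
  linarith

/-- decay on an invariant subspace with a gap -/
theorem TL_pow_norm (ρ : G →* (V ≃ₗᵢ[ℂ] V)) {k : ℕ} (hk : 1 ≤ k) (y : Fin k → G) (c : ℝ)
    (M : Submodule ℂ V) (hM : ∀ v ∈ M, TL ρ y v ∈ M)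
    (hgap : ∀ v ∈ M, c * ‖v‖ ^ 2 ≤ En ρ y v) (L : ℕ) :
    ∀ v ∈ M, ‖(TL ρ y ^ L) v‖ ^ 2 ≤ Real.exp (-(c * L / (4 * k))) * ‖v‖ ^ 2 := by
  have hk0 : (0 : ℝ) < k := by exact_mod_cast hk
  induction L with
  | zero => intro v _; simp
  | succ L ih =>
    intro v hv
    rw [pow_succ (TL ρ y) L, Module.End.mul_apply]
    refine (ih _ (hM v hv)).trans ?_
    have h1 := TL_sq ρ hk y v
    have h2 : c / (4 * k) * ‖v‖ ^ 2 ≤ En ρ y v / (4 * k) := by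
      rw [div_mul_eq_mul_div]
      exact div_le_div_of_nonneg_right (hgap v hv) (by positivity)
    have h3 : ‖TL ρ y v‖ ^ 2 ≤ Real.exp (-(c / (4 * k))) * ‖v‖ ^ 2 := by
      have h4 : 1 - c / (4 * k) ≤ Real.exp (-(c / (4 * k))) := by
        have := Real.add_one_le_exp (-(c / (4 * k)))
        linarith
      calc ‖TL ρ y v‖ ^ 2 ≤ (1 - c / (4 * k)) * ‖v‖ ^ 2 := by linarith
        _ ≤ _ := by gcongr
    calc Real.exp (-(c * L / (4 * k))) * ‖TL ρ y v‖ ^ 2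
        ≤ Real.exp (-(c * L / (4 * k))) * (Real.exp (-(c / (4 * k))) * ‖v‖ ^ 2) := by gcongr
      _ = Real.exp (-(c * (L + 1 : ℕ) / (4 * k))) * ‖v‖ ^ 2 := by
          rw [← mul_assoc, ← Real.exp_add]
          congr 2
          push_cast
          ring

/-- the trace of an even power of the walk in a representation with a gap -/
theorem rtr_gap (ρ : G →* (V ≃ₗᵢ[ℂ] V)) {k : ℕ} (hk : 1 ≤ k) (y : Fin k → G) (c : ℝ)
    (hgap : ∀ v, c * ‖v‖ ^ 2 ≤ En ρ y v) (L : ℕ) :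
    rtr (TL ρ y ^ (2 * L)) ≤ Real.exp (-(c * L / (4 * k))) * Module.finrank ℂ V := by
  classical
  set b := stdOrthonormalBasis ℂ V with hb
  have hsym : ((TL ρ y) ^ L).IsSymmetric := (TL_symm ρ y).pow L
  have hdecay := TL_pow_norm ρ hk y c ⊤ (fun _ _ => trivial) (fun v _ => hgap v) L
  unfold rtr
  rw [LinearMap.trace_eq_sum_inner _ b, Complex.re_sum]
  have h : ∀ i, (⟪b i, (TL ρ y ^ (2 * L)) (b i)⟫_ℂ).re ≤ Real.exp (-(c * L / (4 * k))) := by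
    intro i
    rw [two_mul, pow_add, Module.End.mul_apply, ← hsym]
    have h1 := hdecay (b i) trivial
    rw [b.norm_eq_one i] at h1
    have h2 : (⟪(TL ρ y ^ L) (b i), (TL ρ y ^ L) (b i)⟫_ℂ).re = ‖(TL ρ y ^ L) (b i)‖ ^ 2 := by
      rw [inner_self_eq_norm_sq_to_K]
      norm_cast
    rw [h2]
    linarith
  refine (Finset.sum_le_sum fun i _ => h i).trans ?_
  simp [mul_comm]

end

end

end H91DI
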